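import Mathlib
import Pool.Agent.Helper112.Bilinear
import Pool.Agent.H343R2.PV
import Pool.Agent.H510R2.Div

/-!
# A Bombieri–Vinogradov type lemma for `α * 1` (task D of the additive divisor project)
-/

set_option autoImplicit false

open Finset

namespace Pool.Agent.H109R2.ADD

open Pool.Agent.Helper112 Pool.Agent.Helper112.BLB

theorem inv_tot_le (n : ℕ) (hn : 1 ≤ n) : 1 / (Nat.totient n : ℝ) ≤ (n.divisors.card : ℝ) / n := by
  have h1 : n ≤ n.divisors.card * Nat.totient n := by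
    calc n = ∑ d ∈ n.divisors, Nat.totient d := (Nat.sum_totient n).symm
      _ ≤ ∑ _d ∈ n.divisors, Nat.totient n := by
          apply sum_le_sum
          intro d hd
          exact Nat.le_of_dvd (Nat.totient_pos.mpr hn)
            (Nat.totient_dvd_of_dvd (Nat.dvd_of_mem_divisors hd))
      _ = _ := by rw [sum_const, smul_eq_mul]
  have h2 : (0:ℝ) < Nat.totient n := by exact_mod_cast Nat.totient_pos.mpr hn
  have h3 : (0:ℝ) < n := by exact_mod_cast hn
  rw [div_le_div_iff₀ h2 h3, one_mul]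
  exact_mod_cast h1

/-- indicator of coprimality by Möbius -/
theorem moebius_ind (g c : ℕ) (hg : 1 ≤ g) (hc : 1 ≤ c) :
    (if c.Coprime g then (1 : ℤ) else 0) =
      ∑ d ∈ g.divisors, if d ∣ c then ArithmeticFunction.moebius d else 0 := by
  have h0 : Nat.gcd c g ≠ 0 := by
    have := Nat.gcd_pos_of_pos_left g hc
    omega
  have h1 : (∑ d ∈ (Nat.gcd c g).divisors, ArithmeticFunction.moebius d : ℤ) =
      if Nat.gcd c g = 1 then 1 else 0 := by
    rw [← ArithmeticFunction.coe_mul_zeta_apply, ArithmeticFunction.moebius_mul_coe_zeta,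
      ArithmeticFunction.one_apply]
  have h2 : (Nat.gcd c g).divisors = g.divisors.filter (fun d => d ∣ c) := by
    ext d
    simp only [Nat.mem_divisors, mem_filter, Nat.dvd_gcd_iff]
    constructor
    · rintro ⟨⟨h3, h4⟩, h5⟩
      exact ⟨⟨h4, by omega⟩, h3⟩
    · rintro ⟨⟨h3, h4⟩, h5⟩
      exact ⟨⟨h5, h3⟩, h0⟩
  rw [← sum_filter, ← h2, h1]

/-- sums over integers coprime to `g` -/
theorem sum_coprime {E : Type} [CommRing E] (F : ℕ → E) (g Y : ℕ) (hg : 1 ≤ g) :
    ∑ c ∈ (Icc 1 Y).filter (fun c => c.Coprime g), F c =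
      ∑ d ∈ g.divisors, ((ArithmeticFunction.moebius d : ℤ) : E) * ∑ c ∈ Icc 1 (Y / d), F (d * c) := by
  have h1 : ∑ c ∈ (Icc 1 Y).filter (fun c => c.Coprime g), F c =
      ∑ c ∈ Icc 1 Y, ∑ d ∈ g.divisors,
        if d ∣ c then ((ArithmeticFunction.moebius d : ℤ) : E) * F c else 0 := by
    rw [sum_filter]
    apply sum_congr rfl
    intro c hc
    rw [mem_Icc] at hc
    have h2 := congrArg (Int.cast (R := E)) (moebius_ind g c hg hc.1)
    push_cast at h2
    have h3 : (if c.Coprime g then F c else 0) = (if c.Coprime g then (1 : E) else 0) * F c := by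
      split_ifs <;> simp
    rw [h3, h2, sum_mul]
    apply sum_congr rfl
    intro d _
    split_ifs <;> simp
  rw [h1, sum_comm]
  apply sum_congr rfl
  intro d hd
  have hd0 : 0 < d := Nat.pos_of_mem_divisors hd
  rw [← sum_filter, mul_sum]
  have h4 : (Icc 1 Y).filter (fun c => d ∣ c) = (Icc 1 (Y / d)).image (fun c => d * c) := by
    ext c
    simp only [mem_filter, mem_Icc, mem_image]
    constructor
    · rintro ⟨⟨h5, h6⟩, e, rfl⟩
      refine ⟨e, ⟨Nat.pos_of_ne_zero (by rintro rfl; simp at h5), ?_⟩, rfl⟩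
      rw [Nat.le_div_iff_mul_le hd0]
      linarith
    · rintro ⟨e, ⟨h5, h6⟩, rfl⟩
      rw [Nat.le_div_iff_mul_le hd0] at h6
      refine ⟨⟨Nat.mul_pos hd0 h5, by linarith⟩, dvd_mul_right d e⟩
  rw [h4, sum_image]
  intro a _ b _ hab
  exact Nat.eq_of_mul_eq_mul_left hd0 hab

theorem card_coprime (g Y : ℕ) (hg : 1 ≤ g) :
    |(((Icc 1 Y).filter (fun c => c.Coprime g)).card : ℝ) - Y * (Nat.totient g : ℝ) / g| ≤
      (g.divisors.card : ℝ) := by
  have hgr : (0 : ℝ) < g := by exact_mod_cast hg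
  have h1 := sum_coprime (fun _ : ℕ => (1 : ℝ)) g Y hg
  have h2 := sum_coprime (fun _ : ℕ => (1 : ℝ)) g g hg
  simp only [sum_const, nsmul_eq_mul, mul_one, Nat.card_Icc, Nat.add_sub_cancel] at h1 h2
  have h3 : ((Icc 1 g).filter (fun c => c.Coprime g)).card = Nat.totient g := by
    rw [← Nat.filter_coprime_Ico_eq_totient g 1]
    congr 1
    ext c
    simp only [mem_filter, mem_Icc, mem_Ico]
    rw [Nat.coprime_comm]
    constructor
    · rintro ⟨⟨h4, h5⟩, h6⟩; exact ⟨⟨h4, by omega⟩, h6⟩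
    · rintro ⟨⟨h4, h5⟩, h6⟩; exact ⟨⟨h4, by omega⟩, h6⟩
  rw [h3] at h2
  rw [h1, h2]
  have h4 : (∑ x ∈ g.divisors, ((ArithmeticFunction.moebius x : ℤ) : ℝ) * ((Y / x : ℕ) : ℝ)) -
      Y * (∑ x ∈ g.divisors, ((ArithmeticFunction.moebius x : ℤ) : ℝ) * ((g / x : ℕ) : ℝ)) / g =
      ∑ x ∈ g.divisors, ((ArithmeticFunction.moebius x : ℤ) : ℝ) * (((Y / x : ℕ) : ℝ) - Y / x) := by
    rw [mul_sum, sum_div, ← sum_sub_distrib]
    apply sum_congr rfl
    intro x hx
    have hx0 : (0 : ℝ) < x := by exact_mod_cast Nat.pos_of_mem_divisors hx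
    rw [Nat.cast_div (Nat.dvd_of_mem_divisors hx) hx0.ne']
    field_simp
  rw [h4]
  refine (abs_sum_le_sum_abs _ _).trans ?_
  calc ∑ x ∈ g.divisors, |((ArithmeticFunction.moebius x : ℤ) : ℝ) * (((Y / x : ℕ) : ℝ) - Y / x)|
      ≤ ∑ x ∈ g.divisors, (1 : ℝ) := by
        apply sum_le_sum
        intro x hx
        have hx0 : (0 : ℝ) < x := by exact_mod_cast Nat.pos_of_mem_divisors hx
        rw [abs_mul]
        have h5 : |((ArithmeticFunction.moebius x : ℤ) : ℝ)| ≤ 1 := by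
          have := ArithmeticFunction.abs_moebius_le_one (n := x)
          exact_mod_cast this
        have h6 : |((Y / x : ℕ) : ℝ) - Y / x| ≤ 1 := by
          have h7 : ((Y / x : ℕ) : ℝ) ≤ (Y : ℝ) / x := Nat.cast_div_le
          have h8 : (Y : ℝ) / x < ((Y / x : ℕ) : ℝ) + 1 := by
            rw [div_lt_iff₀ hx0]
            have := Nat.lt_mul_div_succ Y (Nat.pos_of_mem_divisors hx)
            have h9 : Y < (Y / x + 1) * x := by rw [mul_comm]; exact this
            exact_mod_cast h9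
          rw [abs_le]; constructor <;> linarith
        calc _ ≤ (1 : ℝ) * 1 := mul_le_mul h5 h6 (abs_nonneg _) (by norm_num)
          _ = 1 := one_mul 1
    _ = _ := by simp

open Classical in
theorem card_prim (f : ℕ) (hf : 1 ≤ f) :
    (((univ : Finset (DirichletCharacter ℂ f)).filter (fun χ => χ.IsPrimitive)).card : ℝ) ≤
      Nat.totient f := by
  have : NeZero f := ⟨by omega⟩
  have h2 : (univ : Finset (DirichletCharacter ℂ f)).card = Nat.totient f := by
    have := DirichletCharacter.card_eq_totient_of_hasEnoughRootsOfUnity ℂ f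
    rw [← this, Finset.card_univ, Nat.card_eq_fintype_card]
  rw [← h2]
  exact_mod_cast card_filter_le _ _

/-- Pólya–Vinogradov with a coprimality condition -/
theorem PV_res (f g Y : ℕ) (hf : 2 ≤ f) (hg : 1 ≤ g) (ψ : DirichletCharacter ℂ f)
    (hψ : ψ.IsPrimitive) :
    ‖A Y (res g (fun _ => 1)) f ψ‖ ≤ (g.divisors.card : ℝ) * (Real.sqrt f * (1 + Real.log f)) := by
  have h1 : A Y (res g (fun _ => 1)) f ψ =
      ∑ c ∈ (Icc 1 Y).filter (fun c => c.Coprime g), ψ (c : ZMod f) := by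
    unfold A res
    rw [sum_filter]
    apply sum_congr rfl
    intro c _
    split_ifs <;> simp
  rw [h1, sum_coprime (fun c : ℕ => ψ (c : ZMod f)) g Y hg]
  refine (norm_sum_le _ _).trans ?_
  calc ∑ d ∈ g.divisors, ‖((ArithmeticFunction.moebius d : ℤ) : ℂ) *
        ∑ c ∈ Icc 1 (Y / d), ψ ((d * c : ℕ) : ZMod f)‖
      ≤ ∑ d ∈ g.divisors, (Real.sqrt f * (1 + Real.log f)) := by
        apply sum_le_sum
        intro d _
        have h2 : ∑ c ∈ Icc 1 (Y / d), ψ ((d * c : ℕ) : ZMod f) =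
            ψ (d : ZMod f) * ∑ c ∈ Icc 1 (Y / d), ψ (c : ZMod f) := by
          rw [mul_sum]
          apply sum_congr rfl
          intro c _
          push_cast
          rw [map_mul]
        rw [h2, norm_mul, norm_mul]
        have h3 : ‖((ArithmeticFunction.moebius d : ℤ) : ℂ)‖ ≤ 1 := by
          have := ArithmeticFunction.abs_moebius_le_one (n := d)
          rw [Complex.norm_intCast]
          exact_mod_cast this
        have h4 : ‖ψ (d : ZMod f)‖ ≤ 1 := ψ.norm_le_one _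
        have h5 := H343.PVaux.PV_plain f (Y / d) hf ψ hψ
        calc _ ≤ 1 * (1 * (Real.sqrt f * (1 + Real.log f))) := by
              gcongr
          _ = _ := by ring
    _ = _ := by rw [sum_const, nsmul_eq_mul]

theorem A_le (U : ℕ) (α : ℕ → ℝ) (f g : ℕ) (ψ : DirichletCharacter ℂ f) (hα : ∀ n, |α n| ≤ 1) :
    ‖A U (res g α) f ψ‖ ≤ U := by
  unfold A
  refine (norm_sum_le _ _).trans ?_
  calc ∑ b ∈ Icc 1 U, ‖((res g α b : ℝ) : ℂ) * ψ (b : ZMod f)‖ ≤ ∑ b ∈ Icc 1 U, (1 : ℝ) := by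
        apply sum_le_sum
        intro b _
        rw [norm_mul, Complex.norm_real, Real.norm_eq_abs]
        have h1 : |res g α b| ≤ 1 := by
          unfold res
          split_ifs
          · exact hα b
          · simp
        have h2 : ‖ψ (b : ZMod f)‖ ≤ 1 := ψ.norm_le_one _
        calc _ ≤ (1 : ℝ) * 1 := mul_le_mul h1 h2 (norm_nonneg _) (by norm_num)
          _ = 1 := one_mul 1
    _ = U := by simp

open Classical in
/-- small conductors -/
theorem P_small (U Y : ℕ) (α : ℕ → ℝ) (f g : ℕ) (hf : 2 ≤ f) (hg : 1 ≤ g) (hα : ∀ n, |α n| ≤ 1) :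
    (1 / (Nat.totient f : ℝ)) * P U Y (res g α) (res g (fun _ => 1)) f ≤
      U * ((g.divisors.card : ℝ) * (Real.sqrt f * (1 + Real.log f))) := by
  have htf : (0:ℝ) < Nat.totient f := by exact_mod_cast Nat.totient_pos.mpr (by omega)
  rw [one_div, inv_mul_le_iff₀ htf]
  unfold P
  calc _ ≤ ∑ ψ ∈ (univ : Finset (DirichletCharacter ℂ f)).filter (fun χ => χ.IsPrimitive),
        (U : ℝ) * ((g.divisors.card : ℝ) * (Real.sqrt f * (1 + Real.log f))) := by
        apply sum_le_sum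
        intro ψ hψ
        rw [mem_filter] at hψ
        exact mul_le_mul (A_le U α f g ψ hα) (PV_res f g Y hf hg ψ hψ.2) (norm_nonneg _)
          (Nat.cast_nonneg _)
    _ ≤ _ := by
        rw [sum_const, nsmul_eq_mul]
        refine mul_le_mul_of_nonneg_right (card_prim f (by omega)) ?_
        have : 0 ≤ Real.log f := Real.log_natCast_nonneg f
        positivity

/-- the sum `∑ τ(g)/φ(g)` -/
noncomputable def SS (Q : ℕ) : ℝ := ∑ g ∈ Icc 1 Q, (g.divisors.card : ℝ) / Nat.totient g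

theorem SS_nonneg (Q : ℕ) : 0 ≤ SS Q := sum_nonneg fun _ _ => by positivity

theorem one_term (U Y m : ℕ) (hm : 1 ≤ m) (α : ℕ → ℝ) (a : ℕ) (hα : ∀ n, |α n| ≤ 1) :
    |∑ M ∈ Icc 1 U, α M * ((((Icc 1 Y).filter (fun c => M * c ≡ a [MOD m])).card : ℝ) -
          if M.Coprime m then (Y : ℝ) / m else 0)| ≤
      |∑ b ∈ Icc 1 U, ∑ c ∈ Icc 1 Y, α b * 1 *
        ((if b * c ≡ a [MOD m] then (1 : ℝ) else 0) -
          (if (b * c).Coprime m then (1 : ℝ) / (Nat.totient m : ℝ) else 0))| +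
      U * ((m.divisors.card : ℝ) / Nat.totient m) := by
  have htm : (0:ℝ) < Nat.totient m := by exact_mod_cast Nat.totient_pos.mpr hm
  have hm0 : (0 : ℝ) < m := by exact_mod_cast hm
  set R : ℕ → ℝ := fun M => (∑ c ∈ Icc 1 Y,
    (if (M * c).Coprime m then (1 : ℝ) / (Nat.totient m : ℝ) else 0)) -
      if M.Coprime m then (Y : ℝ) / m else 0 with hR
  have h1 : ∑ M ∈ Icc 1 U, α M * ((((Icc 1 Y).filter (fun c => M * c ≡ a [MOD m])).card : ℝ) -
          if M.Coprime m then (Y : ℝ) / m else 0) =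
      (∑ b ∈ Icc 1 U, ∑ c ∈ Icc 1 Y, α b * 1 *
        ((if b * c ≡ a [MOD m] then (1 : ℝ) else 0) -
          (if (b * c).Coprime m then (1 : ℝ) / (Nat.totient m : ℝ) else 0))) +
      ∑ M ∈ Icc 1 U, α M * R M := by
    rw [← sum_add_distrib]
    apply sum_congr rfl
    intro M _
    rw [← mul_sum, mul_one, ← mul_add]
    congr 1
    rw [sum_sub_distrib, hR]
    simp only
    rw [← sum_filter (fun c => M * c ≡ a [MOD m])]
    simp only [sum_const, nsmul_eq_mul, mul_one]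
    ring
  have h2 : ∀ M, |R M| ≤ (m.divisors.card : ℝ) / Nat.totient m := by
    intro M
    rw [hR]
    simp only
    by_cases hM : M.Coprime m
    · have h3 : ∀ c, (M * c).Coprime m ↔ c.Coprime m := fun c =>
        ⟨fun h => Nat.Coprime.coprime_mul_left h, fun h => Nat.Coprime.mul_left hM h⟩
      simp only [h3]
      rw [if_pos hM, ← sum_filter, sum_const, nsmul_eq_mul]
      have h4 := card_coprime m Y hm
      have h5 : (((Icc 1 Y).filter (fun c => c.Coprime m)).card : ℝ) * (1 / (Nat.totient m : ℝ)) -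
          (Y : ℝ) / m = ((((Icc 1 Y).filter (fun c => c.Coprime m)).card : ℝ) -
            Y * (Nat.totient m : ℝ) / m) / Nat.totient m := by
        field_simp
      rw [h5, abs_div, abs_of_pos htm]
      exact div_le_div_of_nonneg_right h4 htm.le
    · have h3 : ∀ c, ¬ (M * c).Coprime m := fun c h => hM (Nat.Coprime.coprime_mul_right h)
      simp only [h3, if_false, sum_const_zero]
      rw [if_neg hM, sub_zero, abs_zero]
      positivity
  rw [h1]
  refine (abs_add_le _ _).trans ?_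
  gcongr
  refine (abs_sum_le_sum_abs _ _).trans ?_
  calc ∑ M ∈ Icc 1 U, |α M * R M| ≤ ∑ M ∈ Icc 1 U, ((m.divisors.card : ℝ) / Nat.totient m) := by
        apply sum_le_sum
        intro M _
        rw [abs_mul]
        calc |α M| * |R M| ≤ 1 * ((m.divisors.card : ℝ) / Nat.totient m) :=
              mul_le_mul (hα M) (h2 M) (abs_nonneg _) (by norm_num)
          _ = _ := one_mul _
    _ = _ := by simp

theorem swap (Q : ℕ) (Ms : Finset ℕ) (hMs : ∀ m ∈ Ms, 1 ≤ m ∧ m ≤ Q) (G : ℕ → ℕ → ℝ)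
    (hG0 : ∀ g f, 0 ≤ G g f) :
    ∑ m ∈ Ms, ∑ f ∈ m.divisors.filter (fun f => f ≠ 1), G (m / f) f ≤
      ∑ g ∈ Icc 1 Q, ∑ f ∈ Icc 2 Q, G g f := by
  rw [sum_sigma', ← sum_product']
  have e6 : ∑ x ∈ Ms.sigma (fun m => m.divisors.filter (fun f => f ≠ 1)), G (x.1 / x.2) x.2 =
      ∑ p ∈ (Ms.sigma (fun m => m.divisors.filter (fun f => f ≠ 1))).image
        (fun x : (_ : ℕ) × ℕ => (x.1 / x.2, x.2)), G p.1 p.2 := by
    rw [sum_image]
    rintro ⟨m, f⟩ hx ⟨m', f'⟩ hx' heq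
    simp only [Finset.mem_coe, mem_sigma, mem_filter, Nat.mem_divisors] at hx hx'
    simp only [Prod.mk.injEq] at heq
    obtain ⟨h7, h8⟩ := heq
    subst h8
    have : m = m' := by
      rw [← Nat.div_mul_cancel hx.2.1.1, h7, Nat.div_mul_cancel hx'.2.1.1]
    subst this
    rfl
  rw [e6]
  apply sum_le_sum_of_subset_of_nonneg
  · intro p hp
    rw [mem_image] at hp
    obtain ⟨⟨m, f⟩, hx, rfl⟩ := hp
    simp only [mem_sigma, mem_filter, Nat.mem_divisors] at hx
    obtain ⟨hm0, hle⟩ := hMs m hx.1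
    have hfm := hx.2.1.1
    have hf0 : 0 < f := Nat.pos_of_dvd_of_pos hfm hm0
    have hf1 : f ≠ 1 := hx.2.2
    have hfle : f ≤ m := Nat.le_of_dvd hm0 hfm
    simp only [mem_product, mem_Icc]
    refine ⟨⟨Nat.div_pos hfle hf0, (Nat.div_le_self m f).trans hle⟩, by omega, by omega⟩
  · intro p _ _
    exact hG0 _ _

theorem finite_bound (U Y Q F0 : ℕ) (α : ℕ → ℝ) (a : ℕ → ℕ) (hQ : 1 ≤ Q) (hF0 : 1 ≤ F0)
    (hα : ∀ n, |α n| ≤ 1) :
    ∑ m ∈ (Icc 1 Q).filter (fun m => (a m).Coprime m),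
        |∑ M ∈ Icc 1 U, α M * ((((Icc 1 Y).filter (fun c => M * c ≡ a m [MOD m])).card : ℝ) -
          if M.Coprime m then (Y : ℝ) / m else 0)| ≤
      SS Q * (12 * (1 + Real.log Q) *
        (Real.sqrt (U * Y) / F0 + (Real.sqrt U + Real.sqrt Y) + Q) * (Real.sqrt U * Real.sqrt Y)) +
      SS Q * (U * (F0 * (Real.sqrt F0 * (1 + Real.log F0)))) + U * SS Q := by
  set T : ℝ := 12 * (1 + Real.log Q) *
        (Real.sqrt (U * Y) / F0 + (Real.sqrt U + Real.sqrt Y) + Q) * (Real.sqrt U * Real.sqrt Y) with hT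
  have hlogQ : 0 ≤ Real.log Q := Real.log_natCast_nonneg Q
  have hlogF : 0 ≤ Real.log F0 := Real.log_natCast_nonneg F0
  have hT0 : 0 ≤ T := by positivity
  set G : ℕ → ℕ → ℝ := fun g f => (1 / (Nat.totient g : ℝ)) * ((1 / (Nat.totient f : ℝ)) *
    P U Y (res g α) (res g (fun _ => 1)) f) with hG
  have hG0 : ∀ g f, 0 ≤ G g f := fun g f =>
    mul_nonneg (by positivity) (mul_nonneg (by positivity) (P_nonneg _ _ _ _ _))
  have s1 : ∑ m ∈ (Icc 1 Q).filter (fun m => (a m).Coprime m),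
        |∑ M ∈ Icc 1 U, α M * ((((Icc 1 Y).filter (fun c => M * c ≡ a m [MOD m])).card : ℝ) -
          if M.Coprime m then (Y : ℝ) / m else 0)| ≤
      (∑ m ∈ (Icc 1 Q).filter (fun m => (a m).Coprime m),
        ∑ f ∈ m.divisors.filter (fun f => f ≠ 1), G (m / f) f) + U * SS Q := by
    calc _ ≤ ∑ m ∈ (Icc 1 Q).filter (fun m => (a m).Coprime m),
        (∑ f ∈ m.divisors.filter (fun f => f ≠ 1), G (m / f) f +
          U * ((m.divisors.card : ℝ) / Nat.totient m)) := by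
          apply sum_le_sum
          intro m hm
          rw [mem_filter, mem_Icc] at hm
          refine (one_term U Y m hm.1.1 α (a m) hα).trans ?_
          have hm0 : m ≠ 0 := by omega
          gcongr
          refine (step12 U Y α (fun _ => 1) m hm0 (a m) hm.2).trans ?_
          apply sum_le_sum
          intro f hf
          rw [mem_filter, Nat.mem_divisors] at hf
          obtain ⟨⟨⟨g, hg⟩, -⟩, hf1⟩ := hf
          have hf0 : 0 < f := Nat.pos_of_ne_zero (by rintro rfl; simp at hg; omega)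
          have hg0 : 0 < g := Nat.pos_of_ne_zero (by rintro rfl; simp at hg; omega)
          rw [hG]
          simp only
          rw [← mul_assoc]
          refine mul_le_mul_of_nonneg_right ?_ (P_nonneg _ _ _ _ _)
          have hmg : m / f = g := by rw [hg, Nat.mul_div_cancel_left g hf0]
          rw [hmg]
          have htf : (0:ℝ) < Nat.totient f := by exact_mod_cast Nat.totient_pos.mpr hf0
          have htg0 : (0:ℝ) < Nat.totient g := by exact_mod_cast Nat.totient_pos.mpr hg0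
          rw [div_mul_div_comm, one_mul]
          have h5 : (Nat.totient g : ℝ) * Nat.totient f ≤ Nat.totient m := by
            have := Nat.totient_super_multiplicative f g
            rw [hg]
            rw [mul_comm]
            exact_mod_cast this
          exact one_div_le_one_div_of_le (by positivity) h5
      _ = _ + U * ∑ m ∈ (Icc 1 Q).filter (fun m => (a m).Coprime m),
          ((m.divisors.card : ℝ) / Nat.totient m) := by
          rw [sum_add_distrib, mul_sum]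
      _ ≤ _ := by
          have h6 : ∑ m ∈ (Icc 1 Q).filter (fun m => (a m).Coprime m),
              ((m.divisors.card : ℝ) / Nat.totient m) ≤ SS Q :=
            sum_le_sum_of_subset_of_nonneg (filter_subset _ _) fun _ _ _ => by positivity
          gcongr
  refine s1.trans ?_
  gcongr
  refine (swap Q _ (fun m hm => by rw [mem_filter, mem_Icc] at hm; exact hm.1) G hG0).trans ?_
  rw [← mul_add]
  unfold SS
  rw [sum_mul]
  apply sum_le_sum
  intro g hg
  rw [mem_Icc] at hg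
  have htg0 : (0:ℝ) < Nat.totient g := by exact_mod_cast Nat.totient_pos.mpr (by omega : 0 < g)
  have hτ1 : (1:ℝ) ≤ g.divisors.card := by
    have : 0 < g.divisors.card := card_pos.mpr ⟨1, by simp; omega⟩
    exact_mod_cast this
  have h7 : ∑ f ∈ Icc 2 Q, (1 / (Nat.totient f : ℝ)) * P U Y (res g α) (res g (fun _ => 1)) f ≤
      T + (g.divisors.card : ℝ) * (U * (F0 * (Real.sqrt F0 * (1 + Real.log F0)))) := by
    have h8 : ∑ f ∈ Icc F0 Q, (1 / (Nat.totient f : ℝ)) * P U Y (res g α) (res g (fun _ => 1)) f ≤ T := by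
      refine (step45 U Y (res g α) (res g (fun _ => 1)) F0 Q hF0 hQ).trans ?_
      rw [hT]
      have h9 : Real.sqrt (∑ b ∈ Icc 1 U, res g α b ^ 2) ≤ Real.sqrt U := by
        apply Real.sqrt_le_sqrt
        calc ∑ b ∈ Icc 1 U, res g α b ^ 2 ≤ ∑ b ∈ Icc 1 U, (1 : ℝ) := by
              apply sum_le_sum
              intro b _
              rw [sq_le_one_iff_abs_le_one]
              unfold res
              split_ifs
              · exact hα b
              · simp
          _ = U := by simp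
      have h10 : Real.sqrt (∑ b ∈ Icc 1 Y, res g (fun _ => 1) b ^ 2) ≤ Real.sqrt Y := by
        apply Real.sqrt_le_sqrt
        calc ∑ b ∈ Icc 1 Y, res g (fun _ => 1) b ^ 2 ≤ ∑ b ∈ Icc 1 Y, (1 : ℝ) := by
              apply sum_le_sum
              intro b _
              rw [sq_le_one_iff_abs_le_one]
              unfold res
              split_ifs <;> simp
          _ = Y := by simp
      gcongr
    have h11 : ∑ f ∈ Icc 2 (F0 - 1), (1 / (Nat.totient f : ℝ)) *
        P U Y (res g α) (res g (fun _ => 1)) f ≤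
        (g.divisors.card : ℝ) * (U * (F0 * (Real.sqrt F0 * (1 + Real.log F0)))) := by
      calc _ ≤ ∑ f ∈ Icc 2 (F0 - 1), ((U : ℝ) * ((g.divisors.card : ℝ) *
            (Real.sqrt F0 * (1 + Real.log F0)))) := by
            apply sum_le_sum
            intro f hf
            rw [mem_Icc] at hf
            refine (P_small U Y α f g hf.1 hg.1 hα).trans ?_
            have hfF : (f : ℝ) ≤ F0 := by exact_mod_cast (by omega : f ≤ F0)
            have hf0 : (0 : ℝ) < f := by exact_mod_cast (by omega : 0 < f)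
            gcongr
        _ = ((Icc 2 (F0 - 1)).card : ℝ) * ((U : ℝ) * ((g.divisors.card : ℝ) *
            (Real.sqrt F0 * (1 + Real.log F0)))) := by rw [sum_const, nsmul_eq_mul]
        _ ≤ (F0 : ℝ) * ((U : ℝ) * ((g.divisors.card : ℝ) *
            (Real.sqrt F0 * (1 + Real.log F0)))) := by
            have : (Icc 2 (F0 - 1)).card ≤ F0 := by rw [Nat.card_Icc]; omega
            have : ((Icc 2 (F0 - 1)).card : ℝ) ≤ F0 := by exact_mod_cast this
            gcongr
        _ = _ := by ring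
    have h12 : Icc 2 Q ⊆ Icc 2 (F0 - 1) ∪ Icc F0 Q := by
      intro f hf
      rw [mem_union, mem_Icc, mem_Icc]
      rw [mem_Icc] at hf
      omega
    calc _ ≤ ∑ f ∈ Icc 2 (F0 - 1) ∪ Icc F0 Q, (1 / (Nat.totient f : ℝ)) *
          P U Y (res g α) (res g (fun _ => 1)) f :=
          sum_le_sum_of_subset_of_nonneg h12 fun f _ _ =>
            mul_nonneg (by positivity) (P_nonneg _ _ _ _ _)
      _ ≤ ∑ f ∈ Icc 2 (F0 - 1), (1 / (Nat.totient f : ℝ)) *
          P U Y (res g α) (res g (fun _ => 1)) f + ∑ f ∈ Icc F0 Q, (1 / (Nat.totient f : ℝ)) *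
          P U Y (res g α) (res g (fun _ => 1)) f := by
          rw [← sum_union_inter]
          have : 0 ≤ ∑ f ∈ Icc 2 (F0 - 1) ∩ Icc F0 Q, (1 / (Nat.totient f : ℝ)) *
            P U Y (res g α) (res g (fun _ => 1)) f :=
            sum_nonneg fun f _ => mul_nonneg (by positivity) (P_nonneg _ _ _ _ _)
          linarith
      _ ≤ _ := by linarith
  rw [hG]
  simp only
  rw [← mul_sum]
  calc 1 / (Nat.totient g : ℝ) * ∑ f ∈ Icc 2 Q, (1 / (Nat.totient f : ℝ)) *
        P U Y (res g α) (res g (fun _ => 1)) f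
      ≤ 1 / (Nat.totient g : ℝ) * (T + (g.divisors.card : ℝ) *
        (U * (F0 * (Real.sqrt F0 * (1 + Real.log F0))))) := by gcongr
    _ ≤ 1 / (Nat.totient g : ℝ) * ((g.divisors.card : ℝ) * T + (g.divisors.card : ℝ) *
        (U * (F0 * (Real.sqrt F0 * (1 + Real.log F0))))) := by
        gcongr
        exact le_mul_of_one_le_left hT0 hτ1
    _ = _ := by ring

theorem log_le (κ x : ℝ) (hκ : 0 < κ) (hx : 1 ≤ x) : 1 + Real.log x ≤ (1 + 1 / κ) * x ^ κ := by
  have h1 := Real.log_le_rpow_div (by linarith : 0 ≤ x) hκ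
  have h2 : 1 ≤ x ^ κ := Real.one_le_rpow hx hκ.le
  have h3 : (1 + 1 / κ) * x ^ κ = x ^ κ + x ^ κ / κ := by ring
  rw [h3]
  linarith

theorem SS_le (κ : ℝ) (hκ : 0 < κ) : ∃ C : ℝ, 0 < C ∧ ∀ x : ℝ, 1 ≤ x → ∀ Q : ℕ, (Q : ℝ) ≤ x →
    SS Q ≤ C * x ^ κ := by
  obtain ⟨C1, hC1, h1⟩ := Pool.Agent.H510R2.divisor_bound (κ / 4) (by positivity)
  refine ⟨C1 ^ 2 * (1 + 1 / (κ / 2)), by positivity, ?_⟩
  intro x hx Q hQ
  have hx0 : 0 < x := by linarith
  have h2 : ∀ g ∈ Icc 1 Q, (g.divisors.card : ℝ) / Nat.totient g ≤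
      (C1 ^ 2 * x ^ (κ / 2)) * (1 / (g : ℝ)) := by
    intro g hg
    rw [mem_Icc] at hg
    have hg0 : (0 : ℝ) < g := by exact_mod_cast (by omega : 0 < g)
    have hgx : (g : ℝ) ≤ x := le_trans (by exact_mod_cast hg.2) hQ
    have h3 : (g.divisors.card : ℝ) ≤ C1 * x ^ (κ / 4) :=
      (h1 g hg.1).trans (mul_le_mul_of_nonneg_left
        (Real.rpow_le_rpow hg0.le hgx (by positivity)) hC1.le)
    have h4 := inv_tot_le g hg.1
    have h5 : x ^ (κ / 4) * x ^ (κ / 4) = x ^ (κ / 2) := by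
      rw [← Real.rpow_add hx0]; congr 1; ring
    calc (g.divisors.card : ℝ) / Nat.totient g = g.divisors.card * (1 / (Nat.totient g : ℝ)) := by ring
      _ ≤ g.divisors.card * ((g.divisors.card : ℝ) / g) := by gcongr
      _ = (g.divisors.card : ℝ) * g.divisors.card * (1 / (g : ℝ)) := by ring
      _ ≤ (C1 * x ^ (κ / 4)) * (C1 * x ^ (κ / 4)) * (1 / (g : ℝ)) := by gcongr
      _ = _ := by rw [← h5]; ring
  have h6 : ∑ g ∈ Icc 1 Q, (1 / (g : ℝ)) ≤ 1 + Real.log x := by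
    rcases Nat.eq_zero_or_pos Q with h | h
    · subst h
      have : 0 ≤ Real.log x := Real.log_nonneg hx
      simp
      linarith
    · have h7 := harmonic_le_one_add_log Q
      rw [harmonic_eq_sum_Icc] at h7
      push_cast at h7
      simp_rw [one_div]
      have h8 : Real.log Q ≤ Real.log x :=
        Real.log_le_log (by exact_mod_cast h) hQ
      linarith
  calc SS Q ≤ ∑ g ∈ Icc 1 Q, (C1 ^ 2 * x ^ (κ / 2)) * (1 / (g : ℝ)) := sum_le_sum h2
    _ = (C1 ^ 2 * x ^ (κ / 2)) * ∑ g ∈ Icc 1 Q, (1 / (g : ℝ)) := by rw [mul_sum]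
    _ ≤ (C1 ^ 2 * x ^ (κ / 2)) * ((1 + 1 / (κ / 2)) * x ^ (κ / 2)) := by
        gcongr
        exact h6.trans (log_le (κ / 2) x (by positivity) hx)
    _ = C1 ^ 2 * (1 + 1 / (κ / 2)) * (x ^ (κ / 2) * x ^ (κ / 2)) := by ring
    _ = _ := by rw [← Real.rpow_add hx0]; congr 2; ring

/-- D (Bombieri-Vinogradov type) -/
theorem bv (ε δ : ℝ) (hε : 0 < ε) (hδ : 0 < δ) : ∃ θ C : ℝ, 0 < θ ∧ ∀ x : ℝ, 1 ≤ x →
    ∀ (U Y : ℕ) (α : ℕ → ℝ) (a : ℕ → ℕ), (U : ℝ) ≤ x ^ (1 - δ) → (Y : ℝ) ≤ x ^ (1 - δ) →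
      (U : ℝ) * Y ≤ x → (∀ n, |α n| ≤ 1) →
      ∑ m ∈ (Icc 1 ⌊x ^ (1 / 2 - ε)⌋₊).filter (fun m => (a m).Coprime m),
        |∑ M ∈ Icc 1 U, α M * ((((Icc 1 Y).filter (fun c => M * c ≡ a m [MOD m])).card : ℝ) -
          if M.Coprime m then (Y : ℝ) / m else 0)| ≤ C * x ^ (1 - θ) := by
  set κ : ℝ := min (min ε δ) 1 / 16 with hκdef
  have hκ : 0 < κ := by positivity
  have hκε : 16 * κ ≤ ε := by
    have : min (min ε δ) 1 ≤ ε := (min_le_left _ _).trans (min_le_left _ _)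
    rw [hκdef]; linarith
  have hκδ : 16 * κ ≤ δ := by
    have : min (min ε δ) 1 ≤ δ := (min_le_left _ _).trans (min_le_right _ _)
    rw [hκdef]; linarith
  obtain ⟨C1, hC1, hS⟩ := SS_le κ hκ
  set C2 : ℝ := 1 + 1 / κ with hC2
  have hC20 : 0 < C2 := by positivity
  refine ⟨2 * κ, 48 * C1 * C2 + 8 * C1 + C1, by positivity, ?_⟩
  intro x hx U Y α a hU hY hUY hα
  have hx0 : 0 < x := by linarith
  have hC0 : 0 ≤ (48 * C1 * C2 + 8 * C1 + C1) * x ^ (1 - 2 * κ) := by positivity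
  set Q := ⌊x ^ (1 / 2 - ε)⌋₊ with hQdef
  rcases Nat.eq_zero_or_pos Q with hQ0 | hQ1
  · rw [hQ0]
    simpa using hC0
  have mono : ∀ {u v : ℝ}, u ≤ v → x ^ u ≤ x ^ v := fun h => Real.rpow_le_rpow_of_exponent_le hx h
  have hQle : (Q : ℝ) ≤ x ^ (1 / 2 - ε) := Nat.floor_le (by positivity)
  have hQx : (Q : ℝ) ≤ x := by
    refine hQle.trans ((mono (by linarith : 1 / 2 - ε ≤ 1)).trans ?_)
    rw [Real.rpow_one]
  have hS1 : SS Q ≤ C1 * x ^ κ := hS x hx Q hQx
  have hlogQ0 : 0 ≤ Real.log Q := Real.log_natCast_nonneg Q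
  have hlogQ : 1 + Real.log Q ≤ C2 * x ^ κ := by
    have h1 : Real.log Q ≤ Real.log x := Real.log_le_log (by exact_mod_cast hQ1) hQx
    have h2 := log_le κ x hκ hx
    linarith
  set F0 := ⌈x ^ (4 * κ)⌉₊ with hF0def
  have hF0x : x ^ (4 * κ) ≤ F0 := Nat.le_ceil _
  have hx4 : 1 ≤ x ^ (4 * κ) := Real.one_le_rpow hx (by positivity)
  have hF01r : (1 : ℝ) ≤ F0 := hx4.trans hF0x
  have hF01 : 1 ≤ F0 := by exact_mod_cast hF01r
  have hF0le : (F0 : ℝ) ≤ 2 * x ^ (4 * κ) := by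
    have := (Nat.ceil_lt_add_one (by positivity : 0 ≤ x ^ (4 * κ))).le
    linarith
  refine (finite_bound U Y Q F0 α a hQ1 hF01 hα).trans ?_
  have hU0 : (0 : ℝ) ≤ U := Nat.cast_nonneg U
  have hY0 : (0 : ℝ) ≤ Y := Nat.cast_nonneg Y
  -- square roots
  have hsUY : Real.sqrt (U * Y) ≤ x ^ (1 / 2 : ℝ) := by
    rw [← Real.sqrt_eq_rpow]
    exact Real.sqrt_le_sqrt hUY
  have hsmul : Real.sqrt U * Real.sqrt Y = Real.sqrt (U * Y) := (Real.sqrt_mul hU0 _).symm
  have hsU : Real.sqrt U ≤ x ^ (1 / 2 - 4 * κ) := by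
    have h1 : Real.sqrt U ≤ Real.sqrt (x ^ (1 - δ)) := Real.sqrt_le_sqrt hU
    rw [Real.sqrt_eq_rpow (x ^ (1 - δ)), ← Real.rpow_mul hx0.le] at h1
    exact h1.trans (mono (by linarith))
  have hsY : Real.sqrt Y ≤ x ^ (1 / 2 - 4 * κ) := by
    have h1 : Real.sqrt Y ≤ Real.sqrt (x ^ (1 - δ)) := Real.sqrt_le_sqrt hY
    rw [Real.sqrt_eq_rpow (x ^ (1 - δ)), ← Real.rpow_mul hx0.le] at h1
    exact h1.trans (mono (by linarith))
  have hQ4 : (Q : ℝ) ≤ x ^ (1 / 2 - 4 * κ) := hQle.trans (mono (by linarith))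
  have hdiv : Real.sqrt (U * Y) / F0 ≤ x ^ (1 / 2 - 4 * κ) := by
    rw [div_le_iff₀ (by linarith)]
    have h1 : x ^ (1 / 2 : ℝ) = x ^ (1 / 2 - 4 * κ) * x ^ (4 * κ) := by
      rw [← Real.rpow_add hx0]; congr 1; ring
    calc Real.sqrt (U * Y) ≤ x ^ (1 / 2 - 4 * κ) * x ^ (4 * κ) := by rw [← h1]; exact hsUY
      _ ≤ _ := by gcongr
  have hS0 := SS_nonneg Q
  have t1 : SS Q * (12 * (1 + Real.log Q) *
        (Real.sqrt (U * Y) / F0 + (Real.sqrt U + Real.sqrt Y) + Q) * (Real.sqrt U * Real.sqrt Y)) ≤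
      48 * C1 * C2 * x ^ (1 - 2 * κ) := by
    have h1 : Real.sqrt (U * Y) / F0 + (Real.sqrt U + Real.sqrt Y) + Q ≤ 4 * x ^ (1 / 2 - 4 * κ) := by
      linarith
    rw [hsmul]
    calc _ ≤ (C1 * x ^ κ) * (12 * (C2 * x ^ κ) * (4 * x ^ (1 / 2 - 4 * κ)) * x ^ (1 / 2 : ℝ)) := by
          gcongr
      _ = 48 * C1 * C2 * (x ^ κ * x ^ κ * x ^ (1 / 2 - 4 * κ) * x ^ (1 / 2 : ℝ)) := by ring
      _ = 48 * C1 * C2 * x ^ (1 - 2 * κ) := by
          rw [← Real.rpow_add hx0, ← Real.rpow_add hx0, ← Real.rpow_add hx0]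
          congr 2; ring
  have hUκ : (U : ℝ) ≤ x ^ (1 - 16 * κ) := hU.trans (mono (by linarith))
  have t2 : SS Q * (U * (F0 * (Real.sqrt F0 * (1 + Real.log F0)))) ≤ 8 * C1 * x ^ (1 - 2 * κ) := by
    have h1 : Real.sqrt F0 ≤ F0 := by
      rw [Real.sqrt_le_left (by linarith)]
      nlinarith
    have h2 : 1 + Real.log F0 ≤ F0 := by
      have := Real.log_le_sub_one_of_pos (by linarith : (0:ℝ) < F0)
      linarith
    have h3 : 0 ≤ Real.log F0 := Real.log_natCast_nonneg F0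
    calc _ ≤ (C1 * x ^ κ) * (x ^ (1 - 16 * κ) * (F0 * (F0 * F0))) := by gcongr
      _ ≤ (C1 * x ^ κ) * (x ^ (1 - 16 * κ) * ((2 * x ^ (4 * κ)) * ((2 * x ^ (4 * κ)) *
          (2 * x ^ (4 * κ))))) := by gcongr
      _ = 8 * C1 * (x ^ κ * x ^ (1 - 16 * κ) * x ^ (4 * κ) * x ^ (4 * κ) * x ^ (4 * κ)) := by ring
      _ = 8 * C1 * x ^ (1 - 3 * κ) := by
          rw [← Real.rpow_add hx0, ← Real.rpow_add hx0, ← Real.rpow_add hx0, ← Real.rpow_add hx0]
          congr 2; ring
      _ ≤ _ := by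
          gcongr ?_ * ?_
          exact mono (by linarith)
  have t3 : U * SS Q ≤ C1 * x ^ (1 - 2 * κ) := by
    calc U * SS Q ≤ x ^ (1 - 16 * κ) * (C1 * x ^ κ) := by gcongr
      _ = C1 * (x ^ (1 - 16 * κ) * x ^ κ) := by ring
      _ = C1 * x ^ (1 - 15 * κ) := by
          rw [← Real.rpow_add hx0]
          congr 2; ring
      _ ≤ _ := by
          gcongr ?_ * ?_
          exact mono (by linarith)
  calc _ ≤ 48 * C1 * C2 * x ^ (1 - 2 * κ) + 8 * C1 * x ^ (1 - 2 * κ) + C1 * x ^ (1 - 2 * κ) :=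
        add_le_add (add_le_add t1 t2) t3
    _ = _ := by ring

end Pool.Agent.H109R2.ADD
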