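import Mathlib

set_option autoImplicit false

/-!
Elementary Witt theory of diagonal quadratic forms, through Lagrangians.
-/

namespace Pool.Agent.H109R2.Witt

open Module

variable {K : Type*} [Field K]

/-- The diagonal form with weights `w` has a totally isotropic subspace of at least half the
dimension. -/
def Met {ι : Type*} [Fintype ι] (w : ι → K) : Prop :=
  ∃ L : Submodule K (ι → K), Fintype.card ι ≤ 2 * finrank K L ∧
    ∀ u ∈ L, ∀ v ∈ L, ∑ i, w i * u i * v i = 0

theorem Met.of_equiv {ι κ : Type*} [Fintype ι] [Fintype κ] {w : ι → K} {w' : κ → K}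
    (σ : ι ≃ κ) (h : ∀ i, w i = w' (σ i)) (hw : Met w) : Met w' := by
  obtain ⟨L, hL, hL2⟩ := hw
  let e : (ι → K) ≃ₗ[K] (κ → K) := LinearEquiv.funCongrLeft K K σ.symm
  refine ⟨L.map (e : (ι → K) →ₗ[K] (κ → K)), ?_, ?_⟩
  · rw [← Fintype.card_congr σ]
    have : finrank K (L.map (e : (ι → K) →ₗ[K] (κ → K))) = finrank K L :=
      LinearEquiv.finrank_map_eq e L
    rw [this]
    exact hL
  · rintro _ ⟨u, hu, rfl⟩ _ ⟨v, hv, rfl⟩
    rw [← hL2 u hu v hv]
    rw [← Equiv.sum_comp σ]
    refine Finset.sum_congr rfl fun i _ => ?_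
    simp [e, LinearEquiv.funCongrLeft, LinearMap.funLeft, h]

/-- a product of submodules is linearly equivalent to the product of the modules. -/
def prodEq {V W : Type*} [AddCommGroup V] [AddCommGroup W] [Module K V] [Module K W]
    (L : Submodule K V) (M : Submodule K W) : ↥(L.prod M) ≃ₗ[K] L × M where
  toFun z := (⟨z.1.1, z.2.1⟩, ⟨z.1.2, z.2.2⟩)
  invFun z := ⟨(z.1.1, z.2.1), z.1.2, z.2.2⟩
  left_inv _ := rfl
  right_inv _ := rfl
  map_add' _ _ := rfl
  map_smul' _ _ := rfl

theorem finrank_prod' {V W : Type*} [AddCommGroup V] [AddCommGroup W] [Module K V] [Module K W]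
    [FiniteDimensional K V] [FiniteDimensional K W]
    (L : Submodule K V) (M : Submodule K W) :
    finrank K (L.prod M) = finrank K L + finrank K M := by
  rw [← finrank_prod]
  exact LinearEquiv.finrank_eq (prodEq L M)

theorem Met.sum {ι κ : Type*} [Fintype ι] [Fintype κ] {w : ι → K} {u : κ → K}
    (hw : Met w) (hu : Met u) : Met (Sum.elim w u) := by
  obtain ⟨L, hL, hL2⟩ := hw
  obtain ⟨M, hM, hM2⟩ := hu
  let e : ((ι ⊕ κ) → K) ≃ₗ[K] (ι → K) × (κ → K) := LinearEquiv.sumArrowLequivProdArrow ι κ K K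
  refine ⟨(L.prod M).map (e.symm : ((ι → K) × (κ → K)) →ₗ[K] ((ι ⊕ κ) → K)), ?_, ?_⟩
  · have h1 : finrank K ((L.prod M).map (e.symm : ((ι → K) × (κ → K)) →ₗ[K] ((ι ⊕ κ) → K)))
        = finrank K (L.prod M) := LinearEquiv.finrank_map_eq e.symm _
    rw [h1, finrank_prod', Fintype.card_sum]
    omega
  · rintro _ ⟨⟨u1, u2⟩, ⟨hu1, hu2⟩, rfl⟩ _ ⟨⟨v1, v2⟩, ⟨hv1, hv2⟩, rfl⟩
    rw [Fintype.sum_sum_type]
    have a1 := hL2 u1 hu1 v1 hv1
    have a2 := hM2 u2 hu2 v2 hv2
    simp only [LinearEquiv.coe_coe, Sum.elim_inl, Sum.elim_inr]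
    simp only [e, LinearEquiv.sumArrowLequivProdArrow_symm_apply_inl,
      LinearEquiv.sumArrowLequivProdArrow_symm_apply_inr]
    rw [a1, a2, add_zero]

/-- Witt cancellation of a form with a Lagrangian. -/
theorem Met.cancel {ι κ : Type*} [Fintype ι] [Fintype κ] {w : ι → K} {u : κ → K}
    (hw0 : ∀ i, w i ≠ 0) (hu0 : ∀ i, u i ≠ 0)
    (h : Met (Sum.elim w u)) (hu : Met u) : Met w := by
  classical
  obtain ⟨L, hL, hL2⟩ := h
  obtain ⟨R, hR, hR2⟩ := hu
  let e : ((ι ⊕ κ) → K) ≃ₗ[K] (ι → K) × (κ → K) := LinearEquiv.sumArrowLequivProdArrow ι κ K K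
  let S : Submodule K ((ι ⊕ κ) → K) :=
    ((⊤ : Submodule K (ι → K)).prod R).map (e.symm : ((ι → K) × (κ → K)) →ₗ[K] ((ι ⊕ κ) → K))
  have hS : finrank K S = Fintype.card ι + finrank K R := by
    have h1 : finrank K S = finrank K ((⊤ : Submodule K (ι → K)).prod R) :=
      LinearEquiv.finrank_map_eq e.symm _
    rw [h1, finrank_prod', finrank_top, Module.finrank_fintype_fun_eq_card]
  let f : ((ι ⊕ κ) → K) →ₗ[K] (ι → K) := LinearMap.funLeft K K Sum.inl
  let g : ((ι ⊕ κ) → K) →ₗ[K] (κ → K) := LinearMap.funLeft K K Sum.inr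
  have hSmem : ∀ z, z ∈ S ↔ g z ∈ R := by
    intro z
    constructor
    · rintro ⟨⟨a, b⟩, ⟨_, hb⟩, rfl⟩
      exact hb
    · intro hz
      exact ⟨(f z, g z), ⟨trivial, hz⟩, by ext i; rcases i with i | i <;> rfl⟩
  let B : LinearMap.BilinForm K ((ι ⊕ κ) → K) :=
    Matrix.toBilin' (Matrix.diagonal (Sum.elim w u))
  have hBapp : ∀ a b, B a b = ∑ i, w i * a (Sum.inl i) * b (Sum.inl i)
      + ∑ i, u i * a (Sum.inr i) * b (Sum.inr i) := by
    intro a b
    simp only [B, Matrix.toBilin'_apply]
    simp only [Matrix.diagonal_apply, mul_ite, mul_zero, ite_mul, zero_mul,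
      Finset.sum_ite_eq, Finset.mem_univ, if_true]
    rw [Fintype.sum_sum_type]
    simp only [Sum.elim_inl, Sum.elim_inr]
    congr 1 <;> refine Finset.sum_congr rfl fun i _ => ?_ <;> ring
  have hBnd : B.Nondegenerate := by
    apply LinearMap.BilinForm.nondegenerate_toBilin'_of_det_ne_zero'
    rw [Matrix.det_diagonal]
    rw [Finset.prod_ne_zero_iff]
    rintro (i | i) _
    · exact hw0 i
    · exact hu0 i
  let f' := f.domRestrict (L ⊓ S)
  have hrn := LinearMap.finrank_range_add_finrank_ker f'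
  have hsup := Submodule.finrank_sup_add_finrank_inf_eq L S
  -- the kernel is orthogonal to `L ⊔ S`
  have hker : finrank K (LinearMap.ker f') ≤ finrank K (B.orthogonal (L ⊔ S)) := by
    have h1 : (LinearMap.ker f').map (Submodule.subtype (L ⊓ S)) ≤ B.orthogonal (L ⊔ S) := by
      rintro _ ⟨⟨z, hzL, hzS⟩, hz, rfl⟩
      have hz0 : ∀ i, z (Sum.inl i) = 0 := fun i => congrFun (LinearMap.mem_ker.mp hz) i
      rw [LinearMap.BilinForm.mem_orthogonal_iff]
      intro y hy
      obtain ⟨a, ha, b, hb, rfl⟩ := Submodule.mem_sup.mp hy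
      change B (a + b) z = 0
      rw [map_add, LinearMap.add_apply]
      have h2 : B a z = 0 := by
        have := hL2 a ha z hzL
        rw [Fintype.sum_sum_type] at this
        rw [hBapp]
        exact this
      have h3 : B b z = 0 := by
        rw [hBapp]
        have h4 : ∑ i, w i * b (Sum.inl i) * z (Sum.inl i) = 0 := by
          simp [hz0]
        have h5 : ∑ i, u i * b (Sum.inr i) * z (Sum.inr i) = 0 :=
          hR2 (g b) ((hSmem b).mp hb) (g z) ((hSmem z).mp hzS)
        rw [h4, h5, add_zero]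
      rw [h2, h3, add_zero]
    calc finrank K (LinearMap.ker f')
        = finrank K ((LinearMap.ker f').map (Submodule.subtype (L ⊓ S))) :=
          (Submodule.finrank_map_subtype_eq _ _).symm
      _ ≤ _ := Submodule.finrank_mono h1
  rw [LinearMap.BilinForm.finrank_orthogonal hBnd] at hker
  rw [Module.finrank_fintype_fun_eq_card, Fintype.card_sum] at hker
  have hle : finrank K ↥(L ⊔ S) ≤ Fintype.card ι + Fintype.card κ := by
    have := Submodule.finrank_le (L ⊔ S)
    rwa [Module.finrank_fintype_fun_eq_card, Fintype.card_sum] at this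
  rw [Fintype.card_sum] at hL
  refine ⟨LinearMap.range f', by omega, ?_⟩
  rintro _ ⟨⟨a, haL, haS⟩, rfl⟩ _ ⟨⟨b, hbL, hbS⟩, rfl⟩
  have h1 := hL2 a haL b hbL
  have h2 := hR2 (g a) ((hSmem a).mp haS) (g b) ((hSmem b).mp hbS)
  rw [Fintype.sum_sum_type] at h1
  simp only [Sum.elim_inl, Sum.elim_inr] at h1
  have h3 : ∑ i, u i * a (Sum.inr i) * b (Sum.inr i) = 0 := h2
  rw [h3, add_zero] at h1
  exact h1

section multiset

open Classical in
/-- Metabolicity of the diagonal form whose multiset of weights is `s`. -/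
def MM (s : Multiset K) : Prop := Met (fun i : s.ToType => i.1)

open Classical in
theorem exists_equiv_toType {ι : Type*} [Fintype ι] (w : ι → K) :
    ∃ σ : ι ≃ (Finset.univ.val.map w).ToType, ∀ i, w i = (σ i).1 := by
  have h : ∀ x, Fintype.card {i // w i = x} = (Finset.univ.val.map w).count x := by
    intro x
    rw [Multiset.count_map, Fintype.card_subtype]
    change _ = Multiset.card (Multiset.filter (fun a => x = w a) Finset.univ.val)
    rw [← Finset.filter_val]
    change _ = Finset.card _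
    congr 1
    ext i
    simp [eq_comm]
  refine ⟨(Equiv.sigmaFiberEquiv w).symm.trans
    (Equiv.sigmaCongrRight fun x => Fintype.equivFinOfCardEq (h x)), ?_⟩
  intro i
  rfl

theorem MM_of_Met {ι : Type*} [Fintype ι] {w : ι → K} (h : Met w) :
    MM (Finset.univ.val.map w) := by
  classical
  obtain ⟨σ, hσ⟩ := exists_equiv_toType w
  have := h.of_equiv σ (w' := fun i => i.1) hσ
  unfold MM
  convert this

theorem Met_of_MM {ι : Type*} [Fintype ι] {w : ι → K} (h : MM (Finset.univ.val.map w)) :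
    Met w := by
  classical
  obtain ⟨σ, hσ⟩ := exists_equiv_toType w
  unfold MM at h
  refine Met.of_equiv σ.symm (w := fun i => i.1) ?_ (by convert h)
  intro i
  rw [hσ, Equiv.apply_symm_apply]

theorem map_sumElim {ι κ : Type*} [Fintype ι] [Fintype κ] (w : ι → K) (u : κ → K) :
    Finset.univ.val.map (Sum.elim w u)
      = Finset.univ.val.map w + Finset.univ.val.map u := by
  classical
  have : (Finset.univ : Finset (ι ⊕ κ)).val
      = (Finset.univ : Finset ι).val.map Sum.inl + (Finset.univ : Finset κ).val.map Sum.inr := by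
    rfl
  rw [this, Multiset.map_add, Multiset.map_map, Multiset.map_map]
  rfl

theorem exists_family (s : Multiset K) : ∃ (n : ℕ) (w : Fin n → K), Finset.univ.val.map w = s := by
  induction s using Quotient.inductionOn with
  | h l =>
    refine ⟨l.length, fun i => l.get i, ?_⟩
    rw [Fin.univ_val_map]
    simp

theorem MM.add {s t : Multiset K} (hs : MM s) (ht : MM t) : MM (s + t) := by
  obtain ⟨n, w, rfl⟩ := exists_family s
  obtain ⟨m, u, rfl⟩ := exists_family t
  rw [← map_sumElim]
  exact MM_of_Met ((Met_of_MM hs).sum (Met_of_MM ht))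

theorem MM.cancel {s t : Multiset K} (hs0 : (0 : K) ∉ s) (ht0 : (0 : K) ∉ t)
    (h : MM (s + t)) (ht : MM t) : MM s := by
  obtain ⟨n, w, rfl⟩ := exists_family s
  obtain ⟨m, u, rfl⟩ := exists_family t
  rw [← map_sumElim] at h
  refine MM_of_Met ((Met_of_MM h).cancel ?_ ?_ (Met_of_MM ht))
  · intro i hi
    exact hs0 (Multiset.mem_map.mpr ⟨i, Finset.mem_univ_val _, hi⟩)
  · intro i hi
    exact ht0 (Multiset.mem_map.mpr ⟨i, Finset.mem_univ_val _, hi⟩)

theorem zero_notMem_map_neg {t : Multiset K} (h : (0 : K) ∉ t) :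
    (0 : K) ∉ t.map (fun a => -a) := by
  intro h1
  obtain ⟨a, ha, ha0⟩ := Multiset.mem_map.mp h1
  rw [neg_eq_zero] at ha0
  exact h (ha0 ▸ ha)

/-- The graph of an isometric embedding of forms of the same dimension. -/
theorem Met_graph {ι κ : Type*} [Fintype ι] [Fintype κ] {w : ι → K} {u : κ → K}
    (hc : Fintype.card ι ≤ Fintype.card κ) (f : (κ → K) →ₗ[K] (ι → K))
    (hf : ∀ y z, ∑ i, w i * f y i * f z i = ∑ j, u j * y j * z j) :
    Met (Sum.elim w (fun j => -u j)) := by
  let F : (κ → K) →ₗ[K] ((ι ⊕ κ) → K) :=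
    { toFun := fun y => Sum.elim (f y) y
      map_add' := by
        intro y z
        ext i
        rcases i with i | i <;> simp
      map_smul' := by
        intro c y
        ext i
        rcases i with i | i <;> simp }
  have hF : Function.Injective F := by
    intro y z h
    ext j
    exact congrFun h (Sum.inr j)
  refine ⟨LinearMap.range F, ?_, ?_⟩
  · rw [LinearMap.finrank_range_of_inj hF, Module.finrank_fintype_fun_eq_card, Fintype.card_sum]
    omega
  · rintro _ ⟨y, rfl⟩ _ ⟨z, rfl⟩
    rw [Fintype.sum_sum_type]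
    simp only [F, LinearMap.coe_mk, AddHom.coe_mk, Sum.elim_inl, Sum.elim_inr]
    rw [hf]
    simp

theorem MM_graph {ι κ : Type*} [Fintype ι] [Fintype κ] {w : ι → K} {u : κ → K}
    (hc : Fintype.card ι ≤ Fintype.card κ) (f : (κ → K) →ₗ[K] (ι → K))
    (hf : ∀ y z, ∑ i, w i * f y i * f z i = ∑ j, u j * y j * z j) :
    MM (Finset.univ.val.map w + (Finset.univ.val.map u).map (fun a => -a)) := by
  have h := MM_of_Met (Met_graph hc f hf)
  rw [map_sumElim] at h
  rwa [Multiset.map_map]

theorem MM_self_neg (t : Multiset K) : MM (t + t.map (fun a => -a)) := by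
  obtain ⟨n, w, rfl⟩ := exists_family t
  exact MM_graph le_rfl LinearMap.id (fun y z => rfl)

/-- Substitution of a Witt equivalent summand. -/
theorem MM.subst {s t t' : Multiset K} (hs0 : (0 : K) ∉ s) (ht0 : (0 : K) ∉ t)
    (ht'0 : (0 : K) ∉ t') (h : MM (s + t)) (h' : MM (t' + t.map (fun a => -a))) :
    MM (s + t') := by
  have h1 := h.add h'
  have h2 : s + t + (t' + t.map (fun a => -a)) = (s + t') + (t + t.map (fun a => -a)) := by
    abel
  rw [h2] at h1
  refine h1.cancel ?_ ?_ (MM_self_neg t)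
  · simp [hs0, ht'0]
  · simp only [Multiset.mem_add, not_or]
    exact ⟨ht0, zero_notMem_map_neg ht0⟩

theorem MM_scale (a b : K) : MM ({a} + {-(a * b ^ 2)} : Multiset K) := by
  have h := MM_graph (K := K) (ι := Unit) (κ := Unit) (w := fun _ => a) (u := fun _ => a * b ^ 2)
    le_rfl (b • LinearMap.id) (fun y z => by simp; ring)
  simpa using h

/-- `<a, b> ≅ <a + b, a b (a + b)>`. -/
theorem MM_pair (a b : K) :
    MM ({a, b} + {-(a + b), -(a * b * (a + b))} : Multiset K) := by
  have h := MM_graph (K := K) (ι := Fin 2) (κ := Fin 2) (w := ![a, b])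
    (u := ![a + b, a * b * (a + b)]) le_rfl
    (Matrix.toLin' !![1, b; 1, -a]) (fun y z => by
      simp [Fin.sum_univ_two, Matrix.mulVec, dotProduct, Matrix.toLin'_apply]
      ring)
  have e1 : Finset.univ.val.map ![a, b] = ({a, b} : Multiset K) := by
    rw [Fin.univ_val_map]; rfl
  have e2 : Finset.univ.val.map ![a + b, a * b * (a + b)] = ({a + b, a * b * (a + b)} : Multiset K) := by
    rw [Fin.univ_val_map]; rfl
  rw [e1, e2] at h
  simpa using h

/-- similarity factors. -/
theorem MM_sim {n : ℕ} (a c : K) (T : Matrix (Fin n) (Fin n) K) (hT : T * T.transpose = c • 1) :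
    MM (Multiset.replicate n a + Multiset.replicate n (-(a * c))) := by
  have h := MM_graph (K := K) (ι := Fin n) (κ := Fin n) (w := fun _ => a)
    (u := fun _ => a * c) le_rfl (Matrix.toLin' T.transpose) (fun y z => by
      have h1 : ∑ i, (Matrix.toLin' T.transpose y) i * (Matrix.toLin' T.transpose z) i
          = c * ∑ j, y j * z j := by
        have : (Matrix.mulVec T.transpose y) ⬝ᵥ (Matrix.mulVec T.transpose z)
            = c * (y ⬝ᵥ z) := by
          rw [Matrix.mulVec_transpose, ← Matrix.dotProduct_mulVec, Matrix.mulVec_mulVec, hT,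
            Matrix.smul_mulVec, Matrix.one_mulVec, dotProduct_smul, smul_eq_mul]
        simpa [dotProduct] using this
      simp only [mul_assoc, ← Finset.mul_sum]
      rw [h1])
  have e1 : ∀ b : K, Finset.univ.val.map (fun _ : Fin n => b) = Multiset.replicate n b := by
    intro b
    rw [Multiset.map_const']
    simp
  rw [e1, e1, Multiset.map_replicate] at h
  exact h

end multiset

end Pool.Agent.H109R2.Witt
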