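import Mathlib
import Pool.Agent.H109R2.SICBase

set_option autoImplicit false

namespace Pool.Agent.H109R2.SIC

open Matrix Module
open scoped ComplexOrder

theorem trace_idem {n : Type*} [Fintype n] [DecidableEq n] (Q : Matrix n n ℂ) (h : Q * Q = Q) :
    trace Q = (finrank ℂ (LinearMap.range (Matrix.toLin' Q)) : ℂ) := by
  have h1 : IsIdempotentElem (Matrix.toLin' Q) := by
    change Matrix.toLin' Q * Matrix.toLin' Q = Matrix.toLin' Q
    rw [Module.End.mul_eq_comp, ← Matrix.toLin'_mul, h]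
  have h2 := (LinearMap.IsIdempotentElem.isProj_range _ h1).trace
  rw [← h2, Matrix.trace_toLin'_eq]

/-- the trace of an involution is an integer. -/
theorem trace_invol {d : ℕ} (W : Matrix (Fin d) (Fin d) ℂ) (h : W * W = 1) :
    ∃ k : ℤ, trace W = k := by
  have h1 : ((1 / 2 : ℂ) • (1 + W)) * ((1 / 2 : ℂ) • (1 + W)) = (1 / 2 : ℂ) • (1 + W) := by
    rw [smul_mul_smul_comm, mul_add, add_mul, add_mul, h]
    simp only [mul_one, one_mul]
    rw [show (1 : Matrix (Fin d) (Fin d) ℂ) + W + (W + 1) = (2 : ℂ) • (1 + W) by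
      rw [two_smul]; abel, smul_smul]
    norm_num
  have h2 := trace_idem _ h1
  rw [trace_smul, trace_add, trace_one, Fintype.card_fin, smul_eq_mul] at h2
  refine ⟨2 * (finrank ℂ (LinearMap.range (Matrix.toLin' ((1 / 2 : ℂ) • (1 + W)))) : ℤ) - d, ?_⟩
  push_cast
  linear_combination 2 * h2

variable {d : ℕ} {x : Fin (d ^ 2) → EuclideanSpace ℂ (Fin d)}

theorem trace_P_mul_mulVec (i : Fin (d ^ 2)) (B : Matrix (Fin d) (Fin d) ℂ) :
    trace (P x i * B) = star (x i).ofLp ⬝ᵥ (B *ᵥ (x i).ofLp) := by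
  rw [trace_P_mul]
  simp only [dotProduct, mulVec, Finset.mul_sum, Pi.star_apply]
  refine Finset.sum_congr rfl fun a _ => Finset.sum_congr rfl fun b _ => ?_
  ring

theorem dot_self (hx : IsMaxETF d x) (i : Fin (d ^ 2)) :
    star (x i).ofLp ⬝ᵥ (x i).ofLp = 1 := by
  have h2 : inner ℂ (x i) (x i) = (1 : ℂ) := by
    rw [inner_self_eq_norm_sq_to_K, hx.1]; simp
  rw [← h2, inner_eq]
  rfl

theorem dot_eq_inner (i j : Fin (d ^ 2)) :
    star (x i).ofLp ⬝ᵥ (x j).ofLp = inner ℂ (x i) (x j) := by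
  rw [inner_eq]
  rfl

/-- values `⟨x_i, W x_i⟩` for a Hermitian involution `W` permuting the lines. -/
theorem values (hx : IsMaxETF d x) (W : Matrix (Fin d) (Fin d) ℂ) (hW2 : W * W = 1)
    (hWh : Wᴴ = W) (i j : Fin (d ^ 2)) (c : ℂ) (hc : W *ᵥ (x i).ofLp = c • (x j).ofLp) :
    (∃ ε : ℤ, (ε = 1 ∨ ε = -1) ∧ trace (P x i * W)
      = if i = j then (ε : ℂ) else (ε : ℂ) / (Real.sqrt ((d : ℝ) + 1) : ℝ)) := by
  have h1 : trace (P x i * W) = c * inner ℂ (x i) (x j) := by
    rw [trace_P_mul_mulVec, hc, dotProduct_smul, smul_eq_mul, dot_eq_inner]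
  -- `|c| = 1`
  have hcc : star c * c = 1 := by
    have h2 : star (W *ᵥ (x i).ofLp) ⬝ᵥ (W *ᵥ (x i).ofLp) = 1 := by
      rw [star_mulVec, hWh, ← Matrix.dotProduct_mulVec, Matrix.mulVec_mulVec, hW2,
        Matrix.one_mulVec, dot_self hx]
    rw [hc, star_smul, smul_dotProduct, dotProduct_smul, dot_self hx, smul_eq_mul, smul_eq_mul,
      mul_one] at h2
    exact h2
  -- realness
  have hreal : star (trace (P x i * W)) = trace (P x i * W) := by
    rw [← trace_conjTranspose, conjTranspose_mul, P_herm, hWh, trace_mul_comm]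
  have hnorm : trace (P x i * W) * trace (P x i * W)
      = if i = j then 1 else 1 / ((d : ℂ) + 1) := by
    have h3 : trace (P x i * W) * trace (P x i * W)
        = star (trace (P x i * W)) * trace (P x i * W) := by rw [hreal]
    rw [h3, h1, star_mul, ← inner_mul_inner hx i j]
    have h4 : star (inner ℂ (x i) (x j)) = inner ℂ (x j) (x i) := inner_conj_symm _ _
    rw [h4]
    linear_combination (inner ℂ (x j) (x i) * inner ℂ (x i) (x j)) * hcc
  split_ifs at hnorm ⊢ with hij
  · rcases mul_self_eq_one_iff.mp hnorm with h | h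
    · exact ⟨1, Or.inl rfl, by rw [h]; simp⟩
    · exact ⟨-1, Or.inr rfl, by rw [h]; simp⟩
  · have hs : ((Real.sqrt ((d : ℝ) + 1) : ℝ) : ℂ) * (Real.sqrt ((d : ℝ) + 1) : ℝ)
        = (d : ℂ) + 1 := by
      rw [← Complex.ofReal_mul, Real.mul_self_sqrt (by positivity)]
      push_cast; rfl
    have hs0 : ((Real.sqrt ((d : ℝ) + 1) : ℝ) : ℂ) ≠ 0 := by
      intro h0
      rw [h0, zero_mul] at hs
      exact d1_ne hs.symm
    set s : ℂ := ((Real.sqrt ((d : ℝ) + 1) : ℝ) : ℂ) with hsdef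
    have h5 : (trace (P x i * W) * s) * (trace (P x i * W) * s) = 1 := by
      calc (trace (P x i * W) * s) * (trace (P x i * W) * s)
          = (trace (P x i * W) * trace (P x i * W)) * (s * s) := by ring
        _ = 1 := by rw [hnorm, hs]; have := d1_ne (d := d); field_simp
    rcases mul_self_eq_one_iff.mp h5 with h | h
    · exact ⟨1, Or.inl rfl, by rw [eq_div_iff hs0, h]; simp⟩
    · exact ⟨-1, Or.inr rfl, by rw [eq_div_iff hs0, h]; simp⟩

theorem sqrt_irr (hsq : ¬ IsSquare (d + 1)) : Irrational (Real.sqrt ((d : ℝ) + 1)) := by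
  have h := (irrational_sqrt_natCast_iff (n := d + 1)).mpr hsq
  push_cast at h
  exact h

/-- If `d + 1` is not a perfect square, every non-scalar Hermitian involution permuting the lines
of a maximal equiangular tight frame has trace zero and fixes no line. -/
theorem invol_trace_zero (hd : 1 ≤ d) (hsq : ¬ IsSquare (d + 1)) (hx : IsMaxETF d x)
    (W : Matrix (Fin d) (Fin d) ℂ) (hW2 : W * W = 1) (hWh : Wᴴ = W)
    (hperm : ∀ i, ∃ j, ∃ c : ℂ, W *ᵥ (x i).ofLp = c • (x j).ofLp)
    (hns : ∀ c : ℂ, W ≠ c • 1) :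
    trace W = 0 ∧ ∀ i j, ∀ c : ℂ, W *ᵥ (x i).ofLp = c • (x j).ofLp → i ≠ j := by
  classical
  obtain ⟨k, hk⟩ := trace_invol W hW2
  choose jf cf hjc using hperm
  have hval := fun i => values hx W hW2 hWh i (jf i) (cf i) (hjc i)
  choose ε hε hτ using hval
  set s : ℝ := Real.sqrt ((d : ℝ) + 1) with hs
  have hirr : Irrational s := sqrt_irr hsq
  have hs2 : (s : ℂ) * s = (d : ℂ) + 1 := by
    rw [← Complex.ofReal_mul, hs, Real.mul_self_sqrt (by positivity)]
    push_cast; rfl
  have hs0 : (s : ℂ) ≠ 0 := by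
    intro h0
    rw [h0, zero_mul] at hs2
    exact d1_ne hs2.symm
  let F : Finset (Fin (d ^ 2)) := Finset.univ.filter fun i => i = jf i
  let G : Finset (Fin (d ^ 2)) := Finset.univ.filter fun i => ¬ i = jf i
  have hFG : F.card + G.card = d ^ 2 := by
    have := Finset.card_filter_add_card_filter_not (s := (Finset.univ : Finset (Fin (d ^ 2))))
      (fun i => i = jf i)
    simpa [F, G] using this
  -- first sum
  have S1 : ((∑ i ∈ F, ε i : ℤ) : ℂ) + ((∑ i ∈ G, ε i : ℤ) : ℂ) / s = (d : ℂ) * k := by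
    have h1 : ∑ i, trace (P x i * W) = (d : ℂ) * k := by
      rw [← trace_sum, ← Finset.sum_mul, sum_P hx, smul_mul_assoc, Matrix.one_mul, trace_smul, hk,
        smul_eq_mul]
    rw [← h1]
    simp only [hτ]
    rw [Finset.sum_ite]
    push_cast
    rw [Finset.sum_div]
  -- second sum
  have S2 : (F.card : ℂ) + (G.card : ℂ) / ((d : ℂ) + 1)
      = ((d : ℂ) / ((d : ℂ) + 1)) * (d + (k : ℂ) * k) := by
    have h1 := design2 hx W W
    rw [hW2, trace_one, Fintype.card_fin, hk] at h1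
    rw [← h1]
    have h2 : ∀ i, trace (P x i * W) * trace (P x i * W)
        = if i = jf i then (1 : ℂ) else 1 / ((d : ℂ) + 1) := by
      intro i
      rw [hτ]
      have hεε : (ε i : ℂ) * ε i = 1 := by
        rcases hε i with h | h <;> rw [h] <;> simp
      split_ifs
      · exact hεε
      · rw [div_mul_div_comm, hεε, hs2]
    simp only [h2]
    rw [Finset.sum_ite]
    simp only [Finset.sum_const, nsmul_eq_mul, mul_one]
    ring
  have hfk : (F.card : ℤ) = k * k := by
    have hG : (G.card : ℂ) = (d : ℂ) ^ 2 - F.card := by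
      have : ((F.card + G.card : ℕ) : ℂ) = ((d ^ 2 : ℕ) : ℂ) := by rw [hFG]
      push_cast at this
      linear_combination this
    rw [hG] at S2
    have hd1 := d1_ne (d := d)
    have hd0 : (d : ℂ) ≠ 0 := by exact_mod_cast (by omega : d ≠ 0)
    field_simp at S2
    have h3 : (d : ℂ) * (F.card : ℂ) = d * ((k : ℂ) * k) := by linear_combination S2
    have h4 := mul_left_cancel₀ hd0 h3
    exact_mod_cast h4
  have hak : (∑ i ∈ F, ε i : ℤ) = d * k := by
    by_contra hne
    have h1 : ((((d : ℤ) * k - ∑ i ∈ F, ε i : ℤ) : ℝ) : ℂ) * s = (((∑ i ∈ G, ε i : ℤ) : ℝ) : ℂ) := by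
      have := S1
      field_simp at this
      push_cast at this ⊢
      linear_combination -this
    have h2 : (((d : ℤ) * k - ∑ i ∈ F, ε i : ℤ) : ℝ) * s = ((∑ i ∈ G, ε i : ℤ) : ℝ) := by
      exact_mod_cast h1
    have h3 : (((d : ℤ) * k - ∑ i ∈ F, ε i : ℤ) : ℝ) ≠ 0 := by
      intro h0
      apply hne
      have : ((d : ℤ) * k - ∑ i ∈ F, ε i : ℤ) = 0 := by exact_mod_cast h0
      linarith
    apply hirr
    refine ⟨((∑ i ∈ G, ε i : ℤ) : ℚ) / (((d : ℤ) * k - ∑ i ∈ F, ε i : ℤ) : ℚ), ?_⟩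
    push_cast
    rw [div_eq_iff (by exact_mod_cast h3)]
    push_cast at h2
    linarith
  have habs : |(∑ i ∈ F, ε i : ℤ)| ≤ F.card := by
    refine (Finset.abs_sum_le_sum_abs _ _).trans ?_
    have : ∀ i ∈ F, |ε i| ≤ 1 := by
      intro i _
      rcases hε i with h | h <;> rw [h] <;> simp
    refine (Finset.sum_le_sum this).trans ?_
    simp
  have hk0 : k = 0 := by
    by_contra hk0
    rw [hak, hfk] at habs
    have hkpos : 0 < |k| := abs_pos.mpr hk0
    have h1 : (d : ℤ) ≤ |k| := by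
      rw [abs_mul, ← abs_mul_abs_self k, Nat.abs_cast] at habs
      exact le_of_mul_le_mul_right habs hkpos
    have h2 : (F.card : ℤ) ≤ (d : ℤ) ^ 2 := by
      have : F.card ≤ d ^ 2 := by omega
      exact_mod_cast this
    rw [hfk] at h2
    have h3 : |k| ≤ d := by
      have : |k| * |k| ≤ d * d := by rw [abs_mul_abs_self]; linarith
      nlinarith
    have h4 : |k| = d := le_antisymm h3 h1
    have h5 : (k : ℂ) * k = (d : ℂ) * d := by
      have : k * k = (d : ℤ) * d := by rw [← abs_mul_abs_self, h4]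
      exact_mod_cast this
    have hd0 : (d : ℂ) ≠ 0 := by exact_mod_cast (by omega : d ≠ 0)
    apply hns ((k : ℂ) / d)
    rw [← sub_eq_zero, ← Matrix.trace_conjTranspose_mul_self_eq_zero_iff]
    have hstar : star ((k : ℂ) / d) = (k : ℂ) / d := by
      simp
    rw [conjTranspose_sub, hWh, conjTranspose_smul, conjTranspose_one, hstar, sub_mul, mul_sub,
      mul_sub, hW2]
    simp only [smul_mul_assoc, mul_smul_comm, Matrix.one_mul, Matrix.mul_one, trace_sub,
      trace_smul, trace_one, Fintype.card_fin, smul_eq_mul, hk]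
    field_simp
    linear_combination -h5
  subst hk0
  refine ⟨by rw [hk]; simp, ?_⟩
  intro i j c hc hij
  -- then `i` is fixed
  have hF0 : F.card = 0 := by
    have : (F.card : ℤ) = 0 := by rw [hfk]; simp
    exact_mod_cast this
  have hFe : F = ∅ := Finset.card_eq_zero.mp hF0
  have hi : i ∉ F := by rw [hFe]; simp
  have hne : i ≠ jf i := by
    intro h
    exact hi (Finset.mem_filter.mpr ⟨Finset.mem_univ _, h⟩)
  -- `c x_i = cf x_j` contradicts equiangularity
  obtain ⟨ε', hε', h1⟩ := values hx W hW2 hWh i j c hc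
  obtain ⟨ε'', hε'', h2⟩ := values hx W hW2 hWh i (jf i) (cf i) (hjc i)
  rw [if_pos hij] at h1
  rw [if_neg hne, h1, ← hs] at h2
  have h3 : (ε' : ℂ) * s = ε'' := by
    rw [h2]
    field_simp
  have h4 : (ε' : ℝ) * s = ε'' := by exact_mod_cast h3
  apply hirr
  rcases hε' with h | h <;> rw [h] at h4
  · refine ⟨ε'', ?_⟩
    push_cast at h4 ⊢
    rw [← h4, one_mul]
  · refine ⟨-ε'', ?_⟩
    push_cast at h4 ⊢
    rw [← h4]
    ring

end Pool.Agent.H109R2.SIC
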