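import Mathlib

set_option autoImplicit false

namespace Pool.Agent.H109R2.RatIdem

open Matrix Module Polynomial
open scoped ComplexOrder

variable {d : ℕ}

theorem herm_sq_zero (M : Matrix (Fin d) (Fin d) ℂ) (hM : Mᴴ = M) (h : M * M = 0) : M = 0 := by
  rw [← Matrix.trace_conjTranspose_mul_self_eq_zero_iff, hM, h, trace_zero]

theorem herm_pow_zero (j : ℕ) : ∀ (M : Matrix (Fin d) (Fin d) ℂ), Mᴴ = M → M ^ (2 ^ j) = 0 →
    M = 0 := by
  induction j with
  | zero => intro M _ h; simpa using h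
  | succ j ih =>
    intro M hM h
    apply ih M hM
    apply herm_sq_zero
    · rw [conjTranspose_pow, hM]
    · rw [← pow_two, ← pow_mul, ← pow_succ]; exact h

theorem herm_nilp (n : ℕ) (M : Matrix (Fin d) (Fin d) ℂ) (hM : Mᴴ = M) (h : M ^ n = 0) :
    M = 0 := by
  apply herm_pow_zero n M hM
  have : n ≤ 2 ^ n := Nat.lt_two_pow_self.le
  exact pow_eq_zero_of_le this h

theorem aeval_herm (B : Matrix (Fin d) (Fin d) ℂ) (hB : Bᴴ = B) (R : ℚ[X]) :
    (aeval B R)ᴴ = aeval B R := by
  induction R using Polynomial.induction_on' with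
  | add p q hp hq => rw [map_add, conjTranspose_add, hp, hq]
  | monomial n a =>
    rw [aeval_monomial, conjTranspose_mul, conjTranspose_pow, hB]
    have : ((algebraMap ℚ (Matrix (Fin d) (Fin d) ℂ)) a)ᴴ = algebraMap ℚ _ a := by
      ext i j
      rw [conjTranspose_apply, Matrix.algebraMap_matrix_apply, Matrix.algebraMap_matrix_apply]
      by_cases h : i = j
      · subst h; simp
      · rw [if_neg h, if_neg (Ne.symm h)]; simp
    rw [this]
    exact (Algebra.commutes a (B ^ n)).symm

theorem commute_aeval (A B : Matrix (Fin d) (Fin d) ℂ) (h : Commute A B) (R : ℚ[X]) :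
    Commute A (aeval B R) := by
  induction R using Polynomial.induction_on' with
  | add p q hp hq => rw [map_add]; exact hp.add_right hq
  | monomial n a =>
    rw [aeval_monomial]
    have h1 : Commute A (algebraMap ℚ (Matrix (Fin d) (Fin d) ℂ) a) :=
      (Algebra.commutes a A).symm
    exact h1.mul_right (h.pow_right n)

theorem exists_idem (A : Matrix (Fin d) (Fin d) ℂ) (hA : Aᴴ = A)
    (S : Subalgebra ℚ (Matrix (Fin d) (Fin d) ℂ)) [FiniteDimensional ℚ S] (hAS : A ∈ S) (e : ℚ) :
    ∃ P ∈ S, P * P = P ∧ (A * A) * P = e • P ∧ A * P = P * A ∧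
      ∀ φ : Fin d → ℂ, (A * A) *ᵥ φ = (e : ℂ) • φ → P *ᵥ φ = φ := by
  set B := A * A with hB
  have hBh : Bᴴ = B := by rw [hB, conjTranspose_mul, hA]
  have hBS : B ∈ S := S.mul_mem hAS hAS
  have hint : IsIntegral ℚ B := by
    have h1 : IsIntegral ℚ (⟨B, hBS⟩ : S) := Algebra.IsIntegral.isIntegral _
    exact h1.map S.val
  have hμ0 := minpoly.ne_zero hint
  obtain ⟨R, hR, hnd⟩ := Polynomial.exists_eq_pow_rootMultiplicity_mul_and_not_dvd _ hμ0 e
  set k := rootMultiplicity e (minpoly ℚ B)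
  have hRe : R.eval e ≠ 0 := by
    intro h0
    exact hnd (Polynomial.dvd_iff_isRoot.mpr h0)
  have hμ : aeval B ((X - C e) ^ k * R) = 0 := by rw [← hR]; exact minpoly.aeval _ _
  -- the product `(B - e) R(B)` vanishes
  have hM : aeval B ((X - C e) * R) = 0 := by
    apply herm_nilp (k + 1) _ (aeval_herm B hBh _)
    rw [← map_pow, mul_pow, show (X - C e) ^ (k + 1) * R ^ (k + 1)
      = ((X - C e) ^ k * R) * ((X - C e) * R ^ k) by ring, map_mul, hμ, zero_mul]
  obtain ⟨Q, hQ⟩ := Polynomial.X_sub_C_dvd_sub_C_eval (a := e) (p := R)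
  have hRQ : aeval B R = algebraMap ℚ _ (R.eval e) + aeval B (X - C e) * aeval B Q := by
    rw [← map_mul, ← hQ, map_sub, aeval_C]
    abel
  have hcomm : A * aeval B R = aeval B R * A := by
    have hAB : Commute A B := (Commute.refl A).mul_right (Commute.refl A)
    exact commute_aeval A B hAB R
  refine ⟨(R.eval e)⁻¹ • aeval B R, ?_, ?_, ?_, ?_, ?_⟩
  · exact S.smul_mem (Algebra.adjoin_singleton_le hBS (aeval_mem_adjoin_singleton ℚ B)) _
  · have h1 : aeval B R * aeval B R = (R.eval e) • aeval B R := by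
      nth_rewrite 1 [hRQ]
      rw [add_mul, ← Algebra.smul_def, ← map_mul, ← map_mul,
        show (X - C e) * Q * R = Q * ((X - C e) * R) by ring, map_mul, hM, mul_zero, add_zero]
    rw [smul_mul_smul_comm, h1, smul_smul]
    congr 1
    field_simp
  · rw [map_mul, map_sub, aeval_X, aeval_C, sub_mul, sub_eq_zero, ← Algebra.smul_def] at hM
    rw [mul_smul_comm, hM, smul_comm]
  · rw [mul_smul_comm, smul_mul_assoc, hcomm]
  · intro φ hφ
    have h1 : aeval B R *ᵥ φ = ((R.eval e : ℚ) : ℂ) • φ := by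
      rw [hRQ, Matrix.add_mulVec, ← map_mul, mul_comm, map_mul, ← Matrix.mulVec_mulVec]
      have h2 : aeval B (X - C e) *ᵥ φ = 0 := by
        rw [map_sub, aeval_X, aeval_C, Matrix.sub_mulVec, hφ, sub_eq_zero]
        rw [Algebra.algebraMap_eq_smul_one, Matrix.smul_mulVec, Matrix.one_mulVec]
        ext i; simp [Rat.smul_def]
      rw [h2, Matrix.mulVec_zero, add_zero, Algebra.algebraMap_eq_smul_one, Matrix.smul_mulVec,
        Matrix.one_mulVec]
      ext i; simp [Rat.smul_def]
    rw [Matrix.smul_mulVec, h1]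
    ext i
    simp only [Pi.smul_apply, Rat.smul_def, smul_eq_mul]
    push_cast
    have : ((R.eval e : ℚ) : ℂ) ≠ 0 := by exact_mod_cast hRe
    field_simp

end Pool.Agent.H109R2.RatIdem
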