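import Mathlib
import Pool.Agent.H109R2.SICBase
import Pool.Agent.H109R2.Invol
import Pool.Agent.H109R2.RatIdem

set_option autoImplicit false

namespace Pool.Agent.H109R2.TwoGroup

open Matrix Module
open scoped ComplexOrder

variable {d : ℕ}

/-- trace of `X ↦ A X B`. -/
theorem trace_lr (A B : Matrix (Fin d) (Fin d) ℂ) :
    LinearMap.trace ℂ (Matrix (Fin d) (Fin d) ℂ)
      ((LinearMap.mulLeft ℂ A) ∘ₗ (LinearMap.mulRight ℂ B)) = trace A * trace B := by
  rw [LinearMap.trace_eq_matrix_trace ℂ (Matrix.stdBasis ℂ (Fin d) (Fin d))]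
  rw [trace, Fintype.sum_prod_type]
  simp only [diag_apply, LinearMap.toMatrix_apply, Matrix.stdBasis_eq_single]
  rw [trace, trace, Finset.sum_mul_sum]
  refine Finset.sum_congr rfl fun i _ => Finset.sum_congr rfl fun j _ => ?_
  have h1 : ∀ X : Matrix (Fin d) (Fin d) ℂ, (Matrix.stdBasis ℂ (Fin d) (Fin d)).repr X (i, j)
      = X i j := by
    intro X
    simp [Matrix.stdBasis]
  rw [h1]
  simp [Matrix.mul_apply, Matrix.single_apply, ite_and]

/-- a projective representation of a group of exponent two by Hermitian involutions, all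
non-identity elements having trace zero. -/
structure Rep (T : Type*) [Group T] (W : T → Matrix (Fin d) (Fin d) ℂ) : Prop where
  one : W 1 = 1
  inv : ∀ g, W g * W g = 1
  herm : ∀ g, (W g)ᴴ = W g
  mul : ∀ g h, ∃ c : ℂ, c ^ 4 = 1 ∧ W g * W h = c • W (g * h)
  tr : ∀ g, g ≠ 1 → trace (W g) = 0

variable {T : Type*} [Group T] [Fintype T] {W : T → Matrix (Fin d) (Fin d) ℂ}

theorem star_mul_self {c : ℂ} (h : c ^ 4 = 1) : c * star c = 1 := by
  have h1 : ‖c‖ = 1 := by
    have : ‖c‖ ^ 4 = 1 := by rw [← norm_pow, h, norm_one]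
    exact (pow_eq_one_iff_of_nonneg (norm_nonneg _) (by norm_num)).mp this
  have h2 := RCLike.mul_conj c
  rw [h1] at h2
  simpa using h2

noncomputable def twirl (W : T → Matrix (Fin d) (Fin d) ℂ) :
    Matrix (Fin d) (Fin d) ℂ →ₗ[ℂ] Matrix (Fin d) (Fin d) ℂ :=
  ((Fintype.card T : ℂ)⁻¹) • ∑ g, (LinearMap.mulLeft ℂ (W g)) ∘ₗ (LinearMap.mulRight ℂ (W g))

theorem twirl_apply (X : Matrix (Fin d) (Fin d) ℂ) :
    twirl W X = ((Fintype.card T : ℂ)⁻¹) • ∑ g, W g * X * W g := by
  simp [twirl, mul_assoc]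

theorem card_ne : (Fintype.card T : ℂ) ≠ 0 := by
  exact_mod_cast Fintype.card_ne_zero

theorem twirl_inv (hW : Rep T W) (X : Matrix (Fin d) (Fin d) ℂ) (g : T) :
    W g * twirl W X * W g = twirl W X := by
  rw [twirl_apply, mul_smul_comm, smul_mul_assoc, Finset.mul_sum, Finset.sum_mul]
  congr 1
  rw [← Equiv.sum_comp (Equiv.mulLeft g) (fun h => W h * X * W h)]
  refine Finset.sum_congr rfl fun h _ => ?_
  obtain ⟨c, hc, h1⟩ := hW.mul g h
  have h2 : W h * W g = star c • W (g * h) := by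
    have := congrArg conjTranspose h1
    rw [conjTranspose_mul, conjTranspose_smul, hW.herm, hW.herm, hW.herm] at this
    exact this
  calc W g * (W h * X * W h) * W g = (W g * W h) * X * (W h * W g) := by noncomm_ring
    _ = W (g * h) * X * W (g * h) := by
      rw [h1, h2, smul_mul_assoc, smul_mul_smul_comm, star_mul_self hc, one_smul]
    _ = _ := rfl

theorem twirl_idem (hW : Rep T W) : IsIdempotentElem (twirl W) := by
  change twirl W ∘ₗ twirl W = twirl W
  ext1 X
  rw [LinearMap.comp_apply, twirl_apply (twirl W X)]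
  simp only [twirl_inv hW]
  rw [Finset.sum_const, Finset.card_univ, ← Nat.cast_smul_eq_nsmul ℂ, smul_smul,
    inv_mul_cancel₀ card_ne, one_smul]

theorem twirl_trace (hW : Rep T W) :
    LinearMap.trace ℂ _ (twirl W) = (d : ℂ) ^ 2 / Fintype.card T := by
  classical
  rw [twirl, map_smul, map_sum]
  simp only [trace_lr]
  have : ∀ g : T, trace (W g) * trace (W g) = if g = 1 then (d : ℂ) ^ 2 else 0 := by
    intro g
    split_ifs with h
    · rw [h, hW.one, trace_one, Fintype.card_fin]; ring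
    · rw [hW.tr g h, mul_zero]
  simp only [this, Finset.sum_ite_eq', Finset.mem_univ, if_true, smul_eq_mul]
  rw [div_eq_inv_mul]

/-- the rank of the twirl, times the order of the group, is `d²`. -/
theorem twirl_rank (hW : Rep T W) :
    finrank ℂ (LinearMap.range (twirl W)) * Fintype.card T = d ^ 2 := by
  have h2 := (LinearMap.IsIdempotentElem.isProj_range _ (twirl_idem hW)).trace
  rw [twirl_trace hW] at h2
  have h3 : ((finrank ℂ (LinearMap.range (twirl W)) * Fintype.card T : ℕ) : ℂ)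
      = ((d ^ 2 : ℕ) : ℂ) := by
    push_cast
    rw [← h2]
    have := card_ne (T := T)
    field_simp
  exact_mod_cast h3

/-- the map `φ ↦ Σ_g (W_g φ)(W_g ψ)^*`, up to scale. -/
noncomputable def outer (W : T → Matrix (Fin d) (Fin d) ℂ) (ψ : Fin d → ℂ) :
    (Fin d → ℂ) →ₗ[ℂ] Matrix (Fin d) (Fin d) ℂ where
  toFun φ := twirl W (vecMulVec φ (star ψ))
  map_add' φ φ' := by rw [add_vecMulVec, map_add]
  map_smul' c φ := by rw [smul_vecMulVec, map_smul]; rfl

theorem le_ker_outer (ψ : Fin d → ℂ) :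
    d ≤ finrank ℂ (LinearMap.ker (outer W ψ)) + finrank ℂ (LinearMap.range (twirl W)) := by
  have h1 := LinearMap.finrank_range_add_finrank_ker (outer W ψ)
  have h2 : LinearMap.range (outer W ψ) ≤ LinearMap.range (twirl W) := by
    rintro _ ⟨φ, rfl⟩
    exact ⟨_, rfl⟩
  have h3 := Submodule.finrank_mono h2
  rw [finrank_fintype_fun_eq_card, Fintype.card_fin] at h1
  omega

theorem outer_ker (ψ φ : Fin d → ℂ) (h : outer W ψ φ = 0) :
    ∑ g, (star ψ ⬝ᵥ (W g *ᵥ ψ)) • (W g *ᵥ φ) = 0 := by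
  have h1 : twirl W (vecMulVec φ (star ψ)) = 0 := h
  rw [twirl_apply] at h1
  have h2 := (smul_eq_zero.mp h1).resolve_left (inv_ne_zero card_ne)
  have h3 := congrArg (fun M => M *ᵥ ψ) h2
  simp only [Matrix.zero_mulVec, Matrix.sum_mulVec] at h3
  rw [← h3]
  refine Finset.sum_congr rfl fun g _ => ?_
  rw [← Matrix.mulVec_mulVec, ← Matrix.mulVec_mulVec, Matrix.vecMulVec_mulVec,
    Matrix.mulVec_smul]
  simp

theorem fourth_root {c : ℂ} (h : c ^ 4 = 1) : c = 1 ∨ c = -1 ∨ c = Complex.I ∨ c = -Complex.I := by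
  have h1 : (c * c - 1) * (c * c + 1) = 0 := by linear_combination h
  rcases mul_eq_zero.mp h1 with h2 | h2
  · have h3 : (c - 1) * (c + 1) = 0 := by linear_combination h2
    rcases mul_eq_zero.mp h3 with h4 | h4
    · left; linear_combination h4
    · right; left; linear_combination h4
  · have h3 : (c - Complex.I) * (c + Complex.I) = 0 := by
      linear_combination h2 - Complex.I_mul_I
    rcases mul_eq_zero.mp h3 with h4 | h4
    · right; right; left; linear_combination h4
    · right; right; right; linear_combination h4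

/-- the finite monoid of all `c W_g` with `c⁴ = 1`. -/
def mono (hW : Rep T W) : Submonoid (Matrix (Fin d) (Fin d) ℂ) where
  carrier := {m | ∃ c : ℂ, c ^ 4 = 1 ∧ ∃ g, m = c • W g}
  one_mem' := ⟨1, by norm_num, 1, by rw [hW.one, one_smul]⟩
  mul_mem' := by
    rintro _ _ ⟨c, hc, g, rfl⟩ ⟨c', hc', g', rfl⟩
    obtain ⟨e, he, h⟩ := hW.mul g g'
    refine ⟨c * c' * e, by rw [mul_pow, mul_pow, hc, hc', he]; norm_num, g * g', ?_⟩
    rw [smul_mul_smul_comm, h, smul_smul]

theorem mono_finite (hW : Rep T W) : (mono hW : Set (Matrix (Fin d) (Fin d) ℂ)).Finite := by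
  have hfin : ({1, -1, Complex.I, -Complex.I} : Set ℂ).Finite := by
    simp
  refine ((hfin.prod (Set.finite_univ (α := T))).image (fun p => p.1 • W p.2)).subset ?_
  rintro _ ⟨c, hc, g, rfl⟩
  exact ⟨(c, g), ⟨by simpa using fourth_root hc, trivial⟩, rfl⟩

theorem adjoin_span (hW : Rep T W) :
    Subalgebra.toSubmodule (Algebra.adjoin ℚ (mono hW : Set (Matrix (Fin d) (Fin d) ℂ)))
      = Submodule.span ℚ (mono hW : Set (Matrix (Fin d) (Fin d) ℂ)) := by
  rw [Algebra.adjoin_eq_span, Submonoid.closure_eq]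

theorem adjoin_finite (hW : Rep T W) :
    FiniteDimensional ℚ (Algebra.adjoin ℚ (mono hW : Set (Matrix (Fin d) (Fin d) ℂ))) := by
  have h1 : FiniteDimensional ℚ (Subalgebra.toSubmodule
      (Algebra.adjoin ℚ (mono hW : Set (Matrix (Fin d) (Fin d) ℂ)))) := by
    rw [adjoin_span]
    exact FiniteDimensional.span_of_finite ℚ (mono_finite hW)
  exact h1

theorem rat_trace (hW : Rep T W) (m : Matrix (Fin d) (Fin d) ℂ)
    (hm : m ∈ Algebra.adjoin ℚ (mono hW : Set (Matrix (Fin d) (Fin d) ℂ))) :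
    ∃ q : ℚ, (trace m).re = q := by
  have h1 : m ∈ Submodule.span ℚ (mono hW : Set (Matrix (Fin d) (Fin d) ℂ)) := by
    rw [← adjoin_span]; exact hm
  induction h1 using Submodule.span_induction with
  | mem x hx =>
    obtain ⟨c, hc, g, rfl⟩ := hx
    by_cases hg : g = 1
    · rw [hg, hW.one, trace_smul, trace_one, Fintype.card_fin, smul_eq_mul]
      rcases fourth_root hc with h | h | h | h <;> rw [h]
      · exact ⟨d, by simp⟩
      · exact ⟨-d, by simp⟩
      · exact ⟨0, by simp⟩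
      · exact ⟨0, by simp⟩
    · exact ⟨0, by rw [trace_smul, hW.tr g hg]; simp⟩
  | zero => exact ⟨0, by simp⟩
  | add x y hx hy ihx ihy =>
    have hx' : x ∈ Algebra.adjoin ℚ (mono hW : Set (Matrix (Fin d) (Fin d) ℂ)) := by
      rw [← Subalgebra.mem_toSubmodule, adjoin_span]; exact hx
    have hy' : y ∈ Algebra.adjoin ℚ (mono hW : Set (Matrix (Fin d) (Fin d) ℂ)) := by
      rw [← Subalgebra.mem_toSubmodule, adjoin_span]; exact hy
    obtain ⟨q, hq⟩ := ihx hx'
    obtain ⟨q', hq'⟩ := ihy hy'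
    exact ⟨q + q', by rw [trace_add, Complex.add_re, hq, hq']; push_cast; rfl⟩
  | smul a x hx ih =>
    have hx' : x ∈ Algebra.adjoin ℚ (mono hW : Set (Matrix (Fin d) (Fin d) ℂ)) := by
      rw [← Subalgebra.mem_toSubmodule, adjoin_span]; exact hx
    obtain ⟨q, hq⟩ := ih hx'
    refine ⟨a * q, ?_⟩
    rw [trace_smul, Rat.smul_def]
    have : ((a : ℂ) * x.trace).re = (a : ℝ) * x.trace.re := by
      have h2 : (a : ℂ) = ((a : ℝ) : ℂ) := by push_cast; rfl
      rw [h2, Complex.re_ofReal_mul]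
    rw [this, hq]
    push_cast; rfl

theorem rank_eq_of_idem {Q : Matrix (Fin d) (Fin d) ℂ} (h : Q * Q = Q)
    (hr : finrank ℂ (LinearMap.range (Matrix.toLin' Q)) = d) : Q = 1 := by
  have h1 : LinearMap.range (Matrix.toLin' Q) = ⊤ := by
    apply Submodule.eq_top_of_finrank_eq
    rw [hr, finrank_fintype_fun_eq_card, Fintype.card_fin]
  have h2 : ∀ φ : Fin d → ℂ, Q *ᵥ φ = φ := by
    intro φ
    have : φ ∈ LinearMap.range (Matrix.toLin' Q) := by rw [h1]; trivial
    obtain ⟨χ, rfl⟩ := this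
    rw [Matrix.toLin'_apply, Matrix.mulVec_mulVec, h]
  exact Matrix.ext_of_mulVec_single fun i => by rw [h2, Matrix.one_mulVec]

variable [DecidableEq T]

theorem exp_two (hd : d ≠ 0) (hW : Rep T W) (g : T) : g * g = 1 := by
  by_contra hne
  obtain ⟨c, hc, h⟩ := hW.mul g g
  rw [hW.inv] at h
  have h1 := congrArg trace h
  rw [trace_smul, hW.tr _ hne, smul_zero, trace_one, Fintype.card_fin] at h1
  exact hd (by exact_mod_cast h1)

theorem core (hd : 3 ≤ d) (hW : Rep T W) (s : ℝ) (hs : Irrational s) (hs2 : s * s = (d : ℝ) + 1)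
    (ψ : Fin d → ℂ) (hψ : star ψ ⬝ᵥ ψ = 1) (ε : T → ℤ) (hε : ∀ g, g ≠ 1 → (ε g = 1 ∨ ε g = -1))
    (hval : ∀ g, g ≠ 1 → star ψ ⬝ᵥ (W g *ᵥ ψ) = (ε g : ℂ) / s) :
    Fintype.card T < 2 * d := by
  have hs2' : (s : ℂ) * s = (d : ℂ) + 1 := by exact_mod_cast congrArg (Complex.ofReal) hs2
  have hs0 : (s : ℂ) ≠ 0 := by
    intro h0
    rw [h0, zero_mul] at hs2'
    exact SIC.d1_ne hs2'.symm
  set A : Matrix (Fin d) (Fin d) ℂ := ∑ g ∈ Finset.univ.erase (1 : T), (ε g : ℂ) • W g with hAdef
  have hA : Aᴴ = A := by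
    rw [hAdef, conjTranspose_sum]
    refine Finset.sum_congr rfl fun g _ => ?_
    rw [conjTranspose_smul, hW.herm]
    simp
  haveI := adjoin_finite hW
  have hAS : A ∈ Algebra.adjoin ℚ (mono hW : Set (Matrix (Fin d) (Fin d) ℂ)) := by
    rw [hAdef]
    refine Subalgebra.sum_mem _ fun g _ => ?_
    have h1 : (ε g : ℂ) • W g = (ε g : ℚ) • W g := by
      ext i j
      simp [Rat.smul_def]
    rw [h1]
    have h2 : W g ∈ (mono hW : Set (Matrix (Fin d) (Fin d) ℂ)) :=
      ⟨1, by norm_num, g, by rw [one_smul]⟩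
    exact Subalgebra.smul_mem _ (Algebra.subset_adjoin h2) _
  obtain ⟨P, hPS, hPP, hAAP, hAP, hfix⟩ := RatIdem.exists_idem A hA _ hAS ((d : ℚ) + 1)
  have hcast : ((d : ℚ) + 1 : ℚ) • P = ((s : ℂ) * s) • P := by
    rw [hs2']
    ext i j
    simp [Rat.smul_def]
  rw [hcast] at hAAP
  -- the two idempotents
  have hQ : ∀ δ : ℂ, δ * δ = 1 →
      ((1 / 2 : ℂ) • (P + (δ / s) • (A * P))) * ((1 / 2 : ℂ) • (P + (δ / s) • (A * P)))
        = (1 / 2 : ℂ) • (P + (δ / s) • (A * P)) := by
    intro δ hδ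
    have h1 : P * (A * P) = A * P := by rw [← mul_assoc, ← hAP, mul_assoc, hPP]
    have h2 : (A * P) * P = A * P := by rw [mul_assoc, hPP]
    have h3 : (A * P) * (A * P) = ((s : ℂ) * s) • P := by
      rw [mul_assoc, h1, ← mul_assoc, hAAP]
    rw [smul_mul_smul_comm, mul_add, add_mul, add_mul, hPP, mul_smul_comm, smul_mul_assoc, h1, h2,
      smul_mul_smul_comm, h3]
    match_scalars
    · field_simp
      linear_combination hδ
    · field_simp
      ring
  set Qp := (1 / 2 : ℂ) • (P + ((1 : ℂ) / s) • (A * P)) with hQp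
  set Qm := (1 / 2 : ℂ) • (P + ((-1 : ℂ) / s) • (A * P)) with hQm
  have tp := SIC.trace_idem Qp (hQ 1 (by norm_num))
  have tm := SIC.trace_idem Qm (hQ (-1) (by norm_num))
  have tP := SIC.trace_idem P hPP
  set rp := finrank ℂ (LinearMap.range (Matrix.toLin' Qp))
  set rm := finrank ℂ (LinearMap.range (Matrix.toLin' Qm))
  set p := finrank ℂ (LinearMap.range (Matrix.toLin' P)) with hp
  rw [hQp, trace_smul, trace_add, trace_smul, smul_eq_mul, smul_eq_mul] at tp
  rw [hQm, trace_smul, trace_add, trace_smul, smul_eq_mul, smul_eq_mul] at tm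
  have tAP : trace (A * P) = s * ((rp : ℂ) - rm) := by
    rw [← tp, ← tm]
    field_simp
    ring
  obtain ⟨q, hq⟩ := rat_trace hW (A * P) (Subalgebra.mul_mem _ hAS hPS)
  have hrr : rp = rm := by
    by_contra hne
    have h1 : ((rp : ℤ) - rm : ℤ) ≠ 0 := by
      intro h; apply hne; omega
    have h2 : s * (((rp : ℤ) - rm : ℤ) : ℝ) = q := by
      rw [← hq, tAP]
      have : (s : ℂ) * ((rp : ℂ) - rm) = ((s * (((rp : ℤ) - rm : ℤ) : ℝ) : ℝ) : ℂ) := by
        push_cast; ring
      rw [this, Complex.ofReal_re]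
    apply hs
    refine ⟨q / (((rp : ℤ) - rm : ℤ) : ℚ), ?_⟩
    push_cast
    have h3 : (((rp : ℤ) - rm : ℤ) : ℝ) ≠ 0 := by exact_mod_cast h1
    push_cast at h3 h2
    rw [← h2]
    field_simp
  have hpr : p = 2 * rm := by
    have h1 : (p : ℂ) = rp + rm := by
      rw [← tP, ← tp, ← tm]
      ring
    rw [hrr] at h1
    have : p = rm + rm := by exact_mod_cast h1
    omega
  have hpd : p ≤ d := by
    have := Submodule.finrank_le (LinearMap.range (Matrix.toLin' P))
    rwa [finrank_fintype_fun_eq_card, Fintype.card_fin] at this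
  -- the kernel of `outer`
  have hker : LinearMap.ker (outer W ψ) ≤ LinearMap.range (Matrix.toLin' Qm) := by
    intro φ hφ
    have h1 := outer_ker ψ φ hφ
    rw [← Finset.add_sum_erase _ _ (Finset.mem_univ (1 : T)), hW.one, Matrix.one_mulVec, hψ,
      one_smul] at h1
    have h2 : A *ᵥ φ = -(s : ℂ) • φ := by
      have h3 : ∑ g ∈ Finset.univ.erase (1 : T), (star ψ ⬝ᵥ (W g *ᵥ ψ)) • (W g *ᵥ φ)
          = ((1 : ℂ) / s) • (A *ᵥ φ) := by
        rw [hAdef, Matrix.sum_mulVec, Finset.smul_sum]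
        refine Finset.sum_congr rfl fun g hg => ?_
        rw [hval g (Finset.ne_of_mem_erase hg), Matrix.smul_mulVec, smul_smul]
        congr 1
        ring
      rw [h3, Matrix.one_mulVec] at h1
      have h4 : ((1 : ℂ) / s) • (A *ᵥ φ) = -φ := by
        rw [eq_neg_iff_add_eq_zero, add_comm]; exact h1
      have h5 := congrArg (fun v => (s : ℂ) • v) h4
      simp only [smul_smul] at h5
      rw [mul_one_div_cancel hs0, one_smul] at h5
      rw [h5, smul_neg, neg_smul]
    have h3 : P *ᵥ φ = φ := by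
      apply hfix
      rw [← Matrix.mulVec_mulVec, h2, Matrix.mulVec_smul, h2, smul_smul, neg_mul_neg, hs2']
      push_cast; rfl
    refine ⟨φ, ?_⟩
    rw [Matrix.toLin'_apply, hQm, Matrix.smul_mulVec, Matrix.add_mulVec, Matrix.smul_mulVec,
      ← Matrix.mulVec_mulVec, h3, h2, smul_smul]
    match_scalars
    field_simp
    ring
  have hk1 : finrank ℂ (LinearMap.ker (outer W ψ)) ≤ rm := Submodule.finrank_mono hker
  have hk2 := le_ker_outer (W := W) ψ
  have hρ := twirl_rank hW
  set ρ := finrank ℂ (LinearMap.range (twirl W))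
  set N := Fintype.card T with hN
  have hdρ : d ≤ 2 * ρ := by omega
  have hN2 : N ≤ 2 * d := by
    have h1 : N * d ≤ 2 * d * d := by nlinarith
    exact Nat.le_of_mul_le_mul_right h1 (by omega)
  rcases Nat.lt_or_ge N (2 * d) with h | h
  · exact h
  exfalso
  have hN3 : N = 2 * d := le_antisymm hN2 h
  have h2ρ : 2 * ρ = d := by
    rw [hN3] at hρ
    have : d * (2 * ρ) = d * d := by nlinarith
    exact Nat.eq_of_mul_eq_mul_left (by omega) this
  have hpd2 : p = d := by omega
  have hP1 : P = 1 := rank_eq_of_idem hPP hpd2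
  rw [hP1, Matrix.mul_one] at hAAP
  have ht1 : trace (A * A) = ((d : ℂ) + 1) * d := by
    rw [hAAP, hs2', trace_smul, trace_one, Fintype.card_fin, smul_eq_mul]
  have ht2 : trace (A * A) = ((N : ℂ) - 1) * d := by
    have hd0 : d ≠ 0 := by omega
    rw [hAdef, Finset.sum_mul_sum, trace_sum]
    have h1 : ∀ g ∈ Finset.univ.erase (1 : T), trace (∑ h ∈ Finset.univ.erase (1 : T),
        (ε g : ℂ) • W g * (ε h : ℂ) • W h) = d := by
      intro g hg
      rw [trace_sum, Finset.sum_eq_single g]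
      · rw [smul_mul_smul_comm, hW.inv, trace_smul, trace_one, Fintype.card_fin, smul_eq_mul]
        rcases hε g (Finset.ne_of_mem_erase hg) with h | h <;> rw [h] <;> simp
      · intro h _ hne
        rw [smul_mul_smul_comm, trace_smul]
        obtain ⟨c, hc, h1⟩ := hW.mul g h
        have hgh : g * h ≠ 1 := by
          intro h0
          apply hne
          have h2 := exp_two hd0 hW g
          exact mul_left_cancel (h0.trans h2.symm)
        rw [h1, trace_smul, hW.tr _ hgh, smul_zero, smul_zero]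
      · intro h; exact absurd hg h
    rw [Finset.sum_congr rfl h1, Finset.sum_const, Finset.card_erase_of_mem (Finset.mem_univ _),
      Finset.card_univ, nsmul_eq_mul, Nat.cast_sub Fintype.card_pos]
    push_cast
    rfl
  rw [ht1, hN3] at ht2
  have hd0 : (d : ℂ) ≠ 0 := by exact_mod_cast (by omega : d ≠ 0)
  have h3 := mul_right_cancel₀ hd0 ht2
  push_cast at h3
  have h4 : (d : ℂ) = 2 := by linear_combination -h3
  have h5 : d = 2 := by exact_mod_cast h4
  omega

end Pool.Agent.H109R2.TwoGroup
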