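import Mathlib
import Pool.Agent.H109R2.SICBase
import Pool.Agent.H109R2.Invol
import Pool.Agent.H109R2.TwoGroup

set_option autoImplicit false

namespace Pool.Agent.H109R2.SymGroup

open Matrix Module Pool.Agent.H109R2.SIC
open scoped ComplexOrder

variable {d : ℕ} {x : Fin (d ^ 2) → EuclideanSpace ℂ (Fin d)}

theorem unitary_matrix (U : EuclideanSpace ℂ (Fin d) ≃ₗᵢ[ℂ] EuclideanSpace ℂ (Fin d)) :
    ∃ M : Matrix (Fin d) (Fin d) ℂ, Mᴴ * M = 1 ∧ ∀ v, M *ᵥ v.ofLp = (U v).ofLp := by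
  set M : Matrix (Fin d) (Fin d) ℂ := Matrix.toEuclideanLin.symm U.toLinearEquiv.toLinearMap
  have hM : ∀ v, M *ᵥ v.ofLp = (U v).ofLp := by
    intro v
    have h1 : Matrix.toEuclideanLin M = U.toLinearEquiv.toLinearMap :=
      LinearEquiv.apply_symm_apply _ _
    have h2 : Matrix.toEuclideanLin M v = U v := by rw [h1]; rfl
    rw [← h2]
    rfl
  refine ⟨M, ?_, hM⟩
  have h3 : ∀ v w : Fin d → ℂ, star v ⬝ᵥ ((Mᴴ * M) *ᵥ w) = star v ⬝ᵥ w := by
    intro v w
    have h4 := U.inner_map_map (WithLp.toLp 2 v) (WithLp.toLp 2 w)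
    rw [inner_eq, inner_eq] at h4
    have h5 : star (M *ᵥ v) ⬝ᵥ (M *ᵥ w) = star v ⬝ᵥ w := by
      have e1 := hM (WithLp.toLp 2 v)
      have e2 := hM (WithLp.toLp 2 w)
      change M *ᵥ v = _ at e1
      change M *ᵥ w = _ at e2
      rw [e1, e2]
      exact h4
    rw [← h5, star_mulVec, ← Matrix.dotProduct_mulVec, Matrix.mulVec_mulVec]
  ext i j
  have h4 := h3 (Pi.single i 1) (Pi.single j 1)
  have h5 : star (Pi.single i (1 : ℂ) : Fin d → ℂ) = Pi.single i 1 := by
    ext k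
    by_cases hk : k = i
    · subst hk; simp
    · simp [Pi.single_eq_of_ne hk]
  rw [h5] at h4
  simpa [Matrix.one_apply, Pi.single_apply, eq_comm] using h4

/-- a matrix fixing all lines is scalar. -/
theorem scalar_of_fix (hx : IsMaxETF d x) (M : Matrix (Fin d) (Fin d) ℂ) (hM : Mᴴ * M = 1)
    (h : ∀ i, ∃ c : ℂ, M *ᵥ (x i).ofLp = c • (x i).ofLp) : ∃ c : ℂ, M = c • 1 := by
  have h1 : ∀ i, M * P x i = P x i * M := by
    intro i
    obtain ⟨c, hc⟩ := h i
    have e1 : P x i = vecMulVec (x i).ofLp (star (x i).ofLp) := rfl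
    have hcc : star c * c = 1 := by
      have h2 : star (M *ᵥ (x i).ofLp) ⬝ᵥ (M *ᵥ (x i).ofLp) = 1 := by
        rw [star_mulVec, ← Matrix.dotProduct_mulVec, Matrix.mulVec_mulVec, hM,
          Matrix.one_mulVec, dot_self hx]
      rw [hc, star_smul, smul_dotProduct, dotProduct_smul, dot_self hx, smul_eq_mul, smul_eq_mul,
        mul_one] at h2
      exact h2
    have e2 : M * P x i * Mᴴ = P x i := by
      rw [e1, Matrix.mul_vecMulVec, Matrix.vecMulVec_mul]
      have e3 : star (x i).ofLp ᵥ* Mᴴ = star (M *ᵥ (x i).ofLp) := (star_mulVec _ _).symm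
      rw [e3, hc, star_smul, Matrix.smul_vecMulVec, Matrix.vecMulVec_smul, smul_smul,
        mul_comm, hcc, one_smul]
    calc M * P x i = M * P x i * (Mᴴ * M) := by rw [hM, mul_one]
      _ = (M * P x i * Mᴴ) * M := by noncomm_ring
      _ = _ := by rw [e2]
  have h2 : ∀ B : Matrix (Fin d) (Fin d) ℂ, M * B = B * M := by
    intro B
    have hB : B ∈ Submodule.span ℂ (Set.range (P x)) := by rw [span_P hx]; trivial
    induction hB using Submodule.span_induction with
    | mem B hB => obtain ⟨k, rfl⟩ := hB; exact h1 k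
    | zero => simp
    | add B C _ _ hB hC => rw [mul_add, add_mul, hB, hC]
    | smul c B _ hB => rw [mul_smul_comm, smul_mul_assoc, hB]
  have h3 : M ∈ Set.range (Matrix.scalar (Fin d)) := by
    rw [Matrix.mem_range_scalar_iff_commute_single]
    intro i j _
    exact (h2 _).symm
  obtain ⟨c, hc⟩ := h3
  exact ⟨c, by rw [← hc]; ext i j; simp [Matrix.diagonal_apply, Matrix.one_apply]⟩

/-- distinct lines. -/
theorem line_inj (hd : 1 ≤ d) (hx : IsMaxETF d x) (i j : Fin (d ^ 2)) (c : ℂ)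
    (h : (x i).ofLp = c • (x j).ofLp) : i = j := by
  by_contra hij
  have h1 := inner_mul_inner hx i j
  rw [if_neg hij, ← dot_eq_inner, ← dot_eq_inner, h, dotProduct_smul, star_smul, smul_dotProduct,
    dot_self hx, smul_eq_mul, smul_eq_mul] at h1
  have h2 : star (x i).ofLp ⬝ᵥ (x i).ofLp = 1 := dot_self hx i
  rw [h, star_smul, smul_dotProduct, dotProduct_smul, dot_self hx, smul_eq_mul, smul_eq_mul] at h2
  have h3 : (1 : ℂ) = 1 / ((d : ℂ) + 1) := by linear_combination h1 - h2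
  have h4 := d1_ne (d := d)
  field_simp at h3
  have h5 : (d : ℂ) = 0 := by linear_combination h3
  have : d = 0 := by exact_mod_cast h5
  omega

/-- `π` is induced by a unitary transformation. -/
def IsSym (x : Fin (d ^ 2) → EuclideanSpace ℂ (Fin d)) (π : Equiv.Perm (Fin (d ^ 2))) : Prop :=
  ∃ U : EuclideanSpace ℂ (Fin d) ≃ₗᵢ[ℂ] EuclideanSpace ℂ (Fin d),
    ∀ i, ∃ c : ℂ, U (x i) = c • x (π i)

/-- the Hermitian involution attached to an involutive symmetry. -/
theorem exists_invol_of (hd : 1 ≤ d) (hx : IsMaxETF d x) (π : Equiv.Perm (Fin (d ^ 2)))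
    (U : EuclideanSpace ℂ (Fin d) ≃ₗᵢ[ℂ] EuclideanSpace ℂ (Fin d))
    (hU : ∀ i, ∃ c : ℂ, U (x i) = c • x (π i)) (h2 : π * π = 1) :
    ∃ (W : Matrix (Fin d) (Fin d) ℂ) (w : ℂ), W * W = 1 ∧ Wᴴ = W ∧
      (∀ i, ∃ c : ℂ, W *ᵥ (x i).ofLp = c • (x (π i)).ofLp) ∧ w ≠ 0 ∧
      ∀ v, W *ᵥ v.ofLp = w • (U v).ofLp := by
  obtain ⟨M, hM, hMv⟩ := unitary_matrix U
  have hMx : ∀ i, ∃ c : ℂ, M *ᵥ (x i).ofLp = c • (x (π i)).ofLp := by
    intro i
    obtain ⟨c, hc⟩ := hU i
    exact ⟨c, by rw [hMv, hc]; rfl⟩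
  have hMM : (M * M)ᴴ * (M * M) = 1 := by
    rw [conjTranspose_mul]
    calc Mᴴ * Mᴴ * (M * M) = Mᴴ * (Mᴴ * M) * M := by noncomm_ring
      _ = 1 := by rw [hM, mul_one, hM]
  obtain ⟨z, hz⟩ := scalar_of_fix hx (M * M) hMM (by
    intro i
    obtain ⟨c, hc⟩ := hMx i
    obtain ⟨c', hc'⟩ := hMx (π i)
    refine ⟨c * c', ?_⟩
    rw [← Matrix.mulVec_mulVec, hc, Matrix.mulVec_smul, hc', smul_smul]
    have : π (π i) = i := by
      have := congrArg (fun σ => σ i) h2
      simpa using this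
    rw [this])
  have hzz : star z * z = 1 := by
    rw [hz, conjTranspose_smul, smul_mul_smul_comm, conjTranspose_one, mul_one] at hMM
    have i0 : Fin d := ⟨0, hd⟩
    have := congrFun (congrFun hMM i0) i0
    simpa using this
  have hz0 : z ≠ 0 := by
    rintro rfl
    simp at hzz
  obtain ⟨w, hw⟩ := IsAlgClosed.exists_pow_nat_eq (z⁻¹) (n := 2) (by norm_num)
  have hww : star w * w = 1 := by
    have h3 : (star w * w) * (star w * w) = 1 := by
      have : (star w * w) * (star w * w) = star (w ^ 2) * w ^ 2 := by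
        rw [star_pow]; ring
      rw [this, hw, star_inv₀]
      rw [← mul_inv, hzz, inv_one]
    rcases mul_self_eq_one_iff.mp h3 with h4 | h4
    · exact h4
    · exfalso
      have h5 : star w * w = ((‖w‖ ^ 2 : ℝ) : ℂ) := by
        rw [show star w = (starRingEnd ℂ) w from rfl, RCLike.conj_mul]
        norm_cast
      rw [h5] at h4
      have h6 : (‖w‖ ^ 2 : ℝ) = -1 := by exact_mod_cast h4
      nlinarith [sq_nonneg ‖w‖]
  have hW2 : (w • M) * (w • M) = 1 := by
    rw [smul_mul_smul_comm, hz, smul_smul, ← pow_two, hw, inv_mul_cancel₀ hz0, one_smul]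
  have hWu : (w • M)ᴴ * (w • M) = 1 := by
    rw [conjTranspose_smul, smul_mul_smul_comm, hM, hww, one_smul]
  have hw0 : w ≠ 0 := by
    rintro rfl
    simp at hww
  refine ⟨w • M, w, hW2, ?_, ?_, hw0, fun v => by rw [Matrix.smul_mulVec, hMv]⟩
  · calc (w • M)ᴴ = (w • M)ᴴ * ((w • M) * (w • M)) := by rw [hW2, mul_one]
      _ = ((w • M)ᴴ * (w • M)) * (w • M) := by rw [mul_assoc]
      _ = _ := by rw [hWu, one_mul]
  · intro i
    obtain ⟨c, hc⟩ := hMx i
    exact ⟨w * c, by rw [Matrix.smul_mulVec, hc, smul_smul]⟩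

theorem exists_invol (hd : 1 ≤ d) (hx : IsMaxETF d x) (π : Equiv.Perm (Fin (d ^ 2)))
    (h : IsSym x π) (h2 : π * π = 1) :
    ∃ W : Matrix (Fin d) (Fin d) ℂ, W * W = 1 ∧ Wᴴ = W ∧
      ∀ i, ∃ c : ℂ, W *ᵥ (x i).ofLp = c • (x (π i)).ofLp := by
  obtain ⟨U, hU⟩ := h
  obtain ⟨W, w, h1, h3, h4, -⟩ := exists_invol_of hd hx π U hU h2
  exact ⟨W, h1, h3, h4⟩

theorem trace_of (W : Matrix (Fin d) (Fin d) ℂ) (w : ℂ)
    (U : EuclideanSpace ℂ (Fin d) ≃ₗᵢ[ℂ] EuclideanSpace ℂ (Fin d))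
    (h : ∀ v, W *ᵥ v.ofLp = w • (U v).ofLp) :
    trace W = w * LinearMap.trace ℂ (EuclideanSpace ℂ (Fin d)) U.toLinearEquiv.toLinearMap := by
  rw [LinearMap.trace_eq_matrix_trace ℂ (EuclideanSpace.basisFun (Fin d) ℂ).toBasis]
  rw [trace, trace, Finset.mul_sum]
  refine Finset.sum_congr rfl fun i _ => ?_
  have h1 := congrFun (h (EuclideanSpace.single i 1)) i
  simp only [diag_apply, LinearMap.toMatrix_apply]
  simp only [OrthonormalBasis.coe_toBasis, EuclideanSpace.basisFun_apply,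
    OrthonormalBasis.coe_toBasis_repr_apply, EuclideanSpace.basisFun_repr]
  simpa using h1

/-- non-identity permutations give non-scalar matrices. -/
theorem non_scalar (hd : 1 ≤ d) (hx : IsMaxETF d x) (π : Equiv.Perm (Fin (d ^ 2)))
    (hπ : π ≠ 1) (W : Matrix (Fin d) (Fin d) ℂ) (hW2 : W * W = 1)
    (h : ∀ i, ∃ c : ℂ, W *ᵥ (x i).ofLp = c • (x (π i)).ofLp) (c : ℂ) : W ≠ c • 1 := by
  rintro rfl
  apply hπ
  ext1 i
  obtain ⟨c', hc'⟩ := h i
  rw [Matrix.smul_mulVec, Matrix.one_mulVec] at hc'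
  have hc0 : c ≠ 0 := by
    rintro rfl
    rw [zero_smul, zero_mul] at hW2
    have i0 : Fin d := ⟨0, hd⟩
    have := congrFun (congrFun hW2 i0) i0
    simp at this
  have h3 : (x i).ofLp = (c⁻¹ * c') • (x (π i)).ofLp := by
    rw [← smul_smul, ← hc', smul_smul, inv_mul_cancel₀ hc0, one_smul]
  exact (line_inj hd hx _ _ _ h3).symm

/-- an involutive symmetry has no fixed line, and trace zero. -/
theorem no_fixed (hd : 1 ≤ d) (hsq : ¬ IsSquare (d + 1)) (hx : IsMaxETF d x)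
    (π : Equiv.Perm (Fin (d ^ 2))) (hπ : π ≠ 1)
    (W : Matrix (Fin d) (Fin d) ℂ) (hW2 : W * W = 1) (hWh : Wᴴ = W)
    (h : ∀ i, ∃ c : ℂ, W *ᵥ (x i).ofLp = c • (x (π i)).ofLp) :
    trace W = 0 ∧ ∀ i, π i ≠ i := by
  have h3 := invol_trace_zero hd hsq hx W hW2 hWh (fun i => ⟨π i, h i⟩)
    (non_scalar hd hx π hπ W hW2 h)
  refine ⟨h3.1, fun i hi => ?_⟩
  obtain ⟨c, hc⟩ := h i
  exact h3.2 i (π i) c hc hi.symm

/-- the commutation relation of two Hermitian involutions whose product is a multiple of a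
Hermitian involution. -/
theorem fourth (hd : 1 ≤ d) (A B C : Matrix (Fin d) (Fin d) ℂ) (hA : A * A = 1) (hB : B * B = 1)
    (hC : C * C = 1) (hAh : Aᴴ = A) (hBh : Bᴴ = B) (hCh : Cᴴ = C) (c : ℂ) (h : A * B = c • C) :
    c ^ 4 = 1 := by
  have i0 : Fin d := ⟨0, hd⟩
  have scal : ∀ a : ℂ, a • (1 : Matrix (Fin d) (Fin d) ℂ) = 1 → a = 1 := by
    intro a ha
    have := congrFun (congrFun ha i0) i0
    simpa using this
  have h1 : B * A = star c • C := by
    have := congrArg conjTranspose h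
    rw [conjTranspose_mul, conjTranspose_smul, hAh, hBh, hCh] at this
    exact this
  have h2 : c * star c = 1 := by
    apply scal
    rw [← hC, ← smul_mul_smul_comm, ← h, ← h1]
    calc A * B * (B * A) = A * (B * B) * A := by noncomm_ring
      _ = C * C := by rw [hB, mul_one, hA, hC]
  have h3 : A * B = (c * c) • (B * A) := by
    rw [h1, smul_smul, mul_assoc, h2, mul_one, h]
  have h4 : B * A = (c * c) • (A * B) := by
    calc B * A = A * (A * B) * A := by rw [← mul_assoc, hA, one_mul]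
      _ = A * ((c * c) • (B * A)) * A := by rw [← h3]
      _ = (c * c) • (A * B * (A * A)) := by
        rw [mul_smul_comm, smul_mul_assoc]
        congr 1
        noncomm_ring
      _ = (c * c) • (A * B) := by rw [hA, mul_one]
  have h5 : ((c * c) * (c * c)) • (1 : Matrix (Fin d) (Fin d) ℂ) = 1 := by
    have h6 : A * B * (B * A) = 1 := by
      calc A * B * (B * A) = A * (B * B) * A := by noncomm_ring
        _ = 1 := by rw [hB, mul_one, hA]
    have h7 : A * B = ((c * c) * (c * c)) • (A * B) := by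
      nth_rewrite 1 [h3]
      rw [h4, smul_smul]
    calc ((c * c) * (c * c)) • (1 : Matrix (Fin d) (Fin d) ℂ)
        = (((c * c) * (c * c)) • (A * B)) * (B * A) := by rw [smul_mul_assoc, h6]
      _ = 1 := by rw [← h7, h6]
  rw [← scal _ h5]
  ring

/-- elementary abelian groups of symmetries. -/
theorem card_lt (hd : 3 ≤ d) (hsq : ¬ IsSquare (d + 1)) (hx : IsMaxETF d x)
    (T : Subgroup (Equiv.Perm (Fin (d ^ 2)))) (hT : ∀ π ∈ T, IsSym x π)
    (h2 : ∀ π ∈ T, π * π = 1) : Nat.card T < 2 * d := by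
  classical
  have hd1 : 1 ≤ d := by omega
  have hW := fun π : T => exists_invol hd1 hx π.1 (hT π.1 π.2) (h2 π.1 π.2)
  choose W₀ hW₀2 hW₀h hW₀v using hW
  set W : T → Matrix (Fin d) (Fin d) ℂ := fun π => if π = 1 then 1 else W₀ π with hWdef
  have hW2 : ∀ π, W π * W π = 1 := by
    intro π
    simp only [hWdef]
    split_ifs
    · rw [mul_one]
    · exact hW₀2 π
  have hWh : ∀ π, (W π)ᴴ = W π := by
    intro π
    simp only [hWdef]
    split_ifs
    · rw [conjTranspose_one]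
    · exact hW₀h π
  have hWv : ∀ (π : T) i, ∃ c : ℂ, W π *ᵥ (x i).ofLp = c • (x (π.1 i)).ofLp := by
    intro π i
    simp only [hWdef]
    split_ifs with h
    · exact ⟨1, by rw [h, Matrix.one_mulVec, one_smul]; rfl⟩
    · exact hW₀v π i
  have hne : ∀ π : T, π ≠ 1 → trace (W π) = 0 ∧ ∀ i, π.1 i ≠ i := by
    intro π hπ
    exact no_fixed hd1 hsq hx π.1 (fun h => hπ (Subtype.ext h)) (W π) (hW2 π) (hWh π)
      (hWv π)
  have hmul : ∀ g h : T, ∃ c : ℂ, c ^ 4 = 1 ∧ W g * W h = c • W (g * h) := by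
    intro g h
    have hu : (W g * W h * W (g * h))ᴴ * (W g * W h * W (g * h)) = 1 := by
      rw [conjTranspose_mul, conjTranspose_mul, hWh, hWh, hWh]
      calc W (g * h) * (W h * W g) * (W g * W h * W (g * h))
          = W (g * h) * (W h * (W g * W g) * W h) * W (g * h) := by noncomm_ring
        _ = 1 := by rw [hW2, mul_one, hW2, mul_one, hW2]
    obtain ⟨c, hc⟩ := scalar_of_fix hx _ hu (by
      intro i
      obtain ⟨c1, hc1⟩ := hWv (g * h) i
      obtain ⟨c2, hc2⟩ := hWv h ((g * h : T).1 i)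
      obtain ⟨c3, hc3⟩ := hWv g (h.1 ((g * h : T).1 i))
      refine ⟨c1 * (c2 * c3), ?_⟩
      rw [← Matrix.mulVec_mulVec, ← Matrix.mulVec_mulVec, hc1, Matrix.mulVec_smul, hc2,
        Matrix.mulVec_smul, Matrix.mulVec_smul, hc3, smul_smul, smul_smul]
      have e : g.1 (h.1 ((g * h : T).1 i)) = i := by
        have := congrArg (fun σ => σ i) (h2 (g * h : T).1 (g * h : T).2)
        simpa using this
      rw [e, mul_assoc])
    have hc' : W g * W h = c • W (g * h) := by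
      calc W g * W h = W g * W h * (W (g * h) * W (g * h)) := by rw [hW2, mul_one]
        _ = (W g * W h * W (g * h)) * W (g * h) := by noncomm_ring
        _ = c • W (g * h) := by rw [hc, smul_mul_assoc, one_mul]
    exact ⟨c, fourth hd1 _ _ _ (hW2 g) (hW2 h) (hW2 (g * h)) (hWh g) (hWh h) (hWh (g * h)) c hc',
      hc'⟩
  have hrep : TwoGroup.Rep T W :=
    ⟨by simp [hWdef], hW2, hWh, hmul, fun g hg => (hne g hg).1⟩
  have hpos : 0 < d ^ 2 := by positivity
  set i0 : Fin (d ^ 2) := ⟨0, hpos⟩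
  have hval : ∀ g : T, g ≠ 1 → ∃ ε : ℤ, (ε = 1 ∨ ε = -1) ∧
      star (x i0).ofLp ⬝ᵥ (W g *ᵥ (x i0).ofLp) = (ε : ℂ) / (Real.sqrt ((d : ℝ) + 1) : ℝ) := by
    intro g hg
    obtain ⟨c, hc⟩ := hWv g i0
    obtain ⟨ε, hε, h⟩ := values hx (W g) (hW2 g) (hWh g) i0 (g.1 i0) c hc
    rw [if_neg ((hne g hg).2 i0).symm, trace_P_mul_mulVec] at h
    exact ⟨ε, hε, h⟩
  have hval' : ∀ g : T, ∃ ε : ℤ, g ≠ 1 → ((ε = 1 ∨ ε = -1) ∧
      star (x i0).ofLp ⬝ᵥ (W g *ᵥ (x i0).ofLp) = (ε : ℂ) / (Real.sqrt ((d : ℝ) + 1) : ℝ)) := by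
    intro g
    by_cases hg : g = 1
    · exact ⟨0, fun h => absurd hg h⟩
    · obtain ⟨ε, hε⟩ := hval g hg
      exact ⟨ε, fun _ => hε⟩
  choose ε hε using hval'
  have : Fintype T := Fintype.ofFinite T
  have hcore := TwoGroup.core (T := T) hd hrep (Real.sqrt ((d : ℝ) + 1)) (sqrt_irr hsq)
    (Real.mul_self_sqrt (by positivity)) (x i0).ofLp (dot_self hx i0) ε
    (fun g hg => (hε g hg).1) (fun g hg => (hε g hg).2)
  rw [Nat.card_eq_fintype_card]
  exact hcore

/-- line stabilisers have odd order. -/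
theorem stab_odd (hd : 1 ≤ d) (hsq : ¬ IsSquare (d + 1)) (hx : IsMaxETF d x)
    (G : Subgroup (Equiv.Perm (Fin (d ^ 2)))) (hG : ∀ π ∈ G, IsSym x π) (i : Fin (d ^ 2)) :
    Odd (Nat.card (MulAction.stabilizer G i)) := by
  by_contra hodd
  rw [Nat.not_odd_iff_even] at hodd
  have : Fact (Nat.Prime 2) := ⟨Nat.prime_two⟩
  obtain ⟨g, hg⟩ := exists_prime_orderOf_dvd_card' (G := MulAction.stabilizer G i) 2
    hodd.two_dvd
  have h1 : g * g = 1 := by
    have h0 := pow_orderOf_eq_one g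
    rw [hg] at h0
    exact (pow_two g).symm.trans h0
  have h2 : g ≠ 1 := by
    rintro rfl
    rw [orderOf_one] at hg
    omega
  have hπ2 : (g.1.1 : Equiv.Perm (Fin (d ^ 2))) * g.1.1 = 1 := by
    have := congrArg (fun a : MulAction.stabilizer G i => (a.1.1 : Equiv.Perm (Fin (d ^ 2)))) h1
    simpa using this
  have hπ1 : (g.1.1 : Equiv.Perm (Fin (d ^ 2))) ≠ 1 := by
    intro h
    exact h2 (Subtype.ext (Subtype.ext h))
  obtain ⟨W, hW2, hWh, hWv⟩ := exists_invol hd hx g.1.1 (hG _ g.1.2) hπ2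
  have h3 := (no_fixed hd hsq hx g.1.1 hπ1 W hW2 hWh hWv).2 i
  exact h3 g.2

theorem two_part (hd : 1 ≤ d) (hsq : ¬ IsSquare (d + 1)) (hx : IsMaxETF d x)
    (G : Subgroup (Equiv.Perm (Fin (d ^ 2)))) (hG : ∀ π ∈ G, IsSym x π) (k : ℕ)
    (hk : 2 ^ k ∣ Nat.card G) : 2 ^ k ∣ d ^ 2 := by
  classical
  have : Fact (Nat.Prime 2) := ⟨Nat.prime_two⟩
  obtain ⟨H, hH⟩ := Sylow.exists_subgroup_card_pow_prime 2 hk
  have hfree : ∀ i : Fin (d ^ 2), Nat.card (MulAction.stabilizer H i) = 1 := by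
    intro i
    rw [Nat.card_eq_one_iff_unique]
    refine ⟨⟨fun a b => ?_⟩, ⟨1⟩⟩
    have key : ∀ a : MulAction.stabilizer H i, a = 1 := by
      intro a
      have h1 : (a.1.1 : G) ∈ MulAction.stabilizer G i := a.2
      set b : MulAction.stabilizer G i := ⟨a.1.1, h1⟩ with hb
      have h2 : orderOf b ∣ Nat.card (MulAction.stabilizer G i) := orderOf_dvd_natCard b
      have h3 : orderOf b ∣ 2 ^ k := by
        have h4 : orderOf b = orderOf a.1 := by
          have e1 : orderOf b = orderOf (a.1.1 : G) := by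
            have := orderOf_injective (MulAction.stabilizer G i).subtype
              (Subgroup.subtype_injective _) b
            rw [← this]; rfl
          have e2 : orderOf a.1 = orderOf (a.1.1 : G) := by
            have := orderOf_injective H.subtype (Subgroup.subtype_injective _) a.1
            rw [← this]; rfl
          rw [e1, e2]
        rw [h4, ← hH]
        exact orderOf_dvd_natCard a.1
      have h5 : orderOf b = 1 := by
        have hodd := stab_odd hd hsq hx G hG i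
        have hcop : Nat.Coprime (Nat.card (MulAction.stabilizer G i)) (2 ^ k) :=
          Nat.Coprime.pow_right k (Nat.coprime_two_right.mpr hodd)
        exact Nat.eq_one_of_dvd_coprimes hcop h2 h3
      rw [orderOf_eq_one_iff] at h5
      have h6 : (a.1.1 : G) = 1 := congrArg Subtype.val h5
      exact Subtype.ext (Subtype.ext h6)
    rw [key a, key b]
  have : Fintype H := Fintype.ofFinite H
  have hcard := MulAction.card_eq_sum_card_group_div_card_stabilizer H (Fin (d ^ 2))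
  have h7 : ∀ ω : Quotient (MulAction.orbitRel H (Fin (d ^ 2))),
      Fintype.card H / Fintype.card (MulAction.stabilizer H ω.out) = 2 ^ k := by
    intro ω
    have := hfree ω.out
    rw [Nat.card_eq_fintype_card] at this
    rw [this, Nat.div_one, ← hH, Nat.card_eq_fintype_card]
  rw [Finset.sum_congr rfl fun ω _ => h7 ω, Finset.sum_const, Fintype.card_fin] at hcard
  rw [hcard]
  exact ⟨_, by rw [smul_eq_mul, mul_comm]⟩

end Pool.Agent.H109R2.SymGroup
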