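import Mathlib
import Pool.Agent.H109R2.SICBase
import Pool.Agent.H109R2.SymGroup

set_option autoImplicit false

namespace Pool.Agent.H109R2.FixCount

open Matrix Module Pool.Agent.H109R2.SIC Pool.Agent.H109R2.SymGroup
open scoped ComplexOrder

variable {d : ℕ} {x : Fin (d ^ 2) → EuclideanSpace ℂ (Fin d)}

/-- the number of fixed points. -/
def fx (π : Equiv.Perm (Fin (d ^ 2))) : ℕ := (Finset.univ.filter fun i => π i = i).card

theorem fx_compl (π : Equiv.Perm (Fin (d ^ 2))) :
    ((Finset.univ.filter fun i => ¬ π i = i).card : ℂ) = (d : ℂ) ^ 2 - fx π := by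
  have h := Finset.card_filter_add_card_filter_not (s := (Finset.univ : Finset (Fin (d ^ 2))))
    (fun i => π i = i)
  rw [Finset.card_univ, Fintype.card_fin] at h
  have h2 : ((fx π + (Finset.univ.filter fun i => ¬ π i = i).card : ℕ) : ℂ) = ((d ^ 2 : ℕ) : ℂ) :=
    congrArg (Nat.cast (R := ℂ)) h
  push_cast at h2
  linear_combination h2

/-- `a i = 1` on fixed points and `1/(d+1)` otherwise: the sum. -/
theorem sum_ite_fx (π : Equiv.Perm (Fin (d ^ 2))) :
    ∑ i, (if i = π i then (1 : ℂ) else 1 / ((d : ℂ) + 1))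
      = ((d : ℂ) / ((d : ℂ) + 1)) * (d + fx π) := by
  have h0 : ∀ i, (if i = π i then (1 : ℂ) else 1 / ((d : ℂ) + 1))
      = if π i = i then (1 : ℂ) else 1 / ((d : ℂ) + 1) := by
    intro i
    by_cases h : i = π i
    · rw [if_pos h, if_pos h.symm]
    · rw [if_neg h, if_neg (Ne.symm h)]
  rw [Finset.sum_congr rfl fun i _ => h0 i, Finset.sum_ite]
  simp only [Finset.sum_const, nsmul_eq_mul, mul_one]
  rw [fx_compl]
  have h1 : ((Finset.univ.filter fun i => π i = i).card : ℂ) = fx π := rfl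
  rw [h1]
  have := d1_ne (d := d)
  field_simp
  ring

theorem unit_coeff (hx : IsMaxETF d x) (M : Matrix (Fin d) (Fin d) ℂ) (hM : Mᴴ * M = 1)
    (v : Fin d → ℂ) (hv : star v ⬝ᵥ v = 1) (j : Fin (d ^ 2)) (c : ℂ)
    (hc : M *ᵥ v = c • (x j).ofLp) : star c * c = 1 := by
  have h2 : star (M *ᵥ v) ⬝ᵥ (M *ᵥ v) = 1 := by
    rw [star_mulVec, ← Matrix.dotProduct_mulVec, Matrix.mulVec_mulVec, hM,
      Matrix.one_mulVec, hv]
  rw [hc, star_smul, smul_dotProduct, dotProduct_smul, dot_self hx, smul_eq_mul, smul_eq_mul,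
    mul_one] at h2
  exact h2

theorem count (hd : 1 ≤ d) (hx : IsMaxETF d x) (M : Matrix (Fin d) (Fin d) ℂ) (hM : Mᴴ * M = 1)
    (π : Equiv.Perm (Fin (d ^ 2))) (h : ∀ i, ∃ c : ℂ, M *ᵥ (x i).ofLp = c • (x (π i)).ofLp) :
    (fx π : ℂ) = trace M * star (trace M) := by
  have h1 := design2 hx M Mᴴ
  have hM' : M * Mᴴ = 1 := by
    exact _root_.mul_eq_one_comm.mp hM
  rw [hM', trace_one, Fintype.card_fin, trace_conjTranspose] at h1
  have h2 : ∀ i, trace (P x i * M) * trace (P x i * Mᴴ)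
      = if i = π i then (1 : ℂ) else 1 / ((d : ℂ) + 1) := by
    intro i
    obtain ⟨c, hc⟩ := h i
    have hcc := unit_coeff hx M hM _ (dot_self hx i) _ c hc
    have e1 : trace (P x i * M) = c * inner ℂ (x i) (x (π i)) := by
      rw [trace_P_mul_mulVec, hc, dotProduct_smul, smul_eq_mul, dot_eq_inner]
    have e2 : trace (P x i * Mᴴ) = star (trace (P x i * M)) := by
      rw [← trace_conjTranspose, conjTranspose_mul, P_herm, trace_mul_comm]
    rw [e2, e1, star_mul, ← inner_mul_inner hx i (π i)]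
    have h4 : star (inner ℂ (x i) (x (π i))) = inner ℂ (x (π i)) (x i) := inner_conj_symm _ _
    rw [h4]
    linear_combination (inner ℂ (x (π i)) (x i) * inner ℂ (x i) (x (π i))) * hcc
  rw [Finset.sum_congr rfl fun i _ => h2 i, sum_ite_fx] at h1
  have h3 := d1_ne (d := d)
  have h4 : (d : ℂ) ≠ 0 := by exact_mod_cast (by omega : d ≠ 0)
  field_simp at h1
  linear_combination h1

theorem bound (hd : 1 ≤ d) (hx : IsMaxETF d x) (M : Matrix (Fin d) (Fin d) ℂ) (hM : Mᴴ * M = 1)
    (π : Equiv.Perm (Fin (d ^ 2))) (hπ : π ≠ 1)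
    (h : ∀ i, ∃ c : ℂ, M *ᵥ (x i).ofLp = c • (x (π i)).ofLp) :
    ‖trace M‖ ≤ Real.sqrt ((d : ℝ) + 1) + 1 := by
  set s : ℝ := Real.sqrt ((d : ℝ) + 1) with hs
  have hdpos : (1 : ℝ) ≤ d := by exact_mod_cast hd
  have hs2 : s * s = (d : ℝ) + 1 := Real.mul_self_sqrt (by positivity)
  have hs1 : 1 < s := by
    rw [hs, Real.lt_sqrt (by norm_num)]
    linarith
  have hcount := count hd hx M hM π h
  have hF : (fx π : ℝ) = ‖trace M‖ ^ 2 := by
    have : trace M * star (trace M) = ((‖trace M‖ ^ 2 : ℝ) : ℂ) := by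
      rw [show star (trace M) = (starRingEnd ℂ) (trace M) from rfl, RCLike.mul_conj]
      norm_cast
    rw [this] at hcount
    exact_mod_cast hcount
  -- the first moment
  have h1 : ∑ i, trace (P x i * M) = (d : ℂ) * trace M := by
    rw [← trace_sum, ← Finset.sum_mul, sum_P hx, smul_mul_assoc, Matrix.one_mul, trace_smul,
      smul_eq_mul]
  have h2 : ∀ i, ‖trace (P x i * M)‖ = if π i = i then (1 : ℝ) else 1 / s := by
    intro i
    obtain ⟨c, hc⟩ := h i
    have hcc := unit_coeff hx M hM _ (dot_self hx i) _ c hc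
    have hcn : ‖c‖ = 1 := by
      have : star c * c = ((‖c‖ ^ 2 : ℝ) : ℂ) := by
        rw [show star c = (starRingEnd ℂ) c from rfl, RCLike.conj_mul]
        norm_cast
      rw [this] at hcc
      have h5 : ‖c‖ ^ 2 = 1 := by exact_mod_cast hcc
      exact (pow_eq_one_iff_of_nonneg (norm_nonneg _) (by norm_num)).mp h5
    have e1 : trace (P x i * M) = c * inner ℂ (x i) (x (π i)) := by
      rw [trace_P_mul_mulVec, hc, dotProduct_smul, smul_eq_mul, dot_eq_inner]
    rw [e1, norm_mul, hcn, one_mul]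
    split_ifs with hi
    · rw [hi, inner_self_eq_norm_sq_to_K, hx.1]; simp
    · exact hx.2 i (π i) (Ne.symm hi)
  have h3 : (d : ℝ) * ‖trace M‖ ≤ fx π + ((d : ℝ) ^ 2 - fx π) / s := by
    have e1 : (d : ℝ) * ‖trace M‖ = ‖∑ i, trace (P x i * M)‖ := by
      rw [h1, norm_mul]; simp
    rw [e1]
    refine (norm_sum_le _ _).trans ?_
    rw [Finset.sum_congr rfl fun i _ => h2 i, Finset.sum_ite]
    simp only [Finset.sum_const, nsmul_eq_mul, mul_one]
    have e2 : ((Finset.univ.filter fun i => ¬ π i = i).card : ℝ) = (d : ℝ) ^ 2 - fx π := by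
      have := fx_compl π
      exact_mod_cast this
    rw [e2]
    have e3 : ((Finset.univ.filter fun i => π i = i).card : ℝ) = fx π := rfl
    rw [e3]
    apply le_of_eq
    ring
  have h4 : fx π < d ^ 2 := by
    have h5 : fx π ≤ d ^ 2 := by
      have := Finset.card_le_univ (Finset.univ.filter fun i : Fin (d ^ 2) => π i = i)
      rwa [Fintype.card_fin] at this
    refine lt_of_le_of_ne h5 fun heq => hπ ?_
    have h6 : (Finset.univ.filter fun i : Fin (d ^ 2) => π i = i) = Finset.univ := by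
      apply Finset.eq_univ_of_card
      rw [Fintype.card_fin]; exact heq
    ext1 i
    have : i ∈ (Finset.univ.filter fun i : Fin (d ^ 2) => π i = i) := by rw [h6]; simp
    exact (Finset.mem_filter.mp this).2
  have h5 : ‖trace M‖ < d := by
    have h6 : ‖trace M‖ ^ 2 < (d : ℝ) ^ 2 := by
      rw [← hF]; exact_mod_cast h4
    exact lt_of_pow_lt_pow_left₀ 2 (by positivity) h6
  rw [hF] at h3
  set f := ‖trace M‖ with hf
  have hf0 : 0 ≤ f := norm_nonneg _
  have h7 : (d : ℝ) * f * s ≤ f ^ 2 * s + ((d : ℝ) ^ 2 - f ^ 2) := by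
    have hspos : 0 < s := by linarith
    have := mul_le_mul_of_nonneg_right h3 hspos.le
    calc (d : ℝ) * f * s ≤ (f ^ 2 + ((d : ℝ) ^ 2 - f ^ 2) / s) * s := this
      _ = _ := by field_simp
  -- `(f - d)(f (s - 1) - d) ≥ 0`
  have h8 : 0 ≤ (f - d) * (f * (s - 1) - d) := by nlinarith
  have h9 : f * (s - 1) - d ≤ 0 := by
    by_contra hcon
    push Not at hcon
    have : (f - d) * (f * (s - 1) - d) < 0 := mul_neg_of_neg_of_pos (by linarith) hcon
    linarith
  have h10 : (d : ℝ) = (s - 1) * (s + 1) := by nlinarith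
  rw [h10] at h9
  have h11 : (s - 1) * (f - (s + 1)) ≤ 0 := by nlinarith
  by_contra hcon
  push Not at hcon
  have : 0 < (s - 1) * (f - (s + 1)) := mul_pos (by linarith) (by linarith)
  linarith

/-- the design property in coordinates. -/
theorem design_entries (hx : IsMaxETF d x) (a b c e : Fin d) :
    ∑ i, P x i a b * P x i c e = ((d : ℂ) / ((d : ℂ) + 1)) *
      ((if a = b ∧ c = e then 1 else 0) + (if a = e ∧ b = c then 1 else 0)) := by
  have h := design2 hx (Matrix.single b a (1 : ℂ)) (Matrix.single e c (1 : ℂ))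
  have e1 : ∀ (i : Fin (d ^ 2)) (p q : Fin d), trace (P x i * Matrix.single q p (1 : ℂ))
      = P x i p q := by
    intro i p q
    rw [Matrix.trace_mul_single]
    simp
  simp only [e1] at h
  rw [h]
  congr 1
  rw [add_comm]
  congr 1
  · by_cases h1 : a = b <;> by_cases h2 : c = e
    · subst h1; subst h2
      rw [Matrix.trace_single_eq_same, Matrix.trace_single_eq_same]; simp
    · rw [Matrix.trace_single_eq_of_ne _ _ _ (Ne.symm h2)]; simp [h2]
    · rw [Matrix.trace_single_eq_of_ne _ _ _ (Ne.symm h1)]; simp [h1]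
    · rw [Matrix.trace_single_eq_of_ne _ _ _ (Ne.symm h1)]; simp [h1]
  · by_cases h1 : a = e
    · subst h1
      rw [Matrix.single_mul_single_same]
      by_cases h2 : b = c
      · subst h2; rw [Matrix.trace_single_eq_same]; simp
      · rw [Matrix.trace_single_eq_of_ne _ _ _ h2]; simp [h2]
    · rw [Matrix.single_mul_single_of_ne _ _ _ _ h1]
      simp [h1]

theorem anti_count (hd : 1 ≤ d) (hx : IsMaxETF d x) (M : Matrix (Fin d) (Fin d) ℂ)
    (hM : Mᴴ * M = 1) (π : Equiv.Perm (Fin (d ^ 2)))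
    (h : ∀ i, ∃ c : ℂ, M *ᵥ star (x i).ofLp = c • (x (π i)).ofLp) :
    (fx π : ℂ) = trace (M * M.map star) := by
  have hM' : M * Mᴴ = 1 := _root_.mul_eq_one_comm.mp hM
  have h2 : ∀ i, trace (P x i * (M * (P x i)ᵀ * Mᴴ))
      = if i = π i then (1 : ℂ) else 1 / ((d : ℂ) + 1) := by
    intro i
    obtain ⟨c, hc⟩ := h i
    have hv : star (star (x i).ofLp) ⬝ᵥ star (x i).ofLp = 1 := by
      rw [star_star, ← dotProduct_comm, dot_self hx i]
    have hcc := unit_coeff hx M hM _ hv _ c hc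
    have e1 : M * (P x i)ᵀ * Mᴴ = P x (π i) := by
      have e2 : (P x i)ᵀ = vecMulVec (star (x i).ofLp) (star (star (x i).ofLp)) := by
        ext a b
        simp [P, vecMulVec_apply, mul_comm]
      rw [e2, Matrix.mul_vecMulVec, Matrix.vecMulVec_mul, ← star_mulVec, hc, star_smul,
        Matrix.smul_vecMulVec, Matrix.vecMulVec_smul, smul_smul, mul_comm, hcc, one_smul]
      rfl
    rw [e1, trace_PP hx]
  have h3 : ∑ i, trace (P x i * (M * (P x i)ᵀ * Mᴴ))
      = ((d : ℂ) / ((d : ℂ) + 1)) * (d + trace (M * M.map star)) := by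
    have e1 : ∀ i, trace (P x i * (M * (P x i)ᵀ * Mᴴ))
        = ∑ a, ∑ b, ∑ c, ∑ e, (P x i a b * P x i e c) * (M b c * star (M a e)) := by
      intro i
      simp only [trace, diag_apply, Matrix.mul_apply, Matrix.transpose_apply,
        Matrix.conjTranspose_apply, Finset.mul_sum, Finset.sum_mul]
      refine Finset.sum_congr rfl fun a _ => Finset.sum_congr rfl fun b _ => ?_
      rw [Finset.sum_comm]
      refine Finset.sum_congr rfl fun c _ => Finset.sum_congr rfl fun e _ => ?_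
      ring
    simp only [e1]
    rw [Finset.sum_comm]
    have e2 : ∀ a, ∑ i, ∑ b, ∑ c, ∑ e, (P x i a b * P x i e c) * (M b c * star (M a e))
        = ∑ b, ∑ c, ∑ e, (∑ i, P x i a b * P x i e c) * (M b c * star (M a e)) := by
      intro a
      rw [Finset.sum_comm]
      refine Finset.sum_congr rfl fun b _ => ?_
      rw [Finset.sum_comm]
      refine Finset.sum_congr rfl fun c _ => ?_
      rw [Finset.sum_comm]
      refine Finset.sum_congr rfl fun e _ => ?_
      rw [Finset.sum_mul]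
    simp only [e2, design_entries hx]
    have e3 : ∀ a b c e : Fin d, ((d : ℂ) / ((d : ℂ) + 1)) *
        ((if a = b ∧ e = c then (1 : ℂ) else 0) + (if a = c ∧ b = e then (1 : ℂ) else 0)) *
          (M b c * star (M a e))
        = (if e = b then (if c = a then ((d : ℂ) / ((d : ℂ) + 1)) * (M b c * star (M a e)) else 0)
            else 0)
          + (if e = c then (if b = a then ((d : ℂ) / ((d : ℂ) + 1)) * (M b c * star (M a e)) else 0)
            else 0) := by
      intro a b c e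
      rw [mul_add, add_mul, add_comm]
      congr 1
      · by_cases h1 : a = c <;> by_cases h2 : b = e
        · rw [if_pos ⟨h1, h2⟩, if_pos h2.symm, if_pos h1.symm]; ring
        · rw [if_neg (by tauto), if_neg (Ne.symm h2)]; ring
        · rw [if_neg (by tauto), if_pos h2.symm, if_neg (Ne.symm h1)]; ring
        · rw [if_neg (by tauto), if_neg (Ne.symm h2)]; ring
      · by_cases h1 : a = b <;> by_cases h2 : e = c
        · rw [if_pos ⟨h1, h2⟩, if_pos h2, if_pos h1.symm]; ring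
        · rw [if_neg (by tauto), if_neg h2]; ring
        · rw [if_neg (by tauto), if_pos h2, if_neg (Ne.symm h1)]; ring
        · rw [if_neg (by tauto), if_neg h2]; ring
    simp only [e3, Finset.sum_add_distrib, Finset.sum_ite_eq', Finset.mem_univ, if_true]
    have e4 : ∑ a, ∑ b, ((d : ℂ) / ((d : ℂ) + 1)) * (M b a * star (M a b))
        = ((d : ℂ) / ((d : ℂ) + 1)) * trace (M * M.map star) := by
      simp only [trace, diag_apply, Matrix.mul_apply, Matrix.map_apply, Finset.mul_sum]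
      rw [Finset.sum_comm]
    have e5 : ∑ a, ∑ b, ((d : ℂ) / ((d : ℂ) + 1)) * (M a b * star (M a b))
        = ((d : ℂ) / ((d : ℂ) + 1)) * d := by
      have e6 : trace (M * Mᴴ) = d := by rw [hM', trace_one, Fintype.card_fin]
      rw [← e6]
      simp only [trace, diag_apply, Matrix.mul_apply, Matrix.conjTranspose_apply, Finset.mul_sum]
    rw [mul_add, ← e4, ← e5, add_comm]
    congr 1
    refine Finset.sum_congr rfl fun a _ => ?_
    rw [Finset.sum_comm]
    simp only [Finset.sum_ite_eq', Finset.mem_univ, if_true]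
  rw [Finset.sum_congr rfl fun i _ => h2 i, sum_ite_fx] at h3
  have h4 := d1_ne (d := d)
  have h5 : (d : ℂ) ≠ 0 := by exact_mod_cast (by omega : d ≠ 0)
  field_simp at h3
  linear_combination h3

theorem isometry_matrix (U : EuclideanSpace ℂ (Fin d) →ₗᵢ[ℂ] EuclideanSpace ℂ (Fin d)) :
    ∃ M : Matrix (Fin d) (Fin d) ℂ, Mᴴ * M = 1 ∧ ∀ v, M *ᵥ v.ofLp = (U v).ofLp := by
  set M : Matrix (Fin d) (Fin d) ℂ := Matrix.toEuclideanLin.symm U.toLinearMap
  have hM : ∀ v, M *ᵥ v.ofLp = (U v).ofLp := by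
    intro v
    have h1 : Matrix.toEuclideanLin M = U.toLinearMap :=
      LinearEquiv.apply_symm_apply _ _
    have h2 : Matrix.toEuclideanLin M v = U v := by rw [h1]; rfl
    rw [← h2]
    rfl
  refine ⟨M, ?_, hM⟩
  have h3 : ∀ v w : Fin d → ℂ, star v ⬝ᵥ ((Mᴴ * M) *ᵥ w) = star v ⬝ᵥ w := by
    intro v w
    have h4 := U.inner_map_map (WithLp.toLp 2 v) (WithLp.toLp 2 w)
    rw [inner_eq, inner_eq] at h4
    have h5 : star (M *ᵥ v) ⬝ᵥ (M *ᵥ w) = star v ⬝ᵥ w := by
      have e1 := hM (WithLp.toLp 2 v)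
      have e2 := hM (WithLp.toLp 2 w)
      change M *ᵥ v = _ at e1
      change M *ᵥ w = _ at e2
      rw [e1, e2]
      exact h4
    rw [← h5, star_mulVec, ← Matrix.dotProduct_mulVec, Matrix.mulVec_mulVec]
  ext i j
  have h4 := h3 (Pi.single i 1) (Pi.single j 1)
  have h5 : star (Pi.single i (1 : ℂ) : Fin d → ℂ) = Pi.single i 1 := by
    ext k
    by_cases hk : k = i
    · subst hk; simp
    · simp [Pi.single_eq_of_ne hk]
  rw [h5] at h4
  simpa [Matrix.one_apply, Pi.single_apply, eq_comm] using h4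

/-- `v ↦ conj (J v)` as a linear isometry. -/
noncomputable def conjJ
    (J : EuclideanSpace ℂ (Fin d) ≃ₛₗᵢ[starRingEnd ℂ] EuclideanSpace ℂ (Fin d)) :
    EuclideanSpace ℂ (Fin d) →ₗᵢ[ℂ] EuclideanSpace ℂ (Fin d) where
  toFun v := WithLp.toLp 2 (star (J v).ofLp)
  map_add' v w := by
    rw [map_add]
    ext i
    simp
  map_smul' c v := by
    rw [map_smulₛₗ]
    ext i
    simp
  norm_map' v := by
    rw [← J.norm_map v, EuclideanSpace.norm_eq, EuclideanSpace.norm_eq]
    simp

theorem anti_matrix (J : EuclideanSpace ℂ (Fin d) ≃ₛₗᵢ[starRingEnd ℂ] EuclideanSpace ℂ (Fin d)) :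
    ∃ M : Matrix (Fin d) (Fin d) ℂ, Mᴴ * M = 1 ∧ ∀ v, M *ᵥ star v.ofLp = (J v).ofLp := by
  obtain ⟨K, hK, hKv⟩ := isometry_matrix (conjJ J)
  refine ⟨K.map star, ?_, ?_⟩
  · have h1 := congrArg (fun A : Matrix (Fin d) (Fin d) ℂ => A.map star) hK
    have h2 : (Kᴴ * K).map star = (K.map star)ᴴ * (K.map star) := by
      ext i j
      simp [Matrix.mul_apply]
    rw [← h2, h1]
    ext i j
    by_cases hij : i = j
    · subst hij; simp
    · simp [Matrix.one_apply_ne hij]
  · intro v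
    have h1 : K *ᵥ v.ofLp = star (J v).ofLp := hKv v
    have h2 := congrArg star h1
    rw [star_star] at h2
    rw [← h2]
    ext i
    simp [mulVec, dotProduct]

/-- an antiunitary symmetry `J` satisfies `#Fix(J)² = #Fix(J²)`. -/
theorem anti_sq (hd : 1 ≤ d) (hx : IsMaxETF d x)
    (J : EuclideanSpace ℂ (Fin d) ≃ₛₗᵢ[starRingEnd ℂ] EuclideanSpace ℂ (Fin d))
    (π : Equiv.Perm (Fin (d ^ 2))) (h : ∀ i, ∃ c : ℂ, J (x i) = c • x (π i)) :
    fx π ^ 2 = fx (π * π) ∧ ∃ M : Matrix (Fin d) (Fin d) ℂ, Mᴴ * M = 1 ∧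
      ∀ i, ∃ c : ℂ, M *ᵥ (x i).ofLp = c • (x ((π * π) i)).ofLp := by
  obtain ⟨M, hM, hMv⟩ := anti_matrix J
  have h1 : ∀ i, ∃ c : ℂ, M *ᵥ star (x i).ofLp = c • (x (π i)).ofLp := by
    intro i
    obtain ⟨c, hc⟩ := h i
    exact ⟨c, by rw [hMv, hc]; rfl⟩
  have h2 := anti_count hd hx M hM π h1
  have hN : (M * M.map star)ᴴ * (M * M.map star) = 1 := by
    rw [conjTranspose_mul]
    have h3 : (M.map star)ᴴ * (M.map star) = 1 := by
      have h4 : (Mᴴ * M).map star = (M.map star)ᴴ * (M.map star) := by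
        ext i j
        simp [Matrix.mul_apply]
      rw [← h4, hM]
      ext i j
      by_cases hij : i = j
      · subst hij; simp
      · simp [Matrix.one_apply_ne hij]
    calc (M.map star)ᴴ * Mᴴ * (M * M.map star) = (M.map star)ᴴ * (Mᴴ * M) * M.map star := by
          noncomm_ring
      _ = 1 := by rw [hM, mul_one, h3]
  have hN2 : ∀ i, ∃ c : ℂ, (M * M.map star) *ᵥ (x i).ofLp = c • (x ((π * π) i)).ofLp := by
    intro i
    obtain ⟨c, hc⟩ := h1 i
    obtain ⟨c', hc'⟩ := h1 (π i)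
    refine ⟨star c * c', ?_⟩
    have h5 : M.map star *ᵥ (x i).ofLp = star (M *ᵥ star (x i).ofLp) := by
      ext k
      simp [mulVec, dotProduct]
    rw [← Matrix.mulVec_mulVec, h5, hc, star_smul, Matrix.mulVec_smul, hc', smul_smul]
    rfl
  refine ⟨?_, _, hN, hN2⟩
  have h6 := count hd hx _ hN (π * π) hN2
  rw [← h2] at h6
  have h7 : ((fx π ^ 2 : ℕ) : ℂ) = (fx (π * π) : ℂ) := by
    rw [h6]
    push_cast
    rw [show star (fx π : ℂ) = fx π by simp]
    ring
  exact_mod_cast h7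

end Pool.Agent.H109R2.FixCount
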