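import Mathlib
import Pool.Agent.H109R2.SICBase
import Pool.Agent.H109R2.Invol

set_option autoImplicit false

namespace Pool.Agent.H109R2.Phases

open Matrix Module Pool.Agent.H109R2.SIC
open scoped ComplexOrder

variable {d : ℕ} {x : Fin (d ^ 2) → EuclideanSpace ℂ (Fin d)}

/-- normalised triple product. -/
noncomputable def nt (x : Fin (d ^ 2) → EuclideanSpace ℂ (Fin d)) (i j k : Fin (d ^ 2)) : ℂ :=
  ((Real.sqrt ((d : ℝ) + 1) : ℝ) : ℂ) ^ 3 *
    (inner ℂ (x i) (x j) * inner ℂ (x j) (x k) * inner ℂ (x k) (x i))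

theorem sq_s : (((Real.sqrt ((d : ℝ) + 1) : ℝ) : ℂ)) * ((Real.sqrt ((d : ℝ) + 1) : ℝ) : ℂ)
    = (d : ℂ) + 1 := by
  rw [← Complex.ofReal_mul, Real.mul_self_sqrt (by positivity)]
  push_cast; rfl

theorem trace_P_vec (i j k : Fin (d ^ 2)) :
    trace (P x k * vecMulVec (x j).ofLp (star (x i).ofLp))
      = inner ℂ (x i) (x k) * inner ℂ (x k) (x j) := by
  rw [Matrix.mul_vecMulVec, trace_vecMulVec, dotProduct_comm, ← dot_eq_inner, ← dot_eq_inner]
  have h : P x k *ᵥ (x j).ofLp = (star (x k).ofLp ⬝ᵥ (x j).ofLp) • (x k).ofLp := by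
    have : P x k = vecMulVec (x k).ofLp (star (x k).ofLp) := rfl
    rw [this, Matrix.vecMulVec_mulVec]
    simp
  rw [h, dotProduct_smul, smul_eq_mul, mul_comm]

theorem sum_inner (hx : IsMaxETF d x) (i j : Fin (d ^ 2)) :
    ∑ k, inner ℂ (x i) (x k) * inner ℂ (x k) (x j) = (d : ℂ) * inner ℂ (x i) (x j) := by
  simp only [← trace_P_vec]
  rw [← trace_sum, ← Finset.sum_mul, sum_P hx, smul_mul_assoc, Matrix.one_mul, trace_smul,
    trace_vecMulVec, dotProduct_comm, dot_eq_inner, smul_eq_mul]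

theorem sum_inner2 (hx : IsMaxETF d x) (i j : Fin (d ^ 2)) :
    ∑ k, (inner ℂ (x i) (x k) * inner ℂ (x k) (x j)) ^ 2
      = (2 * d / ((d : ℂ) + 1)) * inner ℂ (x i) (x j) ^ 2 := by
  have h := design2 hx (vecMulVec (x j).ofLp (star (x i).ofLp))
    (vecMulVec (x j).ofLp (star (x i).ofLp))
  simp only [trace_P_vec] at h
  rw [Matrix.vecMulVec_mul_vecMulVec, Matrix.vecMulVec_smul, trace_smul, trace_vecMulVec,
    dotProduct_comm (x j).ofLp, dot_eq_inner] at h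
  simp only [pow_two]
  rw [h]
  simp only [smul_eq_mul]
  ring

theorem self_inner (hx : IsMaxETF d x) (i : Fin (d ^ 2)) : inner ℂ (x i) (x i) = (1 : ℂ) := by
  rw [← dot_eq_inner, dot_self hx]

/-- the index set. -/
def others (i j : Fin (d ^ 2)) : Finset (Fin (d ^ 2)) := (Finset.univ.erase i).erase j

theorem sum_others {i j : Fin (d ^ 2)} (hij : i ≠ j) (f : Fin (d ^ 2) → ℂ) :
    ∑ k ∈ others i j, f k = ∑ k, f k - f i - f j := by
  have h1 : f j + ∑ k ∈ others i j, f k = ∑ k ∈ Finset.univ.erase i, f k :=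
    Finset.add_sum_erase _ _ (Finset.mem_erase.mpr ⟨hij.symm, Finset.mem_univ _⟩)
  have h2 : f i + ∑ k ∈ Finset.univ.erase i, f k = ∑ k, f k :=
    Finset.add_sum_erase _ _ (Finset.mem_univ _)
  linear_combination h1 + h2

theorem card_others {i j : Fin (d ^ 2)} (hij : i ≠ j) :
    ((others i j).card : ℂ) = (d : ℂ) ^ 2 - 2 := by
  have h := sum_others hij (fun _ => (1 : ℂ))
  simp only [Finset.sum_const, Finset.card_univ, Fintype.card_fin, nsmul_eq_mul, mul_one] at h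
  rw [h]
  push_cast
  ring

theorem sum1 (hx : IsMaxETF d x) {i j : Fin (d ^ 2)} (hij : i ≠ j) :
    ∑ k ∈ others i j, nt x i k j
      = ((Real.sqrt ((d : ℝ) + 1) : ℝ) : ℂ) * ((d : ℂ) - 2) := by
  have h1 : ∀ k, nt x i k j = (((Real.sqrt ((d : ℝ) + 1) : ℝ) : ℂ) ^ 3 * inner ℂ (x j) (x i)) *
      (inner ℂ (x i) (x k) * inner ℂ (x k) (x j)) := by
    intro k; unfold nt; ring
  simp only [h1, ← Finset.mul_sum]
  rw [sum_others hij, sum_inner hx, self_inner hx, self_inner hx]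
  have h2 := inner_mul_inner hx i j
  rw [if_neg hij] at h2
  have h3 := sq_s (d := d)
  have h4 := d1_ne (d := d)
  set s := ((Real.sqrt ((d : ℝ) + 1) : ℝ) : ℂ)
  calc s ^ 3 * inner ℂ (x j) (x i) * ((d : ℂ) * inner ℂ (x i) (x j) - 1 * inner ℂ (x i) (x j)
        - inner ℂ (x i) (x j) * 1)
      = s * (s * s) * (inner ℂ (x i) (x j) * inner ℂ (x j) (x i)) * ((d : ℂ) - 2) := by ring
    _ = s * ((d : ℂ) - 2) := by rw [h2, h3]; field_simp

theorem sum2 (hx : IsMaxETF d x) {i j : Fin (d ^ 2)} (hij : i ≠ j) :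
    ∑ k ∈ others i j, nt x i k j ^ 2 = -2 := by
  have h1 : ∀ k, nt x i k j ^ 2
      = (((Real.sqrt ((d : ℝ) + 1) : ℝ) : ℂ) ^ 3 * inner ℂ (x j) (x i)) ^ 2 *
      (inner ℂ (x i) (x k) * inner ℂ (x k) (x j)) ^ 2 := by
    intro k; unfold nt; ring
  simp only [h1, ← Finset.mul_sum]
  rw [sum_others hij, sum_inner2 hx, self_inner hx, self_inner hx]
  have h2 := inner_mul_inner hx i j
  rw [if_neg hij] at h2
  have h3 := sq_s (d := d)
  have h4 := d1_ne (d := d)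
  set s := ((Real.sqrt ((d : ℝ) + 1) : ℝ) : ℂ)
  calc (s ^ 3 * inner ℂ (x j) (x i)) ^ 2 *
      (2 * d / ((d : ℂ) + 1) * inner ℂ (x i) (x j) ^ 2 - (1 * inner ℂ (x i) (x j)) ^ 2
        - (inner ℂ (x i) (x j) * 1) ^ 2)
      = (s * s) ^ 3 * (inner ℂ (x i) (x j) * inner ℂ (x j) (x i)) ^ 2 *
        (2 * d / ((d : ℂ) + 1) - 2) := by ring
    _ = -2 := by rw [h2, h3]; field_simp; ring

theorem nt_norm (hx : IsMaxETF d x) {i j k : Fin (d ^ 2)} (hij : i ≠ j) (hjk : j ≠ k)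
    (hki : k ≠ i) : ‖nt x i j k‖ = 1 := by
  unfold nt
  rw [norm_mul, norm_pow, norm_mul, norm_mul, hx.2 i j hij, hx.2 j k hjk, hx.2 k i hki]
  have h1 : 0 < Real.sqrt ((d : ℝ) + 1) := Real.sqrt_pos.mpr (by positivity)
  rw [Complex.norm_real, Real.norm_eq_abs, abs_of_pos h1]
  field_simp

theorem nt_conj (i j k : Fin (d ^ 2)) : star (nt x i j k) = nt x i k j := by
  unfold nt
  rw [star_mul', star_pow, star_mul', star_mul']
  have h : ∀ a b : Fin (d ^ 2), star (inner ℂ (x a) (x b)) = (inner ℂ (x b) (x a) : ℂ) :=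
    fun a b => inner_conj_symm _ _
  rw [h, h, h]
  have h2 : star ((Real.sqrt ((d : ℝ) + 1) : ℝ) : ℂ) = ((Real.sqrt ((d : ℝ) + 1) : ℝ) : ℂ) :=
    Complex.conj_ofReal _
  rw [h2]
  ring

/-- Galois: squaring odd order roots of unity. -/
theorem galois_sq (n : ℕ) (hn : Odd n) (ζ : ℂ) (hζ : IsPrimitiveRoot ζ n) (f : Polynomial ℚ)
    (hf : Polynomial.aeval ζ f = 0) : Polynomial.aeval (ζ ^ 2) f = 0 := by
  have hn0 : 0 < n := hn.pos
  have h1 : minpoly ℚ ζ ∣ f := minpoly.dvd ℚ ζ hf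
  have h2 : IsPrimitiveRoot (ζ ^ 2) n := hζ.pow_of_coprime 2 (Nat.coprime_two_left.mpr hn)
  have h3 : Polynomial.cyclotomic n ℚ = minpoly ℚ ζ := Polynomial.cyclotomic_eq_minpoly_rat hζ hn0
  have h4 : Polynomial.cyclotomic n ℚ = minpoly ℚ (ζ ^ 2) :=
    Polynomial.cyclotomic_eq_minpoly_rat h2 hn0
  obtain ⟨g, rfl⟩ := h1
  rw [map_mul, ← h3, h4, minpoly.aeval, zero_mul]

theorem sum_sq_of (n : ℕ) (hn : Odd n) {ι : Type*} (S : Finset ι) (η : ι → ℂ)
    (h : ∀ k ∈ S, η k ^ n = 1) (F : Polynomial ℚ)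
    (hr : Polynomial.aeval (∑ k ∈ S, η k) F = 0) :
    Polynomial.aeval (∑ k ∈ S, η k ^ 2) F = 0 := by
  classical
  have hn0 : n ≠ 0 := hn.pos.ne'
  have hζ := Complex.isPrimitiveRoot_exp n hn0
  set ζ := Complex.exp (2 * Real.pi * Complex.I / n)
  have ha : ∀ k, ∃ a : ℕ, k ∈ S → ζ ^ a = η k := by
    intro k
    by_cases hk : k ∈ S
    · have : NeZero n := ⟨hn0⟩
      obtain ⟨a, -, ha⟩ := hζ.eq_pow_of_pow_eq_one (h k hk)
      exact ⟨a, fun _ => ha⟩
    · exact ⟨0, fun h => absurd h hk⟩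
  choose a ha using ha
  set g : Polynomial ℚ := ∑ k ∈ S, Polynomial.X ^ (a k) with hg
  have e1 : Polynomial.aeval ζ g = ∑ k ∈ S, η k := by
    rw [hg, map_sum]
    refine Finset.sum_congr rfl fun k hk => ?_
    rw [map_pow, Polynomial.aeval_X, ha k hk]
  have e2 : Polynomial.aeval (ζ ^ 2) g = ∑ k ∈ S, η k ^ 2 := by
    rw [hg, map_sum]
    refine Finset.sum_congr rfl fun k hk => ?_
    rw [map_pow, Polynomial.aeval_X, ← ha k hk, ← pow_mul, ← pow_mul, mul_comm]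
  have e3 : Polynomial.aeval ζ (F.comp g) = 0 := by
    rw [Polynomial.aeval_comp, e1, hr]
  have e4 := galois_sq n hn ζ hζ _ e3
  rw [Polynomial.aeval_comp, e2] at e4
  exact e4

/-- the odd order case. -/
theorem odd_phases (hd : 2 ≤ d) (hx : IsMaxETF d x) (n : ℕ) (hn : Odd n) (ε : ℂ)
    (hε : ε = 1 ∨ ε = -1) (i j : Fin (d ^ 2)) (hij : i ≠ j)
    (h : ∀ k, k ≠ i → k ≠ j → (ε * nt x i k j) ^ n = 1) : d = 3 ∧ ε = -1 := by
  have hεε : ε ^ 2 = 1 := by rcases hε with h | h <;> rw [h] <;> norm_num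
  have hmem : ∀ k ∈ others i j, (ε * nt x i k j) ^ n = 1 := by
    intro k hk
    have h1 := Finset.mem_erase.mp hk
    exact h k (Finset.mem_erase.mp h1.2).1 h1.1
  have hs1 : ∑ k ∈ others i j, ε * nt x i k j
      = ε * (((Real.sqrt ((d : ℝ) + 1) : ℝ) : ℂ) * ((d : ℂ) - 2)) := by
    rw [← Finset.mul_sum, sum1 hx hij]
  have hs2 : ∑ k ∈ others i j, (ε * nt x i k j) ^ 2 = -2 := by
    simp only [mul_pow, hεε, one_mul]
    exact sum2 hx hij
  have h3 := sq_s (d := d)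
  have h4 := sum_sq_of n hn (others i j) (fun k => ε * nt x i k j) hmem
    (Polynomial.X ^ 2 - Polynomial.C (((d : ℚ) + 1) * ((d : ℚ) - 2) ^ 2)) (by
      rw [hs1]
      simp only [map_sub, map_pow, Polynomial.aeval_X, Polynomial.aeval_C]
      have e : (algebraMap ℚ ℂ) (((d : ℚ) + 1) * ((d : ℚ) - 2) ^ 2)
          = ((d : ℂ) + 1) * ((d : ℂ) - 2) ^ 2 := by
        simp
      rw [e, ← h3]
      linear_combination (((Real.sqrt ((d : ℝ) + 1) : ℝ) : ℂ) * ((d : ℂ) - 2)) ^ 2 * hεε)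
  have hd3 : d = 3 := by
    rw [hs2] at h4
    simp only [map_sub, map_pow, Polynomial.aeval_X, Polynomial.aeval_C] at h4
    have e : (algebraMap ℚ ℂ) (((d : ℚ) + 1) * ((d : ℚ) - 2) ^ 2)
        = ((d : ℂ) + 1) * ((d : ℂ) - 2) ^ 2 := by
      simp
    rw [e] at h4
    have h5 : (((d : ℤ) + 1) * ((d : ℤ) - 2) ^ 2 : ℂ) = ((4 : ℤ) : ℂ) := by
      push_cast
      linear_combination -h4
    have h6 : ((d : ℤ) + 1) * ((d : ℤ) - 2) ^ 2 = 4 := by exact_mod_cast h5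
    have h7 : (d : ℤ) ^ 2 * ((d : ℤ) - 3) = 0 := by linear_combination h6
    rcases mul_eq_zero.mp h7 with h8 | h8
    · have : (d : ℤ) = 0 := by simpa using h8
      omega
    · omega
  refine ⟨hd3, ?_⟩
  subst hd3
  have hsq : ((Real.sqrt (((3 : ℕ) : ℝ) + 1) : ℝ) : ℂ) = 2 := by
    have : Real.sqrt (((3 : ℕ) : ℝ) + 1) = 2 := by
      rw [show (((3 : ℕ) : ℝ) + 1) = 2 ^ 2 by norm_num]
      exact Real.sqrt_sq (by norm_num)
    rw [this]; norm_num
  rcases hε with h | h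
  · exfalso
    have h5 := sum_sq_of n hn (others i j) (fun k => ε * nt x i k j) hmem
      (Polynomial.X - Polynomial.C 2) (by
        rw [hs1, hsq, h]
        simp only [map_sub, Polynomial.aeval_X, Polynomial.aeval_C]
        norm_num)
    rw [hs2] at h5
    simp only [map_sub, Polynomial.aeval_X, Polynomial.aeval_C] at h5
    norm_num at h5
  · exact h

end Pool.Agent.H109R2.Phases
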