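import Mathlib
import Pool.Agent.H109R2.SICBase
import Pool.Agent.H109R2.Invol
import Pool.Agent.H109R2.Phases

set_option autoImplicit false

namespace Pool.Agent.H109R2.OnePair

open Matrix Module Pool.Agent.H109R2.SIC Pool.Agent.H109R2.Phases
open scoped ComplexOrder

variable {d : ℕ} {x : Fin (d ^ 2) → EuclideanSpace ℂ (Fin d)}

theorem nt_cyc (i j k : Fin (d ^ 2)) : nt x i j k = nt x j k i := by
  unfold nt; ring

theorem nt_cocycle (hx : IsMaxETF d x) {o i j k : Fin (d ^ 2)} (hi : o ≠ i) (hj : o ≠ j)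
    (hk : o ≠ k) : nt x i j k = nt x o i j * nt x o j k * nt x o k i := by
  unfold nt
  have h1 := inner_mul_inner hx o i
  have h2 := inner_mul_inner hx o j
  have h3 := inner_mul_inner hx o k
  rw [if_neg hi] at h1
  rw [if_neg hj] at h2
  rw [if_neg hk] at h3
  have h4 := sq_s (d := d)
  have h5 := d1_ne (d := d)
  set s := ((Real.sqrt ((d : ℝ) + 1) : ℝ) : ℂ)
  have h6 : (inner ℂ (x o) (x i) * inner ℂ (x i) (x o)) *
      (inner ℂ (x o) (x j) * inner ℂ (x j) (x o)) *
      (inner ℂ (x o) (x k) * inner ℂ (x k) (x o)) * (s * s) ^ 3 = 1 := by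
    rw [h1, h2, h3, h4]; field_simp
  linear_combination -(s ^ 3 * (inner ℂ (x i) (x j) * inner ℂ (x j) (x k) * inner ℂ (x k) (x i)))
    * h6

/-- counting the phases through a pair. -/
theorem counts {α : ℂ} (h1 : (1 : ℂ) ≠ -1) (h2 : α ≠ 1) (h3 : α ≠ -1) (h4 : star α ≠ 1)
    (h5 : star α ≠ -1) (h6 : α ≠ star α) {ι : Type*} (S : Finset ι) (g : ι → ℂ)
    (hg : ∀ k ∈ S, g k = 1 ∨ g k = -1 ∨ g k = α ∨ g k = star α) (F : ℂ → ℂ) :
    ∑ k ∈ S, F (g k) = (S.filter fun k => g k = 1).card * F 1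
      + (S.filter fun k => g k = -1).card * F (-1) + (S.filter fun k => g k = α).card * F α
      + (S.filter fun k => g k = star α).card * F (star α) := by
  classical
  have key : ∀ k ∈ S, F (g k) = (if g k = 1 then F 1 else 0) + (if g k = -1 then F (-1) else 0)
      + (if g k = α then F α else 0) + (if g k = star α then F (star α) else 0) := by
    intro k hk
    rcases hg k hk with h | h | h | h
    · rw [h, if_pos rfl, if_neg h1, if_neg (Ne.symm h2), if_neg (Ne.symm h4)]; ring
    · rw [h, if_neg (Ne.symm h1), if_pos rfl, if_neg (Ne.symm h3), if_neg (Ne.symm h5)]; ring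
    · rw [h, if_neg h2, if_neg h3, if_pos rfl, if_neg h6]; ring
    · rw [h, if_neg h4, if_neg h5, if_neg (Ne.symm h6), if_pos rfl]; ring
  rw [Finset.sum_congr rfl key]
  simp only [Finset.sum_add_distrib, ← Finset.sum_filter, Finset.sum_const, nsmul_eq_mul]

theorem real_unimod {z : ℂ} (h1 : z.im = 0) (h2 : ‖z‖ = 1) : z = 1 ∨ z = -1 := by
  have h3 : z = ((z.re : ℝ) : ℂ) := Complex.ext (by simp) (by simp [h1])
  have h4 : |z.re| = 1 := by
    rw [h3, Complex.norm_real] at h2
    exact h2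
  rcases abs_eq (by norm_num : (0 : ℝ) ≤ 1) |>.mp h4 with h | h
  · left; rw [h3, h]; simp
  · right; rw [h3, h]; simp

/-- all we know about the non-real phase. -/
structure Good (x : Fin (d ^ 2) → EuclideanSpace ℂ (Fin d)) (α : ℂ) : Prop where
  uni : α * star α = 1
  ne : α ≠ star α
  one : α ≠ 1
  mone : α ≠ -1
  sone : star α ≠ 1
  smone : star α ≠ -1
  vals : ∀ i j k, i ≠ j → j ≠ k → k ≠ i →
    nt x i j k = 1 ∨ nt x i j k = -1 ∨ nt x i j k = α ∨ nt x i j k = star α

theorem mem_others {i j k : Fin (d ^ 2)} (h : k ∈ others i j) : k ≠ i ∧ k ≠ j := by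
  have h1 := Finset.mem_erase.mp h
  exact ⟨(Finset.mem_erase.mp h1.2).1, h1.1⟩

theorem others_mem {i j k : Fin (d ^ 2)} (h1 : k ≠ i) (h2 : k ≠ j) : k ∈ others i j :=
  Finset.mem_erase.mpr ⟨h2, Finset.mem_erase.mpr ⟨h1, Finset.mem_univ _⟩⟩

theorem good_of (hd : 2 ≤ d) (hx : IsMaxETF d x) (α : ℂ)
    (h : ∀ i j k, i ≠ j → j ≠ k → k ≠ i →
      (nt x i j k).im = 0 ∨ nt x i j k = α ∨ nt x i j k = star α) : Good x α := by
  have h4 : 4 ≤ d ^ 2 := by nlinarith
  set i : Fin (d ^ 2) := ⟨0, by omega⟩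
  set j : Fin (d ^ 2) := ⟨1, by omega⟩
  have hij : i ≠ j := by
    intro h
    have := congrArg Fin.val h
    simp [i, j] at this
  have hex : ∃ k ∈ others i j, (nt x i k j).im ≠ 0 := by
    by_contra hcon
    push Not at hcon
    have h1 := sum2 hx hij
    have h2 : ∀ k ∈ others i j, nt x i k j ^ 2 = 1 := by
      intro k hk
      have hk' := mem_others hk
      rcases real_unimod (hcon k hk) (nt_norm hx hk'.1.symm hk'.2 hij.symm) with h | h <;>
        rw [h] <;> norm_num
    rw [Finset.sum_congr rfl h2, Finset.sum_const, nsmul_eq_mul, mul_one, card_others hij] at h1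
    have h3 : (d : ℂ) ^ 2 = 0 := by linear_combination h1
    have h5 : (d : ℂ) = 0 := by simpa using h3
    have h6 : d = 0 := by exact_mod_cast h5
    omega
  obtain ⟨k, hk, him⟩ := hex
  have hk' := mem_others hk
  have hval : nt x i k j = α ∨ nt x i k j = star α :=
    (h i k j hk'.1.symm hk'.2 hij.symm).resolve_left him
  have hnorm := nt_norm hx hk'.1.symm hk'.2 hij.symm
  have hα1 : ‖α‖ = 1 := by
    rcases hval with h | h
    · rw [← h]; exact hnorm
    · rw [h, norm_star] at hnorm; exact hnorm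
  have hαim : α.im ≠ 0 := by
    rcases hval with h | h
    · rw [← h]; exact him
    · intro h0
      apply him
      rw [h]
      simp [h0]
  have uni : α * star α = 1 := by
    have := RCLike.mul_conj α
    rw [hα1] at this
    simpa using this
  have real_ne : ∀ r : ℝ, α ≠ (r : ℂ) := by
    intro r hr
    apply hαim
    rw [hr]; simp
  have sreal_ne : ∀ r : ℝ, star α ≠ (r : ℂ) := by
    intro r hr
    apply hαim
    have := congrArg Complex.im hr
    simpa using this
  refine ⟨uni, ?_, ?_, ?_, ?_, ?_, ?_⟩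
  · intro heq
    have := congrArg Complex.im heq
    simp at this
    apply hαim
    linarith
  · simpa using real_ne 1
  · simpa using real_ne (-1)
  · simpa using sreal_ne 1
  · simpa using sreal_ne (-1)
  · intro a b c hab hbc hca
    rcases h a b c hab hbc hca with h0 | h0 | h0
    · rcases real_unimod h0 (nt_norm hx hab hbc hca) with h | h
      · exact Or.inl h
      · exact Or.inr (Or.inl h)
    · exact Or.inr (Or.inr (Or.inl h0))
    · exact Or.inr (Or.inr (Or.inr h0))

/-- the numbers of `k` with phase `z`. -/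
noncomputable def N (x : Fin (d ^ 2) → EuclideanSpace ℂ (Fin d)) (i j : Fin (d ^ 2)) (z : ℂ) : ℕ :=
  ((others i j).filter fun k => nt x i k j = z).card

theorem eqs (hx : IsMaxETF d x) {α : ℂ} (hg : Good x α) {i j : Fin (d ^ 2)} (hij : i ≠ j) :
    ((N x i j 1 : ℂ) + N x i j (-1) + 2 * N x i j α = (d : ℂ) ^ 2 - 2) ∧
    ((N x i j 1 : ℂ) - N x i j (-1) + N x i j α * (α + star α)
      = ((Real.sqrt ((d : ℝ) + 1) : ℝ) : ℂ) * ((d : ℂ) - 2)) ∧
    ((N x i j 1 : ℂ) + N x i j (-1) + N x i j α * (α ^ 2 + star α ^ 2) = -2) := by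
  have hv : ∀ k ∈ others i j, nt x i k j = 1 ∨ nt x i k j = -1 ∨ nt x i k j = α ∨
      nt x i k j = star α := by
    intro k hk
    have hk' := mem_others hk
    exact hg.vals i k j hk'.1.symm hk'.2 hij.symm
  have C := counts (by norm_num) hg.one hg.mone hg.sone hg.smone hg.ne (others i j)
    (fun k => nt x i k j) hv
  have e0 := C (fun _ => 1)
  have e1 := C (fun z => z)
  have e2 := C (fun z => z ^ 2)

  rw [Finset.sum_const, nsmul_eq_mul, mul_one, card_others hij] at e0
  rw [sum1 hx hij] at e1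
  rw [sum2 hx hij] at e2
  change _ = (N x i j 1 : ℂ) * 1 + (N x i j (-1) : ℂ) * 1 + (N x i j α : ℂ) * 1
    + (N x i j (star α) : ℂ) * 1 at e0
  change _ = (N x i j 1 : ℂ) * 1 + (N x i j (-1) : ℂ) * (-1) + (N x i j α : ℂ) * α
    + (N x i j (star α) : ℂ) * star α at e1
  change _ = (N x i j 1 : ℂ) * 1 ^ 2 + (N x i j (-1) : ℂ) * (-1) ^ 2 + (N x i j α : ℂ) * α ^ 2
    + (N x i j (star α) : ℂ) * star α ^ 2 at e2
  have hA : (N x i j (star α) : ℂ) = N x i j α := by
    have e3 := congrArg star e1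
    have hs : star ((Real.sqrt ((d : ℝ) + 1) : ℝ) : ℂ) = ((Real.sqrt ((d : ℝ) + 1) : ℝ) : ℂ) :=
      Complex.conj_ofReal _
    have hnat : ∀ n : ℕ, star (n : ℂ) = n := fun n => by simp
    simp only [star_add, star_mul', star_sub, star_one, star_neg, star_star, hs, hnat,
      star_ofNat] at e3
    have h1 : ((N x i j (star α) : ℂ) - N x i j α) * (α - star α) = 0 := by
      linear_combination e1 - e3
    rcases mul_eq_zero.mp h1 with h | h
    · linear_combination h
    · exact absurd (sub_eq_zero.mp h) hg.ne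
  rw [hA] at e0 e1 e2
  refine ⟨by linear_combination -e0, by linear_combination -e1, by linear_combination -e2⟩

theorem N_pos (hd : 2 ≤ d) (hx : IsMaxETF d x) {α : ℂ} (hg : Good x α) {i j : Fin (d ^ 2)}
    (hij : i ≠ j) : 0 < N x i j α := by
  rcases Nat.eq_zero_or_pos (N x i j α) with h | h
  · exfalso
    obtain ⟨e0, -, e2⟩ := eqs hx hg hij
    rw [h] at e0 e2
    push_cast at e0 e2
    have h1 : (d : ℂ) ^ 2 = 0 := by linear_combination e2 - e0
    have h2 : (d : ℂ) = 0 := by simpa using h1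
    have h3 : d = 0 := by exact_mod_cast h2
    omega
  · exact h

theorem sq_ne_one {α : ℂ} (h1 : α ≠ 1) (h2 : α ≠ -1) : α ^ 2 ≠ 1 := by
  intro h
  have : (α - 1) * (α + 1) = 0 := by linear_combination h
  rcases mul_eq_zero.mp this with h | h
  · exact h1 (by linear_combination h)
  · exact h2 (by linear_combination h)

theorem order_step (hd : 2 ≤ d) (hx : IsMaxETF d x) {α : ℂ} (hg : Good x α) (h2 : α ^ 2 ≠ -1)
    (h3 : α ^ 3 ≠ 1) (h3' : α ^ 3 ≠ -1) : False := by
  have h21 : α ^ 2 ≠ 1 := sq_ne_one hg.one hg.mone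
  have hα0 : α ≠ 0 := by
    rintro h
    have := hg.uni
    rw [h] at this
    simp at this
  have h4 : 4 ≤ d ^ 2 := by nlinarith
  set o : Fin (d ^ 2) := ⟨0, by omega⟩ with ho
  set o1 : Fin (d ^ 2) := ⟨1, by omega⟩ with ho1
  have hoo1 : o1 ≠ o := by
    intro h
    have := congrArg Fin.val h
    simp [ho, ho1] at this
  let T := {i : Fin (d ^ 2) // i ≠ o}
  let r : T → T → Prop := fun a b => a.1 ≠ b.1 ∧ nt x o a.1 b.1 = α
  have hirr : ∀ a, ¬ r a a := fun a h => h.1 rfl
  have htrans : ∀ a b c, r a b → r b c → r a c := by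
    rintro ⟨a, ha⟩ ⟨b, hb⟩ ⟨c, hc⟩ ⟨hab, hab'⟩ ⟨hbc, hbc'⟩
    simp only at hab hab' hbc hbc'
    have hca : c ≠ a := by
      rintro rfl
      have := nt_conj (x := x) o c b
      rw [hab', hbc'] at this
      exact hg.ne this.symm
    have hcoc := nt_cocycle hx (Ne.symm ha) (Ne.symm hb) (Ne.symm hc) (i := a) (j := b) (k := c)
    rw [hab', hbc'] at hcoc
    have v1 := hg.vals a b c hab hbc hca
    have v2 := hg.vals o c a (Ne.symm hc) hca ha
    have key : nt x o c a = star α := by
      rcases v2 with h | h | h | h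
      · exfalso
        rw [h] at hcoc
        rcases v1 with h' | h' | h' | h' <;> rw [h'] at hcoc
        · exact h21 (by linear_combination -hcoc)
        · exact h2 (by linear_combination -hcoc)
        · exact hg.one (mul_left_cancel₀ hα0 (by linear_combination -hcoc))
        · exact h3 (by linear_combination hg.uni - α * hcoc)
      · exfalso
        rw [h] at hcoc
        rcases v1 with h' | h' | h' | h' <;> rw [h'] at hcoc
        · exact h2 (by linear_combination hcoc)
        · exact h21 (by linear_combination hcoc)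
        · exact hg.mone (mul_left_cancel₀ hα0 (by linear_combination hcoc))
        · exact h3' (by linear_combination α * hcoc - hg.uni)
      · exfalso
        rw [h] at hcoc
        rcases v1 with h' | h' | h' | h' <;> rw [h'] at hcoc
        · exact h3 (by linear_combination -hcoc)
        · exact h3' (by linear_combination -hcoc)
        · exact h21 (mul_left_cancel₀ hα0 (by linear_combination -hcoc))
        · have h5 : α ^ 4 = 1 := by linear_combination hg.uni - α * hcoc
          have h6 : (α ^ 2 - 1) * (α ^ 2 + 1) = 0 := by linear_combination h5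
          rcases mul_eq_zero.mp h6 with h7 | h7
          · exact h21 (by linear_combination h7)
          · exact h2 (by linear_combination h7)
      · exact h
    refine ⟨hca.symm, ?_⟩
    have := nt_conj (x := x) o c a
    rw [key, star_star] at this
    exact this.symm
  have : IsTrans T r := ⟨htrans⟩
  have : Std.Irrefl r := ⟨hirr⟩
  have hwf : WellFounded r := Finite.wellFounded_of_trans_of_irrefl r
  obtain ⟨m, -, hm⟩ := hwf.has_min Set.univ ⟨⟨o1, hoo1⟩, trivial⟩
  have hpos := N_pos hd hx hg (i := o) (j := m.1) (Ne.symm m.2)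
  obtain ⟨k, hk⟩ := Finset.card_pos.mp hpos
  have hk1 := (Finset.mem_filter.mp hk).1
  have hk2 := (Finset.mem_filter.mp hk).2
  have hk' := mem_others hk1
  exact hm ⟨k, hk'.1⟩ trivial ⟨hk'.2, hk2⟩

/-- the real parameter `s`. -/
theorem s_pos : 0 < Real.sqrt ((d : ℝ) + 1) := Real.sqrt_pos.mpr (by positivity)

theorem cube_one_false (hd : 2 ≤ d) (hx : IsMaxETF d x) {α : ℂ} (hg : Good x α)
    (h3 : α ^ 3 = 1) : False := by
  have h4 : 4 ≤ d ^ 2 := by nlinarith
  have hij : (⟨0, by omega⟩ : Fin (d ^ 2)) ≠ ⟨1, by omega⟩ := by simp [Fin.ext_iff]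
  obtain ⟨e0, e1, e2⟩ := eqs hx hg hij
  have h5 : α ^ 2 + α + 1 = 0 := by
    have : (α - 1) * (α ^ 2 + α + 1) = 0 := by linear_combination h3
    exact (mul_eq_zero.mp this).resolve_left (sub_ne_zero.mpr hg.one)
  have h6 : star α = α ^ 2 := by
    linear_combination α ^ 2 * hg.uni - star α * h3
  rw [h6] at e1 e2
  set i : Fin (d ^ 2) := ⟨0, by omega⟩
  set j : Fin (d ^ 2) := ⟨1, by omega⟩
  have h7 : (2 : ℂ) * N x i j (-1) + ((Real.sqrt ((d : ℝ) + 1) : ℝ) : ℂ) * ((d : ℂ) - 2) = -2 := by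
    linear_combination e2 - e1 - (N x i j α : ℂ) * α * h3
  have h8 : (2 : ℝ) * N x i j (-1) + Real.sqrt ((d : ℝ) + 1) * ((d : ℝ) - 2) = -2 := by
    exact_mod_cast h7
  have h9 : (0 : ℝ) ≤ (d : ℝ) - 2 := by
    have : (2 : ℝ) ≤ d := by exact_mod_cast hd
    linarith
  have h10 : 0 ≤ Real.sqrt ((d : ℝ) + 1) * ((d : ℝ) - 2) := mul_nonneg s_pos.le h9
  have h11 : (0 : ℝ) ≤ N x i j (-1) := Nat.cast_nonneg _
  linarith

theorem star_cube {α : ℂ} (hg : Good x α) (h3 : α ^ 3 = -1) : star α = -α ^ 2 := by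
  linear_combination -α ^ 2 * hg.uni + star α * h3

theorem quad {α : ℂ} (hg : Good x α) (h3 : α ^ 3 = -1) : α ^ 2 - α + 1 = 0 := by
  have : (α + 1) * (α ^ 2 - α + 1) = 0 := by linear_combination h3
  refine (mul_eq_zero.mp this).resolve_left fun h => hg.mone ?_
  linear_combination h

theorem P_formula (hx : IsMaxETF d x) {α : ℂ} (hg : Good x α) (h3 : α ^ 3 = -1)
    {i j : Fin (d ^ 2)} (hij : i ≠ j) :
    (2 : ℝ) * N x i j 1 = Real.sqrt ((d : ℝ) + 1) * ((d : ℝ) - 2) - 2 := by
  obtain ⟨e0, e1, e2⟩ := eqs hx hg hij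
  rw [star_cube hg h3] at e1 e2
  have h5 := quad hg h3
  have h7 : (2 : ℂ) * N x i j 1 = ((Real.sqrt ((d : ℝ) + 1) : ℝ) : ℂ) * ((d : ℂ) - 2) - 2 := by
    linear_combination e2 + e1 - (N x i j α : ℂ) * α * h3
  exact_mod_cast h7

/-- products of two phases different from one. -/
theorem prod_step {α : ℂ} (hg : Good x α) (h3 : α ^ 3 = -1) {u v w : ℂ} (huvw : u * v = w)
    (hu : u = 1 ∨ u = -1 ∨ u = α ∨ u = star α) (hv : v = 1 ∨ v = -1 ∨ v = α ∨ v = star α)
    (hw : w = 1 ∨ w = -1 ∨ w = α ∨ w = star α) : u = 1 ∨ v = 1 ∨ w = 1 := by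
  have h5 := quad hg h3
  have hs := star_cube hg h3
  have hα0 : α ≠ 0 := by
    rintro h
    have := hg.uni
    rw [h] at this
    simp at this
  -- `-α`, `α²` are not phases
  have n1 : ∀ z : ℂ, (z = 1 ∨ z = -1 ∨ z = α ∨ z = star α) → z ≠ -α := by
    rintro z (h | h | h | h) hz
    · exact hg.mone (by linear_combination hz - h)
    · exact hg.one (by linear_combination hz - h)
    · apply hα0
      have : (2 : ℂ) * α = 0 := by linear_combination hz - h
      simpa using this
    · rw [h, hs] at hz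
      have : α * (α - 1) = 0 := by linear_combination -hz
      rcases mul_eq_zero.mp this with h | h
      · exact hα0 h
      · exact hg.one (by linear_combination h)
  have n2 : ∀ z : ℂ, (z = 1 ∨ z = -1 ∨ z = α ∨ z = star α) → z ≠ α ^ 2 := by
    rintro z (h | h | h | h) hz
    · exact sq_ne_one hg.one hg.mone (by rw [← hz, h])
    · apply hα0
      have : α ^ 2 = -1 := by rw [← hz, h]
      linear_combination this - h5
    · have : α * (α - 1) = 0 := by linear_combination h - hz
      rcases mul_eq_zero.mp this with h | h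
      · exact hα0 h
      · exact hg.one (by linear_combination h)
    · rw [h, hs] at hz
      apply hα0
      have : (2 : ℂ) * α ^ 2 = 0 := by linear_combination -hz
      simpa using this
  have n3 : ∀ z : ℂ, (z = 1 ∨ z = -1 ∨ z = α ∨ z = star α) → z ≠ α ^ 4 :=
    fun z h hz => n1 z h (by linear_combination hz + α * h3)
  rcases hu with hu | hu | hu | hu
  · exact Or.inl hu
  · rcases hv with hv | hv | hv | hv
    · exact Or.inr (Or.inl hv)
    · exact Or.inr (Or.inr (by rw [← huvw, hu, hv]; norm_num))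
    · exact absurd (by rw [← huvw, hu, hv]; ring) (n1 w hw)
    · exfalso
      rw [hu, hv, hs] at huvw
      exact n2 w hw (by rw [← huvw]; ring)
  · rcases hv with hv | hv | hv | hv
    · exact Or.inr (Or.inl hv)
    · exact absurd (by rw [← huvw, hu, hv]; ring) (n1 w hw)
    · exact absurd (by rw [← huvw, hu, hv]; ring) (n2 w hw)
    · exact Or.inr (Or.inr (by rw [← huvw, hu, hv]; exact hg.uni))
  · rcases hv with hv | hv | hv | hv
    · exact Or.inr (Or.inl hv)
    · exfalso
      rw [hu, hv, hs] at huvw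
      exact n2 w hw (by rw [← huvw]; ring)
    · exact Or.inr (Or.inr (by rw [← huvw, hu, hv, mul_comm]; exact hg.uni))
    · exfalso
      rw [hu, hv, hs] at huvw
      exact n3 w hw (by rw [← huvw]; ring)

theorem cube_mone (hd : 2 ≤ d) (hx : IsMaxETF d x) {α : ℂ} (hg : Good x α)
    (h3 : α ^ 3 = -1) : d = 3 ∧ ∀ i j k, i ≠ j → j ≠ k → k ≠ i → nt x i j k ^ 3 = -1 := by
  have h4 : 4 ≤ d ^ 2 := by nlinarith
  set o : Fin (d ^ 2) := ⟨0, by omega⟩ with ho
  set b : Fin (d ^ 2) := ⟨1, by omega⟩ with hb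
  have hob : o ≠ b := by simp [ho, hb, Fin.ext_iff]
  have hP := fun (i j : Fin (d ^ 2)) (hij : i ≠ j) => P_formula hx hg h3 hij
  have hs2 : Real.sqrt ((d : ℝ) + 1) * Real.sqrt ((d : ℝ) + 1) = (d : ℝ) + 1 :=
    Real.mul_self_sqrt (by positivity)
  have hspos := s_pos (d := d)
  set s := Real.sqrt ((d : ℝ) + 1)
  have hd2 : (2 : ℝ) ≤ d := by exact_mod_cast hd
  rcases Nat.eq_zero_or_pos (N x o b 1) with h | h
  · have h5 := hP o b hob
    rw [h] at h5
    have h6 : s * ((d : ℝ) - 2) = 2 := by push_cast at h5; linarith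
    have h7 : ((d : ℝ) + 1) * ((d : ℝ) - 2) ^ 2 = 4 := by
      calc ((d : ℝ) + 1) * ((d : ℝ) - 2) ^ 2 = (s * ((d : ℝ) - 2)) ^ 2 := by rw [← hs2]; ring
        _ = 4 := by rw [h6]; norm_num
    have h8 : (d : ℝ) ^ 2 * ((d : ℝ) - 3) = 0 := by linear_combination h7
    have hd3 : d = 3 := by
      rcases mul_eq_zero.mp h8 with h9 | h9
      · have : (d : ℝ) = 0 := by simpa using h9
        linarith
      · have : (d : ℝ) = 3 := by linarith
        exact_mod_cast this
    refine ⟨hd3, ?_⟩
    intro i j k hij hjk hki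
    have h9 := hP i k (Ne.symm hki)
    have h10 : N x i k 1 = 0 := by
      have : (N x i k 1 : ℝ) = 0 := by
        rw [h6] at h9; linarith
      exact_mod_cast this
    have hne : nt x i j k ≠ 1 := by
      intro h1
      have h11 := Finset.card_eq_zero.mp h10
      have h12 : j ∈ (others i k).filter fun l => nt x i l k = 1 :=
        Finset.mem_filter.mpr ⟨others_mem (Ne.symm hij) hjk, h1⟩
      rw [h11] at h12
      simp at h12
    rcases hg.vals i j k hij hjk hki with h | h | h | h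
    · exact absurd h hne
    · rw [h]; norm_num
    · rw [h, h3]
    · rw [h, ← star_pow, h3]; simp
  · exfalso
    obtain ⟨a, ha⟩ := Finset.card_pos.mp h
    have ha1 := mem_others (Finset.mem_filter.mp ha).1
    have ha2 : nt x o a b = 1 := (Finset.mem_filter.mp ha).2
    have hcover : ((Finset.univ.erase o).erase a).erase b ⊆
        (((others o a).filter fun k => nt x o k a = 1) ∪
          ((others o b).filter fun k => nt x o k b = 1)) ∪
          ((others a b).filter fun k => nt x a k b = 1) := by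
      intro k hk
      have k1 := Finset.mem_erase.mp hk
      have k2 := Finset.mem_erase.mp k1.2
      have k3 := Finset.mem_erase.mp k2.2
      have hkb : k ≠ b := k1.1
      have hka : k ≠ a := k2.1
      have hko : k ≠ o := k3.1
      -- `t_{abk} = t_{oab} t_{obk} t_{oka}`
      have hcoc := nt_cocycle hx (o := o) (i := a) (j := b) (k := k) ha1.1.symm hob hko.symm
      rw [ha2, one_mul] at hcoc
      have hstep := prod_step hg h3 hcoc.symm
        (hg.vals o b k hob hkb.symm hko) (hg.vals o k a hko.symm hka ha1.1)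
        (hg.vals a b k ha1.2 hkb.symm hka)
      rw [Finset.mem_union, Finset.mem_union, Finset.mem_filter, Finset.mem_filter,
        Finset.mem_filter]
      rcases hstep with h | h | h
      · left; right
        refine ⟨others_mem hko hkb, ?_⟩
        rw [← nt_conj, h, star_one]
      · left; left
        exact ⟨others_mem hko hka, h⟩
      · right
        refine ⟨others_mem hka hkb, ?_⟩
        rw [← nt_conj, h, star_one]
    have hcard := Finset.card_le_card hcover
    have hcard2 : (((others o a).filter fun k => nt x o k a = 1) ∪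
          ((others o b).filter fun k => nt x o k b = 1) ∪
          ((others a b).filter fun k => nt x a k b = 1)).card
        ≤ N x o a 1 + N x o b 1 + N x a b 1 := by
      refine (Finset.card_union_le _ _).trans ?_
      exact Nat.add_le_add_right (Finset.card_union_le _ _) _
    have hcard3 : (((Finset.univ.erase o).erase a).erase b).card = d ^ 2 - 3 := by
      rw [Finset.card_erase_of_mem, Finset.card_erase_of_mem, Finset.card_erase_of_mem,
        Finset.card_univ, Fintype.card_fin]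
      · omega
      · exact Finset.mem_univ _
      · exact Finset.mem_erase.mpr ⟨ha1.1, Finset.mem_univ _⟩
      · exact Finset.mem_erase.mpr ⟨ha1.2.symm, Finset.mem_erase.mpr ⟨hob.symm,
          Finset.mem_univ _⟩⟩
    have h5 : d ^ 2 ≤ N x o a 1 + N x o b 1 + N x a b 1 + 3 := by omega
    have h6 : (d : ℝ) ^ 2 ≤ N x o a 1 + N x o b 1 + N x a b 1 + 3 := by exact_mod_cast h5
    have e1 := hP o a ha1.1.symm
    have e2 := hP o b hob
    have e3 := hP a b ha1.2
    have h7 : 2 * (d : ℝ) ^ 2 ≤ 3 * (s * ((d : ℝ) - 2)) := by linarith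
    have h8 : (2 * (d : ℝ) ^ 2) ^ 2 ≤ (3 * (s * ((d : ℝ) - 2))) ^ 2 :=
      pow_le_pow_left₀ (by positivity) h7 2
    have h9 : (3 * (s * ((d : ℝ) - 2))) ^ 2 = 9 * ((d : ℝ) + 1) * ((d : ℝ) - 2) ^ 2 := by
      rw [← hs2]; ring
    rw [h9] at h8
    nlinarith [sq_nonneg ((d : ℝ) - 2), mul_nonneg (sub_nonneg.mpr hd2) (sq_nonneg (d : ℝ)),
      sq_nonneg ((d : ℝ) ^ 2 - 2 * d)]

theorem isSquare_of_mul {a b c : ℤ} (hb : b ≠ 0) (h : a ^ 2 = c * b ^ 2) : IsSquare c := by
  have h1 : b ^ 2 ∣ a ^ 2 := ⟨c, by rw [h]; ring⟩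
  have h2 : b ∣ a := (Int.pow_dvd_pow_iff (by norm_num)).mp h1
  obtain ⟨e, rfl⟩ := h2
  refine ⟨e, ?_⟩
  have h3 : b ^ 2 * (e * e) = b ^ 2 * c := by linear_combination h
  exact (mul_left_cancel₀ (pow_ne_zero 2 hb) h3).symm

theorem fourth_step (hd : 2 ≤ d) (hx : IsMaxETF d x) {α : ℂ} (hg : Good x α)
    (h2 : α ^ 2 = -1) : (∀ i j k, i ≠ j → j ≠ k → k ≠ i → nt x i j k ^ 4 = 1) ∧
      (d = 2 ∨ (8 ∣ d ∧ IsSquare (d + 1))) := by
  have hs : star α = -α := by
    linear_combination -α * hg.uni + star α * h2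
  refine ⟨?_, ?_⟩
  · intro i j k hij hjk hki
    have h4 : α ^ 4 = 1 := by linear_combination (α ^ 2 - 1) * h2
    rcases hg.vals i j k hij hjk hki with h | h | h | h
    · rw [h]; norm_num
    · rw [h]; norm_num
    · rw [h, h4]
    · rw [h, ← star_pow, h4, star_one]
  · by_cases hd2 : d = 2
    · exact Or.inl hd2
    right
    have h4 : 4 ≤ d ^ 2 := by nlinarith
    have hij : (⟨0, by omega⟩ : Fin (d ^ 2)) ≠ ⟨1, by omega⟩ := by simp [Fin.ext_iff]
    obtain ⟨e0, e1, e2⟩ := eqs hx hg hij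
    set i : Fin (d ^ 2) := ⟨0, by omega⟩
    set j : Fin (d ^ 2) := ⟨1, by omega⟩
    rw [hs] at e1 e2
    -- `4 A = d²`
    have h5 : (4 : ℂ) * N x i j α = (d : ℂ) ^ 2 := by
      linear_combination e0 - e2 + 2 * (N x i j α : ℂ) * h2
    have h6 : 4 * N x i j α = d ^ 2 := by exact_mod_cast h5
    have hs2 := sq_s (d := d)
    have h7 : ((N x i j 1 : ℂ) - N x i j (-1)) ^ 2 = ((d : ℂ) + 1) * ((d : ℂ) - 2) ^ 2 := by
      have h8 : (N x i j 1 : ℂ) - N x i j (-1)
          = ((Real.sqrt ((d : ℝ) + 1) : ℝ) : ℂ) * ((d : ℂ) - 2) := by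
        linear_combination e1
      rw [h8, ← hs2]
      ring
    have h8 : ((N x i j 1 : ℤ) - N x i j (-1)) ^ 2 = ((d : ℤ) + 1) * ((d : ℤ) - 2) ^ 2 := by
      exact_mod_cast h7
    have h9 : IsSquare ((d : ℤ) + 1) := isSquare_of_mul (by omega) h8
    have h10 : IsSquare (d + 1) := by
      obtain ⟨r, hr⟩ := h9
      refine ⟨r.natAbs, ?_⟩
      have : ((d + 1 : ℕ) : ℤ) = ((r.natAbs * r.natAbs : ℕ) : ℤ) := by
        rw [Int.natAbs_mul_self]
        push_cast
        exact hr
      exact_mod_cast this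
    refine ⟨?_, h10⟩
    have heven : Even d := by
      have : Even (d ^ 2) := ⟨2 * N x i j α, by omega⟩
      exact (Nat.even_pow.mp this).1
    obtain ⟨r, hr⟩ := h10
    have hodd : Odd r := by
      by_contra h
      rw [Nat.not_odd_iff_even] at h
      have h11 : Even (d + 1) := by rw [hr]; exact h.mul_left r
      exact (Nat.not_even_iff_odd.mpr heven.add_one) h11
    obtain ⟨m, rfl⟩ := hodd
    have h12 : d = 4 * (m * (m + 1)) := by nlinarith
    obtain ⟨q, hq⟩ := Nat.even_mul_succ_self m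
    exact ⟨q, by rw [h12, hq]; ring⟩

theorem main (hd : 2 ≤ d) (hx : IsMaxETF d x) (α : ℂ)
    (h : ∀ i j k, i ≠ j → j ≠ k → k ≠ i →
      (nt x i j k).im = 0 ∨ nt x i j k = α ∨ nt x i j k = star α) :
    (d = 3 ∧ ∀ i j k, i ≠ j → j ≠ k → k ≠ i → nt x i j k ^ 3 = -1) ∨
    ((∀ i j k, i ≠ j → j ≠ k → k ≠ i → nt x i j k ^ 4 = 1) ∧
      (d = 2 ∨ (8 ∣ d ∧ IsSquare (d + 1)))) := by
  have hg := good_of hd hx α h
  by_cases h2 : α ^ 2 = -1
  · exact Or.inr (fourth_step hd hx hg h2)
  by_cases h3 : α ^ 3 = 1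
  · exact (cube_one_false hd hx hg h3).elim
  by_cases h3' : α ^ 3 = -1
  · exact Or.inl (cube_mone hd hx hg h3')
  exact (order_step hd hx hg h2 h3 h3').elim

end Pool.Agent.H109R2.OnePair
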