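import Mathlib
import Pool.Agent.H109R2.Disc

set_option autoImplicit false

namespace Pool.Agent.H109R2.Witt

open Module Matrix

variable {K : Type*} [Field K]

/-- index set of the strictly lower triangular entries. -/
abbrev Low (d : ℕ) := (a : Fin d) × Fin (a : ℕ)

theorem two_mul_card_Low (d : ℕ) : 2 * Fintype.card (Low d) = d * (d - 1) := by
  rw [Fintype.card_sigma]
  simp only [Fintype.card_fin]
  rw [Fin.sum_univ_eq_sum_range (fun i => i) d, mul_comm, Finset.sum_range_id_mul_two]

/-- The Lagrangian attached to a family of `d²` matrices whose traces of products are those of a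
maximal equiangular tight frame. -/
theorem Met_start [CharZero K] {d : ℕ} (hd : 1 ≤ d) (M : Fin (d ^ 2) → Matrix (Fin d) (Fin d) K)
    (hM : ∀ i j, trace (M i * M j) = if i = j then 1 else 1 / ((d : K) + 1)) :
    Met (Sum.elim (Sum.elim (fun _ : Fin (d ^ 2) => (d : K) / ((d : K) + 1))
        (fun _ : Unit => 1 / ((d : K) + 1)))
      (Sum.elim (fun _ : Fin d => (-1 : K)) (fun _ : Unit => (-1 : K)))) := by
  classical
  have hd0 : (d : K) ≠ 0 := by exact_mod_cast (by omega : d ≠ 0)
  have hd1 : (d : K) + 1 ≠ 0 := by exact_mod_cast Nat.succ_ne_zero d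
  let X : (Fin (d ^ 2) → K) →ₗ[K] Matrix (Fin d) (Fin d) K :=
    { toFun := fun y => ∑ i, y i • M i
      map_add' := by
        intro y z
        simp only [Pi.add_apply, add_smul, Finset.sum_add_distrib]
      map_smul' := by
        intro c y
        simp only [Pi.smul_apply, smul_eq_mul, ← smul_smul, ← Finset.smul_sum, RingHom.id_apply] }
  have hX : ∀ y z, trace (X y * X z)
      = ((d : K) / ((d : K) + 1)) * ∑ i, y i * z i
        + (1 / ((d : K) + 1)) * ((∑ i, y i) * ∑ i, z i) := by
    intro y z
    have h1 : trace (X y * X z) = ∑ i, ∑ j, y i * z j * trace (M i * M j) := by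
      change trace ((∑ i, y i • M i) * (∑ j, z j • M j)) = _
      rw [Finset.sum_mul_sum, trace_sum]
      refine Finset.sum_congr rfl fun i _ => ?_
      rw [trace_sum]
      refine Finset.sum_congr rfl fun j _ => ?_
      rw [smul_mul_assoc, mul_smul_comm, trace_smul, trace_smul, smul_eq_mul, smul_eq_mul]
      ring
    rw [h1]
    have h2 : ∀ i j, y i * z j * trace (M i * M j)
        = (if i = j then ((d : K) / ((d : K) + 1)) * (y i * z j) else 0)
          + (1 / ((d : K) + 1)) * (y i * z j) := by
      intro i j
      rw [hM]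
      split_ifs
      · field_simp
      · ring
    simp only [h2, Finset.sum_add_distrib, Finset.sum_ite_eq, Finset.mem_univ, if_true,
      ← Finset.mul_sum, Finset.sum_mul_sum]
  -- the space of `y` with `X y` upper triangular
  let lowmap : (Fin (d ^ 2) → K) →ₗ[K] (Low d → K) :=
    { toFun := fun y p => X y p.1 ⟨p.2, p.2.2.trans p.1.2⟩
      map_add' := by intro y z; ext p; simp
      map_smul' := by intro c y; ext p; simp }
  let T := LinearMap.ker lowmap
  have hT : ∀ y ∈ T, ∀ a b : Fin d, b < a → X y a b = 0 := by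
    intro y hy a b hab
    exact congrFun (LinearMap.mem_ker.mp hy) ⟨a, ⟨b, hab⟩⟩
  have hTdim : d ^ 2 ≤ finrank K T + Fintype.card (Low d) := by
    have h1 := LinearMap.finrank_range_add_finrank_ker lowmap
    rw [Module.finrank_fintype_fun_eq_card, Fintype.card_fin] at h1
    have h2 := Submodule.finrank_le (LinearMap.range lowmap)
    rw [Module.finrank_fintype_fun_eq_card] at h2
    change d ^ 2 ≤ finrank K (LinearMap.ker lowmap) + _
    omega
  let F : (T × K) →ₗ[K] (((Fin (d ^ 2) ⊕ Unit) ⊕ (Fin d ⊕ Unit)) → K) :=
    { toFun := fun p => Sum.elim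
        (Sum.elim (fun i => (p.1 : Fin (d ^ 2) → K) i + p.2 / d)
          (fun _ => (∑ i, (p.1 : Fin (d ^ 2) → K) i) - p.2))
        (Sum.elim (fun a => X (p.1 : Fin (d ^ 2) → K) a a) (fun _ => p.2))
      map_add' := by
        intro p q
        ext i
        rcases i with (i | i) | (i | i)
        · simp; ring
        · simp [Finset.sum_add_distrib]; ring
        · simp
        · simp
      map_smul' := by
        intro c p
        ext i
        rcases i with (i | i) | (i | i)
        · simp; ring
        · simp [← Finset.mul_sum]; ring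
        · simp
        · simp }
  have hFinj : Function.Injective F := by
    intro p q h
    have h2 : p.2 = q.2 := congrFun h (Sum.inr (Sum.inr ()))
    have h1 : p.1 = q.1 := by
      apply Subtype.ext
      ext i
      have h3 : (p.1 : Fin (d ^ 2) → K) i + p.2 / d = (q.1 : Fin (d ^ 2) → K) i + q.2 / d :=
        congrFun h (Sum.inl (Sum.inl i))
      rw [h2] at h3
      exact add_right_cancel h3
    exact Prod.ext h1 h2
  refine ⟨LinearMap.range F, ?_, ?_⟩
  · rw [LinearMap.finrank_range_of_inj hFinj, Module.finrank_prod, Module.finrank_self]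
    simp only [Fintype.card_sum, Fintype.card_fin, Fintype.card_unit]
    have h1 := two_mul_card_Low d
    have h2 : d * (d - 1) + d = d ^ 2 := by
      obtain ⟨k, rfl⟩ := Nat.exists_eq_add_of_le hd
      simp
      ring
    omega
  · rintro _ ⟨⟨⟨y, hy⟩, c⟩, rfl⟩ _ ⟨⟨⟨z, hz⟩, c'⟩, rfl⟩
    have htr : trace (X y * X z) = ∑ a, X y a a * X z a a := by
      simp only [trace, diag_apply, mul_apply]
      refine Finset.sum_congr rfl fun a _ => ?_
      rw [Finset.sum_eq_single a]
      · intro b _ hb
        rcases lt_or_gt_of_ne hb with h | h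
        · rw [hT y hy a b h, zero_mul]
        · rw [hT z hz b a h, mul_zero]
      · intro h
        exact absurd (Finset.mem_univ a) h
    have hX' := hX y z
    rw [htr] at hX'
    simp only [Fintype.sum_sum_type, Sum.elim_inl, Sum.elim_inr, F, LinearMap.coe_mk,
      AddHom.coe_mk, Finset.univ_unique, Finset.sum_singleton]
    have e1 : ∑ i, (d : K) / ((d : K) + 1) * (y i + c / d) * (z i + c' / d)
        = ((d : K) / ((d : K) + 1)) * ∑ i, y i * z i
          + (1 / ((d : K) + 1)) * (c' * ∑ i, y i) + (1 / ((d : K) + 1)) * (c * ∑ i, z i)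
          + (d : K) / ((d : K) + 1) * (c * c') := by
      have e2 : ∀ i, (d : K) / ((d : K) + 1) * (y i + c / d) * (z i + c' / d)
        = ((d : K) / ((d : K) + 1)) * (y i * z i) + (1 / ((d : K) + 1)) * (c' * y i)
          + (1 / ((d : K) + 1)) * (c * z i) + (1 / ((d : K) + 1)) * (c * c' / d) := by
        intro i
        field_simp
        ring
      simp only [e2, Finset.sum_add_distrib, ← Finset.mul_sum, Finset.sum_const,
        Finset.card_univ, Fintype.card_fin, nsmul_eq_mul]
      push_cast
      field_simp
    have e3 : ∑ a, (-1 : K) * X y a a * X z a a = - ∑ a, X y a a * X z a a := by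
      rw [← Finset.sum_neg_distrib]
      exact Finset.sum_congr rfl fun a _ => by ring
    rw [e1, e3, hX']
    field_simp
    ring

theorem SS_four_nat (n : ℕ) : SS (2 ^ 2) (n : K) := by
  obtain ⟨a, b, c, e, h⟩ := Nat.sum_four_squares n
  refine ⟨![(a : K), b, c, e], ?_⟩
  change ∑ i : Fin 4, ![(a : K), b, c, e] i ^ 2 = n
  rw [Fin.sum_univ_four]
  simp only [Matrix.cons_val]
  have h2 := congrArg (Nat.cast : ℕ → K) h
  push_cast at h2
  exact h2

theorem MM_rep4 (c : K) (hc : Sim 4 c) (q : ℕ) :
    MM (Multiset.replicate (4 * q) (1 : K) + Multiset.replicate (4 * q) (-c)) := by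
  obtain ⟨T, hT, _⟩ := hc
  have h1 := MM_sim (1 : K) c T hT
  rw [one_mul] at h1
  induction q with
  | zero => simpa using MM_self_neg (0 : Multiset K)
  | succ q ih =>
    have h2 := ih.add h1
    have e : 4 * (q + 1) = 4 * q + 4 := by ring
    rw [e, Multiset.replicate_add, Multiset.replicate_add]
    have h3 : Multiset.replicate (4 * q) (1 : K) + Multiset.replicate 4 (1 : K)
        + (Multiset.replicate (4 * q) (-c) + Multiset.replicate 4 (-c))
        = Multiset.replicate (4 * q) (1 : K) + Multiset.replicate (4 * q) (-c)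
          + (Multiset.replicate 4 (1 : K) + Multiset.replicate 4 (-c)) := by abel
    rw [h3]
    exact h2

theorem notMem_replicate {n : ℕ} {a : K} (ha : a ≠ 0) : (0 : K) ∉ Multiset.replicate n a := by
  intro h
  exact ha (Multiset.eq_of_mem_replicate h).symm

theorem notMem_singleton {a : K} (ha : a ≠ 0) : (0 : K) ∉ ({a} : Multiset K) := by
  intro h
  exact ha (Multiset.mem_singleton.mp h).symm

theorem notMem_add {s t : Multiset K} (hs : (0 : K) ∉ s) (ht : (0 : K) ∉ t) :
    (0 : K) ∉ s + t := by
  rw [Multiset.mem_add, not_or]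
  exact ⟨hs, ht⟩

/-- cancellation of hyperbolic planes -/
theorem MM.cancel_one {s : Multiset K} (hs : (0 : K) ∉ s) {n : ℕ}
    (h : MM (s + (Multiset.replicate n (1 : K) + Multiset.replicate n (-1)))) : MM s := by
  have h1 := MM_self_neg (Multiset.replicate n (1 : K))
  rw [Multiset.map_replicate] at h1
  refine h.cancel hs (notMem_add (notMem_replicate one_ne_zero)
    (notMem_replicate (neg_ne_zero.mpr one_ne_zero))) h1

/-- The key Witt relation for maximal equiangular tight frames. -/
theorem MM_key [CharZero K] {d : ℕ} (hd : 2 ≤ d) (M : Fin (d ^ 2) → Matrix (Fin d) (Fin d) K)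
    (hM : ∀ i j, trace (M i * M j) = if i = j then 1 else 1 / ((d : K) + 1)) :
    MM (Multiset.replicate (d * (d - 1) - 1) (1 : K)
      + {((if Even d then d + 1 else d : ℕ) : K)}) := by
  classical
  have hd0 : (d : K) ≠ 0 := by exact_mod_cast (by omega : d ≠ 0)
  have hd1 : (d : K) + 1 ≠ 0 := by exact_mod_cast Nat.succ_ne_zero d
  have h0 := MM_of_Met (Met_start (by omega) M hM)
  have er : ∀ (n : ℕ) (b : K), Finset.univ.val.map (fun _ : Fin n => b)
      = Multiset.replicate n b := by
    intro n b
    rw [Multiset.map_const']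
    simp
  have eu : ∀ (b : K), Finset.univ.val.map (fun _ : Unit => b) = ({b} : Multiset K) := by
    intro b
    rfl
  rw [map_sumElim, map_sumElim, map_sumElim, er, er, eu, eu] at h0
  set c : K := (d : K) / ((d : K) + 1) with hc
  have hc0 : c ≠ 0 := div_ne_zero hd0 hd1
  have hsim : Sim 4 c := by
    have h1 : SS (2 ^ 2) (((d * (d + 1) : ℕ) : K) * (((d : K) + 1)⁻¹) ^ 2) :=
      (SS_four_nat _).scale _
    have h2 : (((d * (d + 1) : ℕ) : K) * (((d : K) + 1)⁻¹) ^ 2) = c := by
      rw [hc]; push_cast; field_simp
    rw [h2] at h1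
    exact Sim.of_SS 2 hc0 h1
  have hN : d * (d - 1) + d = d ^ 2 := by
    obtain ⟨k, rfl⟩ := Nat.exists_eq_add_of_le (show 1 ≤ d by omega)
    simp
    ring
  have hpos : 2 ≤ d * (d - 1) := by
    have : 1 ≤ d - 1 := by omega
    nlinarith
  -- `<1/(d+1)>` is `<d+1>`
  have hscale : MM ({(d : K) + 1} + ({1 / ((d : K) + 1)} : Multiset K).map (fun a => -a)) := by
    have h1 := MM_scale ((d : K) + 1) (((d : K) + 1)⁻¹)
    have h2 : ((d : K) + 1) * ((d : K) + 1)⁻¹ ^ 2 = 1 / ((d : K) + 1) := by field_simp
    rw [h2] at h1
    simpa using h1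
  rcases Nat.even_or_odd d with hev | hodd
  · rw [if_pos hev]
    obtain ⟨q, hq⟩ : ∃ q, d ^ 2 = 4 * q := by
      obtain ⟨r, hr⟩ := hev
      exact ⟨r ^ 2, by rw [hr]; ring⟩
    rw [hq] at h0
    have h1 : MM (({1 / ((d : K) + 1)} + (Multiset.replicate d (-1 : K) + {-1}))
        + Multiset.replicate (4 * q) c) := by
      convert h0 using 1
      abel
    have h2 : MM (Multiset.replicate (4 * q) (1 : K)
        + (Multiset.replicate (4 * q) c).map (fun a => -a)) := by
      rw [Multiset.map_replicate]
      exact MM_rep4 c hsim q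
    have n1 : (0 : K) ∉ ({1 / ((d : K) + 1)} : Multiset K) :=
      notMem_singleton (one_div_ne_zero hd1)
    have n2 : (0 : K) ∉ (Multiset.replicate d (-1 : K) + {-1}) :=
      notMem_add (notMem_replicate (neg_ne_zero.mpr one_ne_zero))
        (notMem_singleton (neg_ne_zero.mpr one_ne_zero))
    have h3 := h1.subst (notMem_add n1 n2) (notMem_replicate hc0)
      (notMem_replicate one_ne_zero) h2
    have h4 : MM ((Multiset.replicate (4 * q) (1 : K)
        + (Multiset.replicate d (-1 : K) + {-1})) + {1 / ((d : K) + 1)}) := by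
      convert h3 using 1
      abel
    have h5 := h4.subst (notMem_add (notMem_replicate one_ne_zero) n2) n1
      (notMem_singleton hd1) hscale
    have e1 : 4 * q = (d * (d - 1) - 1) + (d + 1) := by omega
    rw [e1, Multiset.replicate_add] at h5
    have h6 : MM ((Multiset.replicate (d * (d - 1) - 1) (1 : K) + {((d : K) + 1)})
        + (Multiset.replicate (d + 1) (1 : K) + Multiset.replicate (d + 1) (-1))) := by
      rw [Multiset.replicate_add (n := 1) (m := d) (a := (-1 : K))]
      convert h5 using 1
      simp only [Multiset.replicate_one]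
      abel
    have h7 := h6.cancel_one (notMem_add (notMem_replicate one_ne_zero) (notMem_singleton hd1))
    push_cast
    exact h7
  · have hne : ¬ Even d := Nat.not_even_iff_odd.mpr hodd
    rw [if_neg hne]
    obtain ⟨q, hq⟩ : ∃ q, d ^ 2 = 4 * q + 1 := by
      obtain ⟨r, hr⟩ := hodd
      exact ⟨r ^ 2 + r, by rw [hr]; ring⟩
    rw [hq, Multiset.replicate_add, Multiset.replicate_one] at h0
    have n1 : (0 : K) ∉ ({1 / ((d : K) + 1)} : Multiset K) :=
      notMem_singleton (one_div_ne_zero hd1)
    have n2 : (0 : K) ∉ (Multiset.replicate d (-1 : K) + {-1}) :=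
      notMem_add (notMem_replicate (neg_ne_zero.mpr one_ne_zero))
        (notMem_singleton (neg_ne_zero.mpr one_ne_zero))
    have h1 : MM (({c} + {1 / ((d : K) + 1)} + (Multiset.replicate d (-1 : K) + {-1}))
        + Multiset.replicate (4 * q) c) := by
      convert h0 using 1
      abel
    have h2 : MM (Multiset.replicate (4 * q) (1 : K)
        + (Multiset.replicate (4 * q) c).map (fun a => -a)) := by
      rw [Multiset.map_replicate]
      exact MM_rep4 c hsim q
    have h3 := h1.subst (notMem_add (notMem_add (notMem_singleton hc0) n1) n2)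
      (notMem_replicate hc0) (notMem_replicate one_ne_zero) h2
    -- `<1/(d+1)>` to `<d+1>`
    have h4 : MM ((Multiset.replicate (4 * q) (1 : K) + {c}
        + (Multiset.replicate d (-1 : K) + {-1})) + {1 / ((d : K) + 1)}) := by
      convert h3 using 1
      abel
    have n3 : (0 : K) ∉ Multiset.replicate (4 * q) (1 : K) := notMem_replicate one_ne_zero
    have n4 : (0 : K) ∉ ({(d : K) + 1} : Multiset K) := notMem_singleton hd1
    have h5 := h4.subst (notMem_add (notMem_add n3 (notMem_singleton hc0)) n2) n1 n4 hscale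
    -- `<d/(d+1)>` to `<d(d+1)>`
    have hscale2 : MM ({(d : K) * ((d : K) + 1)} + ({c} : Multiset K).map (fun a => -a)) := by
      have h1 := MM_scale ((d : K) * ((d : K) + 1)) (((d : K) + 1)⁻¹)
      have h2 : ((d : K) * ((d : K) + 1)) * ((d : K) + 1)⁻¹ ^ 2 = c := by
        rw [hc]; field_simp
      rw [h2] at h1
      simpa using h1
    have h6 : MM ((Multiset.replicate (4 * q) (1 : K) + {(d : K) + 1}
        + (Multiset.replicate d (-1 : K) + {-1})) + {c}) := by
      convert h5 using 1
      abel
    have n5 : (0 : K) ∉ ({(d : K) * ((d : K) + 1)} : Multiset K) :=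
      notMem_singleton (mul_ne_zero hd0 hd1)
    have h7 := h6.subst (notMem_add (notMem_add n3 n4) n2) (notMem_singleton hc0) n5 hscale2
    -- `<d+1, d(d+1)>` to `<1, d>`
    have hpair : MM ({1, (d : K)}
        + ({(d : K) + 1, (d : K) * ((d : K) + 1)} : Multiset K).map (fun a => -a)) := by
      have h1 := MM_pair (1 : K) d
      have e1 : (1 : K) + d = d + 1 := by ring
      have e2 : (1 : K) * d * (1 + d) = d * (d + 1) := by ring
      rw [e2, e1] at h1
      simpa using h1
    have h8 : MM ((Multiset.replicate (4 * q) (1 : K)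
        + (Multiset.replicate d (-1 : K) + {-1})) + {(d : K) + 1, (d : K) * ((d : K) + 1)}) := by
      convert h7 using 1
      have : ({(d : K) + 1, (d : K) * ((d : K) + 1)} : Multiset K)
        = {(d : K) + 1} + {(d : K) * ((d : K) + 1)} := rfl
      rw [this]
      abel
    have n6 : (0 : K) ∉ ({(d : K) + 1, (d : K) * ((d : K) + 1)} : Multiset K) := by
      have : ({(d : K) + 1, (d : K) * ((d : K) + 1)} : Multiset K)
        = {(d : K) + 1} + {(d : K) * ((d : K) + 1)} := rfl
      rw [this]
      exact notMem_add n4 n5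
    have n7 : (0 : K) ∉ ({1, (d : K)} : Multiset K) := by
      have : ({1, (d : K)} : Multiset K) = {1} + {(d : K)} := rfl
      rw [this]
      exact notMem_add (notMem_singleton one_ne_zero) (notMem_singleton hd0)
    have h9 := h8.subst (notMem_add n3 n2) n6 n7 hpair
    have e1 : 4 * q + 1 = (d * (d - 1) - 1) + (d + 1) := by omega
    have h10 : MM ((Multiset.replicate (d * (d - 1) - 1) (1 : K) + {(d : K)})
        + (Multiset.replicate (d + 1) (1 : K) + Multiset.replicate (d + 1) (-1))) := by
      have e2 : Multiset.replicate (4 * q) (1 : K) + {1}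
          = Multiset.replicate (d * (d - 1) - 1) (1 : K) + Multiset.replicate (d + 1) 1 := by
        rw [← Multiset.replicate_add, ← e1, Multiset.replicate_add, Multiset.replicate_one]
      rw [Multiset.replicate_add (n := 1) (m := d) (a := (-1 : K))]
      convert h9 using 1
      have : ({1, (d : K)} : Multiset K) = {1} + {(d : K)} := rfl
      rw [this]
      simp only [Multiset.replicate_one]
      have e3 : Multiset.replicate (d * (d - 1) - 1) (1 : K) + {(d : K)}
          + (Multiset.replicate (d + 1) 1 + (Multiset.replicate d (-1) + {-1}))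
          = (Multiset.replicate (d * (d - 1) - 1) (1 : K) + Multiset.replicate (d + 1) 1)
            + ({(d : K)} + (Multiset.replicate d (-1) + {-1})) := by abel
      rw [e3, ← e2]
      abel
    exact h10.cancel_one (notMem_add (notMem_replicate one_ne_zero) (notMem_singleton hd0))

/-- discriminant and reduction to sums of squares. -/
theorem key_disc [CharZero K] {d : ℕ} (hd : 2 ≤ d) {e : K} (he : e ≠ 0)
    (h : MM (Multiset.replicate (d * (d - 1) - 1) (1 : K) + {e})) :
    IsSquare ((-1) ^ (d * (d - 1) / 2) * e) ∧ HH K (4 * (d * (d - 1) / 4)) := by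
  have hpos : 2 ≤ d * (d - 1) := by
    have : 1 ≤ d - 1 := by omega
    nlinarith
  have heven : Even (d * (d - 1)) := Nat.even_mul_pred_self d
  obtain ⟨m, hm⟩ := heven
  have hm2 : d * (d - 1) / 2 = m := by omega
  have hsq : IsSquare ((-1) ^ m * e) := by
    have h1 := MM.disc (m := m) (notMem_add (notMem_replicate one_ne_zero)
      (notMem_singleton he)) (by simp; omega) h
    simpa using h1
  refine ⟨by rw [hm2]; exact hsq, ?_⟩
  obtain ⟨r, hr⟩ := hsq
  rcases Nat.even_or_odd m with hme | hmo
  · rw [hme.neg_one_pow, one_mul] at hr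
    have h1 : MM ({(1 : K)} + ({e} : Multiset K).map (fun a => -a)) := by
      have := MM_scale (1 : K) r
      have e1 : (1 : K) * r ^ 2 = e := by rw [hr]; ring
      rw [e1] at this
      simpa using this
    have h2 := h.subst (notMem_replicate one_ne_zero) (notMem_singleton he)
      (notMem_singleton one_ne_zero) h1
    rw [← Multiset.replicate_one, ← Multiset.replicate_add] at h2
    obtain ⟨k, hk⟩ := hme
    have e2 : d * (d - 1) - 1 + 1 = 4 * (d * (d - 1) / 4) := by omega
    rw [e2] at h2
    exact h2
  · rw [hmo.neg_one_pow] at hr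
    have h1 : MM ({(-1 : K)} + ({e} : Multiset K).map (fun a => -a)) := by
      have := MM_scale (-1 : K) r
      have e1 : (-1 : K) * r ^ 2 = e := by
        have : e = -(r * r) := by linear_combination -hr
        rw [this]; ring
      rw [e1] at this
      simpa using this
    have h2 := h.subst (notMem_replicate one_ne_zero) (notMem_singleton he)
      (notMem_singleton (neg_ne_zero.mpr one_ne_zero)) h1
    obtain ⟨k, hk⟩ := hmo
    have e2 : d * (d - 1) - 1 = 4 * (d * (d - 1) / 4) + 1 := by omega
    rw [e2, Multiset.replicate_add] at h2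
    have h3 : MM (Multiset.replicate (4 * (d * (d - 1) / 4)) (1 : K)
        + (Multiset.replicate 1 (1 : K) + Multiset.replicate 1 (-1))) := by
      convert h2 using 1
      simp only [Multiset.replicate_one]
      abel
    exact h3.cancel_one (notMem_replicate one_ne_zero)

end Pool.Agent.H109R2.Witt
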