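import Pool.Agent.H109R2.SM_T7a

set_option autoImplicit false

/-! Sixth moment, task T7 (helper109). -/

namespace Pool.Agent.H109R2.SMT7

open Finset Pool.Agent.H306R2 Pool.Agent.H306R2.SM

theorem Rs_mul (h1 h2 : ℕ) [NeZero h1] [NeZero h2] [NeZero (h1 * h2)] (hc : Nat.Coprime h1 h2)
    (α β : ℤ) (hαβ : α * h2 + β * h1 = 1) (b m1 m2 : ZMod (h1 * h2)) :
    Rs (h1 * h2) b m1 m2 =
      Rs h1 (ZMod.chineseRemainder hc b).1 ((α : ZMod h1) * (ZMod.chineseRemainder hc m1).1)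
        ((α : ZMod h1) * (ZMod.chineseRemainder hc m2).1) *
      Rs h2 (ZMod.chineseRemainder hc b).2 ((β : ZMod h2) * (ZMod.chineseRemainder hc m1).2)
        ((β : ZMod h2) * (ZMod.chineseRemainder hc m2).2) := by
  classical
  set e := ZMod.chineseRemainder hc with he
  let Ψ : ZMod h1 × ZMod h2 → ℂ := fun w =>
    ZMod.stdAddChar ((α : ZMod h1) * w.1) * ZMod.stdAddChar ((β : ZMod h2) * w.2)
  have hΨ : ∀ z : ZMod (h1 * h2), (ZMod.stdAddChar z : ℂ) = Ψ (e z) := by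
    intro z
    obtain ⟨j, rfl⟩ : ∃ j : ℤ, (j : ZMod (h1 * h2)) = z := ⟨z.val, by simp⟩
    have h3 := stdAddChar_crt h1 h2 α β hαβ j
    have h4 : e (j : ZMod (h1 * h2)) = ((j : ZMod h1), (j : ZMod h2)) := by
      rw [map_intCast e]
      rfl
    rw [h4]
    exact h3
  let F : ZMod h1 × ZMod h2 → ZMod h1 × ZMod h2 → ℂ := fun x y =>
    if x * y = e b then Ψ (e m1 * x + e m2 * y) else 0
  have h4 : Rs (h1 * h2) b m1 m2 = ∑ x, ∑ y, F x y := by
    unfold Rs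
    rw [← Equiv.sum_comp e.toEquiv (fun x => ∑ y, F x y)]
    apply Finset.sum_congr rfl
    intro x _
    rw [← Equiv.sum_comp e.toEquiv (fun y => F (e.toEquiv x) y)]
    apply Finset.sum_congr rfl
    intro y _
    have h5 : x * y = b ↔ e.toEquiv x * e.toEquiv y = e b := by
      rw [RingEquiv.toEquiv_eq_coe, RingEquiv.coe_toEquiv, ← map_mul]
      exact e.injective.eq_iff.symm
    by_cases h6 : x * y = b
    · rw [if_pos h6]
      simp only [F]
      rw [if_pos (h5.mp h6), hΨ, map_add, map_mul, map_mul]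
      rfl
    · rw [if_neg h6]
      simp only [F]
      rw [if_neg (fun h => h6 (h5.mpr h))]
  rw [h4, Fintype.sum_prod_type]
  let A : ZMod h1 → ZMod h1 → ℂ := fun x y => if x * y = (e b).1 then
    (ZMod.stdAddChar (((α : ZMod h1) * (e m1).1) * x + ((α : ZMod h1) * (e m2).1) * y) : ℂ) else 0
  let B : ZMod h2 → ZMod h2 → ℂ := fun x y => if x * y = (e b).2 then
    (ZMod.stdAddChar (((β : ZMod h2) * (e m1).2) * x + ((β : ZMod h2) * (e m2).2) * y) : ℂ) else 0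
  have h7 : ∀ x1 x2 y1 y2, F (x1, x2) (y1, y2) = A x1 y1 * B x2 y2 := by
    intro x1 x2 y1 y2
    simp only [F, A, B, Prod.mk_mul_mk]
    by_cases h8 : x1 * y1 = (e b).1 <;> by_cases h9 : x2 * y2 = (e b).2
    · rw [if_pos h8, if_pos h9, if_pos (Prod.ext h8 h9)]
      simp only [Ψ, Prod.fst_add, Prod.snd_add, Prod.fst_mul, Prod.snd_mul]
      congr 2 <;> ring
    · rw [if_neg h9, if_neg (fun h => h9 (congrArg Prod.snd h)), mul_zero]
    · rw [if_neg h8, if_neg (fun h => h8 (congrArg Prod.fst h)), zero_mul]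
    · rw [if_neg h8, if_neg (fun h => h8 (congrArg Prod.fst h)), zero_mul]
  have h10 : ∑ x1 : ZMod h1, ∑ x2 : ZMod h2, ∑ y, F (x1, x2) y =
      ∑ x1 : ZMod h1, ∑ x2 : ZMod h2, (∑ y1, A x1 y1) * (∑ y2, B x2 y2) := by
    apply Finset.sum_congr rfl
    intro x1 _
    apply Finset.sum_congr rfl
    intro x2 _
    rw [Fintype.sum_prod_type, Finset.sum_mul_sum]
    apply Finset.sum_congr rfl
    intro y1 _
    apply Finset.sum_congr rfl
    intro y2 _
    exact h7 x1 x2 y1 y2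
  rw [h10, ← Finset.sum_mul_sum]
  rfl

theorem PP_mul (h1 h2 : ℕ) [NeZero h1] [NeZero h2] [NeZero (h1 * h2)] (hc : Nat.Coprime h1 h2)
    (K1 K2 : ℝ) (p1 : PP h1 K1) (p2 : PP h2 K2) : PP (h1 * h2) (K1 * K2) := by
  intro b m1 m2
  obtain ⟨α, β, hαβ⟩ : ∃ α β : ℤ, α * h2 + β * h1 = 1 := by
    have := Nat.gcd_eq_gcd_ab h1 h2
    rw [hc] at this
    refine ⟨Nat.gcdB h1 h2, Nat.gcdA h1 h2, ?_⟩
    push_cast at this
    linarith
  rw [Rs_mul h1 h2 hc α β hαβ b m1 m2, norm_mul]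
  set e := ZMod.chineseRemainder hc with he
  have hα : IsUnit (α : ZMod h1) := by
    apply IsUnit.of_mul_eq_one (h2 : ZMod h1)
    have := congrArg (fun z : ℤ => (z : ZMod h1)) hαβ
    push_cast at this
    simpa using this
  have hβ : IsUnit (β : ZMod h2) := by
    apply IsUnit.of_mul_eq_one (h1 : ZMod h2)
    have := congrArg (fun z : ℤ => (z : ZMod h2)) hαβ
    push_cast at this
    simpa using this
  have hg1 : ∀ m : ZMod (h1 * h2), Nat.gcd ((α : ZMod h1) * (e m).1).val h1 = Nat.gcd m.val h1 := by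
    intro m
    rw [gcd_unit_mul h1 _ _ hα]
    have h3 : (e m).1 = ((m.val : ℕ) : ZMod h1) := by
      conv_lhs => rw [← ZMod.natCast_zmod_val m, map_natCast]
      rfl
    rw [h3, ZMod.val_natCast, ← Nat.gcd_rec, Nat.gcd_comm]
  have hg2 : ∀ m : ZMod (h1 * h2), Nat.gcd ((β : ZMod h2) * (e m).2).val h2 = Nat.gcd m.val h2 := by
    intro m
    rw [gcd_unit_mul h2 _ _ hβ]
    have h3 : (e m).2 = ((m.val : ℕ) : ZMod h2) := by
      conv_lhs => rw [← ZMod.natCast_zmod_val m, map_natCast]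
      rfl
    rw [h3, ZMod.val_natCast, ← Nat.gcd_rec, Nat.gcd_comm]
  have hsq : ∀ m : ZMod (h1 * h2), Real.sqrt (Nat.gcd m.val (h1 * h2)) =
      Real.sqrt (Nat.gcd m.val h1) * Real.sqrt (Nat.gcd m.val h2) := by
    intro m
    rw [Nat.Coprime.gcd_mul _ hc, Nat.cast_mul, Real.sqrt_mul (Nat.cast_nonneg _)]
  have b1 := p1 (e b).1 ((α : ZMod h1) * (e m1).1) ((α : ZMod h1) * (e m2).1)
  have b2 := p2 (e b).2 ((β : ZMod h2) * (e m1).2) ((β : ZMod h2) * (e m2).2)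
  rw [hg1, hg1] at b1
  rw [hg2, hg2] at b2
  rw [hsq, hsq]
  calc _ ≤ (K1 * Real.sqrt (Nat.gcd m1.val h1) * Real.sqrt (Nat.gcd m2.val h1)) *
        (K2 * Real.sqrt (Nat.gcd m1.val h2) * Real.sqrt (Nat.gcd m2.val h2)) :=
        mul_le_mul b1 b2 (norm_nonneg _) ((norm_nonneg _).trans b1)
    _ = _ := by ring

/-- local factor -/
noncomputable def gg (κ C0 : ℝ) (p a : ℕ) : ℝ :=
  C0 * ((a : ℝ) + 1) * ((p : ℝ) ^ a) ^ κ * (if 2 ≤ a then (p : ℝ) ^ a else 1) ^ (1 - κ)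

/-- the bound -/
noncomputable def GG (κ C0 : ℝ) (h : ℕ) : ℝ := ∏ p ∈ h.primeFactors, gg κ C0 p (h.factorization p)

theorem GG_mul (κ C0 : ℝ) (a b : ℕ) (hab : Nat.Coprime a b) :
    GG κ C0 (a * b) = GG κ C0 a * GG κ C0 b := by
  classical
  unfold GG
  rw [hab.primeFactors_mul, Finset.prod_union hab.disjoint_primeFactors]
  congr 1
  · apply Finset.prod_congr rfl
    intro p hp
    rw [Nat.factorization_eq_of_coprime_left hab (by simpa using hp)]
  · apply Finset.prod_congr rfl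
    intro p hp
    rw [Nat.factorization_eq_of_coprime_right hab (by simpa using hp)]

theorem one_le_sqrt_gcd (h : ℕ) [NeZero h] (m : ZMod h) : 1 ≤ Real.sqrt (Nat.gcd m.val h) := by
  rw [Real.one_le_sqrt]
  exact_mod_cast Nat.gcd_pos_of_pos_right _ (Nat.pos_of_ne_zero (NeZero.ne h))

theorem PP_prime_pow (κ C0 : ℝ) (hκ : 1 / 2 ≤ κ) (hκ1 : κ ≤ 1) (hC0 : 1 ≤ C0)
    (hK : ∀ (p : ℕ) [Fact p.Prime] (a b : ZMod p), a ≠ 0 → b ≠ 0 →
      ‖∑ x : (ZMod p)ˣ, (ZMod.stdAddChar (a * (x : ZMod p) + b * ((x⁻¹ : (ZMod p)ˣ) : ZMod p)) : ℂ)‖ ≤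
      C0 * (p : ℝ) ^ κ) (p n : ℕ) (hp : p.Prime) (hn : 0 < n) [NeZero (p ^ n)] :
    PP (p ^ n) (GG κ C0 (p ^ n)) := by
  classical
  have hG : GG κ C0 (p ^ n) = gg κ C0 p n := by
    unfold GG
    rw [Nat.primeFactors_prime_pow hn.ne' hp, Finset.prod_singleton, hp.factorization_pow]
    simp
  rw [hG]
  have hp1 : (1 : ℝ) ≤ p := by exact_mod_cast hp.one_le
  have hp0 : (0 : ℝ) < p := by linarith
  have hpn : (1 : ℝ) ≤ (p : ℝ) ^ n := one_le_pow₀ hp1
  have hdiv : ((p ^ n).divisors.card : ℝ) = (n : ℝ) + 1 := by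
    rw [Nat.divisors_prime_pow hp, Finset.card_map, Finset.card_range]
    push_cast
    ring
  intro b m1 m2
  have ht := Rs_trivial (p ^ n) b m1 m2
  rw [hdiv] at ht
  push_cast at ht
  have s1 := one_le_sqrt_gcd (p ^ n) m1
  have s2 := one_le_sqrt_gcd (p ^ n) m2
  by_cases hn2 : 2 ≤ n
  · have hg : gg κ C0 p n = C0 * ((n : ℝ) + 1) * (p : ℝ) ^ n := by
      unfold gg
      rw [if_pos hn2, mul_assoc, ← Real.rpow_add (by positivity)]
      congr 1
      have : κ + (1 - κ) = 1 := by ring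
      rw [this, Real.rpow_one]
    rw [hg]
    have hn0 : (0 : ℝ) ≤ n := Nat.cast_nonneg n
    calc ‖Rs (p ^ n) b m1 m2‖ ≤ (p : ℝ) ^ n * ((n : ℝ) + 1) := ht
      _ = 1 * ((n : ℝ) + 1) * (p : ℝ) ^ n * 1 * 1 := by ring
      _ ≤ C0 * ((n : ℝ) + 1) * (p : ℝ) ^ n * Real.sqrt (Nat.gcd m1.val (p ^ n)) *
          Real.sqrt (Nat.gcd m2.val (p ^ n)) := by gcongr
  · have hn1 : n = 1 := by omega
    subst hn1
    have hg : gg κ C0 p 1 = 2 * C0 * (p : ℝ) ^ κ := by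
      unfold gg
      rw [if_neg (by norm_num), Real.one_rpow, pow_one]
      push_cast
      ring
    rw [hg]
    have hpk : 0 < (p : ℝ) ^ κ := Real.rpow_pos_of_pos hp0 κ
    have hhalf : (p : ℝ) ≤ (p : ℝ) ^ κ * Real.sqrt p := by
      rw [Real.sqrt_eq_rpow, ← Real.rpow_add hp0]
      calc (p : ℝ) = (p : ℝ) ^ (1 : ℝ) := (Real.rpow_one _).symm
        _ ≤ (p : ℝ) ^ (κ + 1 / 2) := Real.rpow_le_rpow_of_exponent_le hp1 (by linarith)
    have ht' : ‖Rs (p ^ 1) b m1 m2‖ ≤ 2 * ((p : ℝ) ^ κ * Real.sqrt p) := by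
      refine ht.trans ?_
      rw [pow_one]
      push_cast
      linarith
    by_cases hm1 : m1 = 0
    · have h5 : Real.sqrt (Nat.gcd m1.val (p ^ 1)) = Real.sqrt p := by
        rw [hm1, ZMod.val_zero, Nat.gcd_zero_left, pow_one]
      rw [h5]
      calc ‖Rs (p ^ 1) b m1 m2‖ ≤ 2 * ((p : ℝ) ^ κ * Real.sqrt p) := ht'
        _ = 2 * 1 * (p : ℝ) ^ κ * Real.sqrt p * 1 := by ring
        _ ≤ 2 * C0 * (p : ℝ) ^ κ * Real.sqrt p * Real.sqrt (Nat.gcd m2.val (p ^ 1)) := by gcongr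
    · by_cases hm2 : m2 = 0
      · have h5 : Real.sqrt (Nat.gcd m2.val (p ^ 1)) = Real.sqrt p := by
          rw [hm2, ZMod.val_zero, Nat.gcd_zero_left, pow_one]
        rw [h5]
        calc ‖Rs (p ^ 1) b m1 m2‖ ≤ 2 * ((p : ℝ) ^ κ * Real.sqrt p) := ht'
          _ = 2 * 1 * (p : ℝ) ^ κ * 1 * Real.sqrt p := by ring
          _ ≤ 2 * C0 * (p : ℝ) ^ κ * Real.sqrt (Nat.gcd m1.val (p ^ 1)) * Real.sqrt p := by gcongr
      · have h6 : ‖Rs (p ^ 1) b m1 m2‖ ≤ C0 * (p : ℝ) ^ κ := by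
          have hgen : ∀ (q : ℕ) (_ : q = p) [NeZero q] (b' n1 n2 : ZMod q), n1 ≠ 0 → n2 ≠ 0 →
              ‖Rs q b' n1 n2‖ ≤ C0 * (p : ℝ) ^ κ := by
            intro q hq _ b' n1 n2 h1 h2
            have hqp : q.Prime := by rw [hq]; exact hp
            have : Fact q.Prime := ⟨hqp⟩
            rw [← hq]
            exact Rs_prime κ C0 (by linarith) hC0 (fun a b => hK q a b) b' n1 n2 h1 h2
          exact hgen (p ^ 1) (pow_one p) b m1 m2 hm1 hm2
        calc ‖Rs (p ^ 1) b m1 m2‖ ≤ C0 * (p : ℝ) ^ κ := h6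
          _ ≤ 2 * C0 * (p : ℝ) ^ κ * 1 * 1 := by nlinarith [mul_pos (by linarith : (0 : ℝ) < C0) hpk]
          _ ≤ 2 * C0 * (p : ℝ) ^ κ * Real.sqrt (Nat.gcd m1.val (p ^ 1)) *
              Real.sqrt (Nat.gcd m2.val (p ^ 1)) := by gcongr

theorem PP_all (κ C0 : ℝ) (hκ : 1 / 2 ≤ κ) (hκ1 : κ ≤ 1) (hC0 : 1 ≤ C0)
    (hK : ∀ (p : ℕ) [Fact p.Prime] (a b : ZMod p), a ≠ 0 → b ≠ 0 →
      ‖∑ x : (ZMod p)ˣ, (ZMod.stdAddChar (a * (x : ZMod p) + b * ((x⁻¹ : (ZMod p)ˣ) : ZMod p)) : ℂ)‖ ≤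
      C0 * (p : ℝ) ^ κ) (h : ℕ) : ∀ [NeZero h], PP h (GG κ C0 h) := by
  induction h using Nat.recOnPosPrimePosCoprime with
  | prime_pow p n hp hn =>
    intro _
    exact PP_prime_pow κ C0 hκ hκ1 hC0 hK p n hp hn
  | zero =>
    intro h0
    exact absurd rfl (NeZero.ne 0)
  | one =>
    intro _ b m1 m2
    have h1 := Rs_trivial 1 b m1 m2
    have s1 := one_le_sqrt_gcd 1 m1
    have s2 := one_le_sqrt_gcd 1 m2
    have h2 : GG κ C0 1 = 1 := by simp [GG]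
    rw [h2]
    simp only [Nat.cast_one, Nat.divisors_one, Finset.card_singleton, mul_one] at h1
    calc ‖Rs 1 b m1 m2‖ ≤ 1 * 1 * 1 := by linarith
      _ ≤ _ := by gcongr
  | coprime a b ha hb hab iha ihb =>
    intro _
    have : NeZero a := ⟨by omega⟩
    have : NeZero b := ⟨by omega⟩
    rw [GG_mul κ C0 a b hab]
    exact PP_mul a b hab _ _ iha ihb

theorem prod_bound (ε C0 : ℝ) (hε : 0 < ε) (hC0 : 1 ≤ C0) : ∃ C : ℝ, 0 < C ∧ ∀ h : ℕ, 1 ≤ h →
    ∏ p ∈ h.primeFactors, (C0 * ((h.factorization p : ℝ) + 1)) ≤ C * (h : ℝ) ^ ε := by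
  classical
  have hL : 0 < Real.log 2 := Real.log_pos (by norm_num)
  set K : ℝ := C0 * (1 + 1 / (ε * Real.log 2)) with hKdef
  have hK1 : 1 ≤ K := by
    have : 0 < 1 / (ε * Real.log 2) := by positivity
    rw [hKdef]
    nlinarith
  obtain ⟨p0, hp0⟩ := exists_nat_ge ((2 * C0) ^ (1 / ε))
  have hloc1 : ∀ p a : ℕ, 2 ≤ p → C0 * ((a : ℝ) + 1) ≤ K * ((p : ℝ) ^ a) ^ ε := by
    intro p a hp
    have h2p : (2 : ℝ) ≤ p := by exact_mod_cast hp
    have h1 : ((2 : ℝ) ^ a) ^ ε ≤ ((p : ℝ) ^ a) ^ ε := by gcongr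
    have h2 : 1 + (a : ℝ) * (ε * Real.log 2) ≤ ((2 : ℝ) ^ a) ^ ε := by
      rw [← Real.rpow_natCast, ← Real.rpow_mul (by norm_num), Real.rpow_def_of_pos (by norm_num)]
      have := Real.add_one_le_exp (Real.log 2 * ((a : ℝ) * ε))
      linarith
    have h3 : (a : ℝ) + 1 ≤ (1 + 1 / (ε * Real.log 2)) * (1 + (a : ℝ) * (ε * Real.log 2)) := by
      have hx : 0 < ε * Real.log 2 := by positivity
      have ha : (0 : ℝ) ≤ a := Nat.cast_nonneg a
      have h4 : (1 + 1 / (ε * Real.log 2)) * (1 + (a : ℝ) * (ε * Real.log 2)) =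
          1 + (a : ℝ) + (a : ℝ) * (ε * Real.log 2) + 1 / (ε * Real.log 2) := by
        field_simp
        ring
      rw [h4]
      have : 0 < 1 / (ε * Real.log 2) := by positivity
      have : 0 ≤ (a : ℝ) * (ε * Real.log 2) := by positivity
      linarith
    calc C0 * ((a : ℝ) + 1) ≤ C0 * ((1 + 1 / (ε * Real.log 2)) * (1 + (a : ℝ) * (ε * Real.log 2))) := by
          gcongr
      _ = K * (1 + (a : ℝ) * (ε * Real.log 2)) := by rw [hKdef]; ring
      _ ≤ K * ((p : ℝ) ^ a) ^ ε := by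
          gcongr
          linarith
  have hloc2 : ∀ p a : ℕ, p0 ≤ p → 1 ≤ p → 1 ≤ a → C0 * ((a : ℝ) + 1) ≤ ((p : ℝ) ^ a) ^ ε := by
    intro p a hp hp1 ha
    have h1 : (2 * C0) ^ (1 / ε) ≤ (p : ℝ) := hp0.trans (by exact_mod_cast hp)
    have h2 : 2 * C0 ≤ (p : ℝ) ^ ε := by
      calc 2 * C0 = ((2 * C0) ^ (1 / ε)) ^ ε := by
            rw [← Real.rpow_mul (by linarith)]
            have : 1 / ε * ε = 1 := by field_simp
            rw [this, Real.rpow_one]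
        _ ≤ (p : ℝ) ^ ε := by gcongr
    have h3 : ((p : ℝ) ^ a) ^ ε = ((p : ℝ) ^ ε) ^ a := by
      rw [← Real.rpow_natCast, ← Real.rpow_natCast, ← Real.rpow_mul (Nat.cast_nonneg _),
        ← Real.rpow_mul (Nat.cast_nonneg _), mul_comm]
    rw [h3]
    have h4 : (a : ℝ) + 1 ≤ 2 ^ a := by
      have := Nat.lt_two_pow_self (n := a)
      have h5 : a + 1 ≤ 2 ^ a := this
      exact_mod_cast h5
    calc C0 * ((a : ℝ) + 1) ≤ C0 ^ a * 2 ^ a := by
          apply mul_le_mul _ h4 (by positivity) (by positivity)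
          exact le_self_pow₀ hC0 (by omega)
      _ = (2 * C0) ^ a := by rw [mul_pow]; ring
      _ ≤ ((p : ℝ) ^ ε) ^ a := by gcongr
  refine ⟨K ^ p0, by positivity, ?_⟩
  intro h hh
  have hprime : ∀ p ∈ h.primeFactors, p.Prime := fun p hp => Nat.prime_of_mem_primeFactors hp
  have hpos : ∀ p ∈ h.primeFactors, 1 ≤ h.factorization p := by
    intro p hp
    have h6 := Nat.mem_primeFactors.mp hp
    exact (h6.1.dvd_iff_one_le_factorization (by omega)).mp h6.2.1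
  have hstep : ∏ p ∈ h.primeFactors, (C0 * ((h.factorization p : ℝ) + 1)) ≤
      ∏ p ∈ h.primeFactors, ((if p < p0 then K else 1) * ((p : ℝ) ^ (h.factorization p)) ^ ε) := by
    apply Finset.prod_le_prod
    · intro p _
      positivity
    · intro p hp
      by_cases h7 : p < p0
      · rw [if_pos h7]
        exact hloc1 p _ (hprime p hp).two_le
      · rw [if_neg h7, one_mul]
        exact hloc2 p _ (by omega) (hprime p hp).one_le (hpos p hp)
  refine hstep.trans ?_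
  rw [Finset.prod_mul_distrib]
  have h8 : ∏ p ∈ h.primeFactors, ((p : ℝ) ^ (h.factorization p)) ^ ε = (h : ℝ) ^ ε := by
    rw [Real.finsetProd_rpow _ _ (fun p _ => by positivity)]
    congr 1
    have := Nat.prod_factorization_pow_eq_self (n := h) (by omega)
    rw [Finsupp.prod, Nat.support_factorization] at this
    exact_mod_cast this
  rw [h8]
  have h9 : ∏ p ∈ h.primeFactors, (if p < p0 then K else 1) ≤ K ^ p0 := by
    rw [← Finset.prod_filter]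
    rw [Finset.prod_const]
    apply pow_le_pow_right₀ hK1
    calc (h.primeFactors.filter (fun p => p < p0)).card ≤ (Finset.range p0).card := by
          apply Finset.card_le_card
          intro p hp
          rw [Finset.mem_filter] at hp
          exact Finset.mem_range.mpr hp.2
      _ = p0 := Finset.card_range _
  gcongr

theorem GG_eq (κ C0 : ℝ) (h : ℕ) (hh : 1 ≤ h) :
    GG κ C0 h = (∏ p ∈ h.primeFactors, (C0 * ((h.factorization p : ℝ) + 1))) * (h : ℝ) ^ κ *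
      hq h ^ (1 - κ) := by
  classical
  unfold GG gg hq
  rw [Finset.prod_mul_distrib, Finset.prod_mul_distrib]
  congr 1
  · congr 1
    rw [Real.finsetProd_rpow _ _ (fun p _ => by positivity)]
    congr 1
    have := Nat.prod_factorization_pow_eq_self (n := h) (by omega)
    rw [Finsupp.prod, Nat.support_factorization] at this
    exact_mod_cast this
  · rw [Finsupp.prod, Nat.support_factorization, Real.finsetProd_rpow]
    intro p _
    split_ifs <;> positivity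

end Pool.Agent.H109R2.SMT7

namespace Pool.Agent.H109R2

open Finset Pool.Agent.H306R2 Pool.Agent.H306R2.SM SMT7

/-- T7 -/
theorem R_bound (κ : ℝ) (hκ : 1 / 2 ≤ κ) (hκ1 : κ ≤ 1) (hK : KB κ) (ε : ℝ) (hε : 0 < ε) :
    ∃ C : ℝ, 0 < C ∧ ∀ (h : ℕ) [NeZero h] (b m1 m2 : ZMod h),
      ‖Rs h b m1 m2‖ ≤ C * (h : ℝ) ^ (κ + ε) * hq h ^ (1 - κ) *
        Real.sqrt (Nat.gcd m1.val h) * Real.sqrt (Nat.gcd m2.val h) := by
  obtain ⟨C1, hC1⟩ := hK
  set C0 : ℝ := max C1 1 with hC0def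
  have hC0 : 1 ≤ C0 := le_max_right _ _
  have hK' : ∀ (p : ℕ) [Fact p.Prime] (a b : ZMod p), a ≠ 0 → b ≠ 0 →
      ‖∑ x : (ZMod p)ˣ, (ZMod.stdAddChar (a * (x : ZMod p) + b * ((x⁻¹ : (ZMod p)ˣ) : ZMod p)) : ℂ)‖ ≤
      C0 * (p : ℝ) ^ κ := by
    intro p _ a b ha hb
    refine (hC1 p a b ha hb).trans ?_
    have : (0 : ℝ) ≤ (p : ℝ) ^ κ := by positivity
    have h2 : C1 ≤ C0 := le_max_left _ _
    gcongr
  obtain ⟨C, hC, hCb⟩ := prod_bound ε C0 hε hC0
  refine ⟨C, hC, ?_⟩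
  intro h _ b m1 m2
  have hh : 1 ≤ h := Nat.pos_of_ne_zero (NeZero.ne h)
  have h1 := PP_all κ C0 hκ hκ1 hC0 hK' h b m1 m2
  rw [GG_eq κ C0 h hh] at h1
  refine h1.trans ?_
  have hhpos : (0 : ℝ) < h := by exact_mod_cast hh
  have h2 := hCb h hh
  have hq0 : 0 ≤ hq h := by
    unfold hq
    rw [Finsupp.prod]
    apply Finset.prod_nonneg
    intro p _
    split_ifs <;> positivity
  have h3 : C * (h : ℝ) ^ (κ + ε) = (C * (h : ℝ) ^ ε) * (h : ℝ) ^ κ := by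
    rw [Real.rpow_add hhpos]
    ring
  rw [h3]
  gcongr

end Pool.Agent.H109R2
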