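import Pool.Agent.H306R2.SM.Defs

set_option autoImplicit false

/-! Sixth moment, task T7 (helper109), part a: the number of solutions of `x y = b`,
the case of a prime modulus, multiplicativity. -/

namespace Pool.Agent.H109R2.SMT7

open Finset Pool.Agent.H306R2 Pool.Agent.H306R2.SM

/-- number of `z` with `x z = 0` -/
theorem card_ann_le (h : ℕ) [NeZero h] (x : ZMod h) :
    ((univ : Finset (ZMod h)).filter (fun z => x * z = 0)).card ≤ Nat.gcd x.val h := by
  classical
  have hh : 0 < h := Nat.pos_of_ne_zero (NeZero.ne h)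
  set d := Nat.gcd x.val h with hd
  have hd0 : 0 < d := Nat.gcd_pos_of_pos_right _ hh
  have hdh : d ∣ h := Nat.gcd_dvd_right _ _
  have hdx : d ∣ x.val := Nat.gcd_dvd_left _ _
  have hq : 0 < h / d := Nat.div_pos (Nat.le_of_dvd hh hdh) hd0
  have hdvd : ∀ z : ZMod h, x * z = 0 → (h / d) ∣ z.val := by
    intro z hz
    have h1 : ((x.val * z.val : ℕ) : ZMod h) = 0 := by
      push_cast
      rw [ZMod.natCast_zmod_val, ZMod.natCast_zmod_val]
      exact hz
    rw [ZMod.natCast_eq_zero_iff] at h1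
    have h2 : (h / d) ∣ (x.val / d) * z.val := by
      have h3 : d * (h / d) ∣ d * ((x.val / d) * z.val) := by
        rw [Nat.mul_div_cancel' hdh, ← mul_assoc, Nat.mul_div_cancel' hdx]
        exact h1
      exact Nat.dvd_of_mul_dvd_mul_left hd0 h3
    have h4 : Nat.Coprime (h / d) (x.val / d) := by
      have := Nat.coprime_div_gcd_div_gcd (m := x.val) (n := h) hd0
      exact this.symm
    exact h4.dvd_of_dvd_mul_left h2
  have hle : ((univ : Finset (ZMod h)).filter (fun z => x * z = 0)).card ≤ (range d).card := by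
    apply Finset.card_le_card_of_injOn (fun z => z.val / (h / d))
    · intro z hz
      rw [Finset.mem_coe, Finset.mem_range]
      apply Nat.div_lt_of_lt_mul
      rw [mul_comm, Nat.mul_div_cancel' hdh]
      exact ZMod.val_lt z
    · intro z hz w hw hzw
      rw [Finset.mem_coe, Finset.mem_filter] at hz hw
      have h1 := hdvd z hz.2
      have h2 := hdvd w hw.2
      apply ZMod.val_injective h
      simp only at hzw
      rw [← Nat.div_mul_cancel h1, ← Nat.div_mul_cancel h2, hzw]
  simpa using hle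

theorem card_fiber_le (h : ℕ) [NeZero h] (b x : ZMod h) :
    ((univ : Finset (ZMod h)).filter (fun z => x * z = b)).card ≤ Nat.gcd x.val h := by
  classical
  rcases Finset.eq_empty_or_nonempty ((univ : Finset (ZMod h)).filter (fun z => x * z = b)) with h0 | ⟨y, hy⟩
  · rw [h0]
    simp
  · rw [Finset.mem_filter] at hy
    refine le_trans ?_ (card_ann_le h x)
    apply Finset.card_le_card_of_injOn (fun z => z - y)
    · intro z hz
      rw [Finset.mem_coe, Finset.mem_filter] at hz ⊢
      refine ⟨Finset.mem_univ _, ?_⟩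
      rw [mul_sub, hz.2, hy.2, sub_self]
    · intro z _ w _ hzw
      exact sub_left_injective hzw

theorem sum_gcd_le (h : ℕ) [NeZero h] :
    ∑ x : ZMod h, Nat.gcd x.val h ≤ h * h.divisors.card := by
  classical
  have hh : 0 < h := Nat.pos_of_ne_zero (NeZero.ne h)
  have h1 : ∀ x : ZMod h, Nat.gcd x.val h ≤ ∑ d ∈ h.divisors, if d ∣ x.val then d else 0 := by
    intro x
    have hmem : Nat.gcd x.val h ∈ h.divisors := by
      rw [Nat.mem_divisors]
      exact ⟨Nat.gcd_dvd_right _ _, hh.ne'⟩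
    have := Finset.single_le_sum (f := fun d => if d ∣ x.val then d else 0)
      (fun _ _ => Nat.zero_le _) hmem
    simp only [Nat.gcd_dvd_left, if_true] at this
    exact this
  calc ∑ x : ZMod h, Nat.gcd x.val h ≤ ∑ x : ZMod h, ∑ d ∈ h.divisors, (if d ∣ x.val then d else 0) :=
        Finset.sum_le_sum fun x _ => h1 x
    _ = ∑ d ∈ h.divisors, ∑ x : ZMod h, (if d ∣ x.val then d else 0) := Finset.sum_comm
    _ ≤ ∑ d ∈ h.divisors, h := by
        apply Finset.sum_le_sum
        intro d hd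
        rw [Nat.mem_divisors] at hd
        have hd0 : 0 < d := Nat.pos_of_dvd_of_pos hd.1 hh
        rw [← Finset.sum_filter, Finset.sum_const, smul_eq_mul]
        have h2 : ((univ : Finset (ZMod h)).filter (fun x => d ∣ x.val)).card ≤ (range (h / d)).card := by
          apply Finset.card_le_card_of_injOn (fun x => x.val / d)
          · intro x hx
            rw [Finset.mem_coe, Finset.mem_filter] at hx
            rw [Finset.mem_coe, Finset.mem_range]
            exact Nat.div_lt_div_of_lt_of_dvd hd.1 (ZMod.val_lt x)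
          · intro x hx y hy hxy
            rw [Finset.mem_coe, Finset.mem_filter] at hx hy
            apply ZMod.val_injective h
            simp only at hxy
            rw [← Nat.div_mul_cancel hx.2, ← Nat.div_mul_cancel hy.2, hxy]
        rw [Finset.card_range] at h2
        calc _ ≤ (h / d) * d := Nat.mul_le_mul_right d h2
          _ = h := Nat.div_mul_cancel hd.1
    _ = h * h.divisors.card := by rw [Finset.sum_const, smul_eq_mul, mul_comm]

theorem norm_stdAddChar (h : ℕ) [NeZero h] (x : ZMod h) : ‖(ZMod.stdAddChar x : ℂ)‖ = 1 := by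
  rw [ZMod.stdAddChar_apply]
  exact Circle.norm_coe _

/-- the trivial bound -/
theorem Rs_trivial (h : ℕ) [NeZero h] (b m1 m2 : ZMod h) :
    ‖Rs h b m1 m2‖ ≤ (h : ℝ) * h.divisors.card := by
  classical
  unfold Rs
  calc ‖∑ x : ZMod h, ∑ y : ZMod h, if x * y = b then (ZMod.stdAddChar (m1 * x + m2 * y) : ℂ) else 0‖
      ≤ ∑ x : ZMod h, ∑ y : ZMod h, (if x * y = b then (1 : ℝ) else 0) := by
        refine (norm_sum_le _ _).trans (Finset.sum_le_sum fun x _ => ?_)
        refine (norm_sum_le _ _).trans (Finset.sum_le_sum fun y _ => ?_)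
        split_ifs
        · rw [norm_stdAddChar]
        · simp
    _ ≤ ∑ x : ZMod h, (Nat.gcd x.val h : ℝ) := by
        apply Finset.sum_le_sum
        intro x _
        rw [← Finset.sum_filter, Finset.sum_const, nsmul_eq_mul, mul_one]
        exact_mod_cast card_fiber_le h b x
    _ ≤ (h : ℝ) * h.divisors.card := by
        have := sum_gcd_le h
        exact_mod_cast this

/-! ### prime modulus -/

theorem sum_units {p : ℕ} [Fact p.Prime] (f : ZMod p → ℂ) (h0 : f 0 = 0) :
    ∑ x : ZMod p, f x = ∑ u : (ZMod p)ˣ, f (u : ZMod p) := by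
  classical
  have h1 : ∑ u : (ZMod p)ˣ, f (u : ZMod p) =
      ∑ x ∈ Finset.image (fun u : (ZMod p)ˣ => (u : ZMod p)) univ, f x := by
    rw [Finset.sum_image]
    intro a _ b _ hab
    exact Units.ext hab
  rw [h1]
  symm
  apply Finset.sum_subset (Finset.subset_univ _)
  intro x _ hx
  by_cases hx0 : x = 0
  · rw [hx0, h0]
  · exfalso
    apply hx
    rw [Finset.mem_image]
    exact ⟨Units.mk0 x hx0, Finset.mem_univ _, rfl⟩

theorem Rs_prime {p : ℕ} [Fact p.Prime] (κ C : ℝ) (hκ : 0 ≤ κ) (hC : 1 ≤ C)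
    (hK : ∀ (a b : ZMod p), a ≠ 0 → b ≠ 0 →
      ‖∑ x : (ZMod p)ˣ, (ZMod.stdAddChar (a * (x : ZMod p) + b * ((x⁻¹ : (ZMod p)ˣ) : ZMod p)) : ℂ)‖ ≤
      C * (p : ℝ) ^ κ) (b m1 m2 : ZMod p) (h1 : m1 ≠ 0) (h2 : m2 ≠ 0) :
    ‖Rs p b m1 m2‖ ≤ C * (p : ℝ) ^ κ := by
  classical
  have hp1 : (1 : ℝ) ≤ (p : ℝ) ^ κ := by
    apply Real.one_le_rpow _ hκ
    exact_mod_cast (Fact.out : p.Prime).one_le
  by_cases hb : b = 0
  · subst hb
    have hx : ∀ x : ZMod p, (∑ y : ZMod p, if x * y = 0 then (ZMod.stdAddChar (m1 * x + m2 * y) : ℂ) else 0) =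
        if x = 0 then 0 else (ZMod.stdAddChar (m1 * x) : ℂ) := by
      intro x
      by_cases hx0 : x = 0
      · rw [if_pos hx0, hx0]
        simp only [zero_mul, if_true, mul_zero, zero_add]
        have := AddChar.sum_mulShift (R' := ℂ) m2 (ZMod.isPrimitive_stdAddChar p)
        rw [if_neg h2, Nat.cast_zero] at this
        rw [← this]
        apply Finset.sum_congr rfl
        intro y _
        rw [mul_comm]
      · rw [if_neg hx0, Finset.sum_eq_single 0]
        · simp
        · intro y _ hy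
          rw [if_neg]
          intro h
          rcases mul_eq_zero.mp h with h | h
          · exact hx0 h
          · exact hy h
        · intro h
          exact absurd (Finset.mem_univ _) h
    have hsum : Rs p 0 m1 m2 = -1 := by
      unfold Rs
      rw [Finset.sum_congr rfl (fun x _ => hx x)]
      have h3 := AddChar.sum_mulShift (R' := ℂ) m1 (ZMod.isPrimitive_stdAddChar p)
      rw [if_neg h1, Nat.cast_zero] at h3
      have h4 : ∑ x : ZMod p, (if x = 0 then 0 else (ZMod.stdAddChar (m1 * x) : ℂ)) =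
          ∑ x : ZMod p, ((ZMod.stdAddChar (x * m1) : ℂ) - if x = 0 then 1 else 0) := by
        apply Finset.sum_congr rfl
        intro x _
        by_cases hx0 : x = 0
        · rw [if_pos hx0, if_pos hx0, hx0]
          simp
        · rw [if_neg hx0, if_neg hx0, mul_comm, sub_zero]
      rw [h4, Finset.sum_sub_distrib, h3]
      simp
    rw [hsum, norm_neg, norm_one]
    nlinarith
  · have hx : ∀ u : (ZMod p)ˣ, (∑ y : ZMod p, if (u : ZMod p) * y = b then
        (ZMod.stdAddChar (m1 * (u : ZMod p) + m2 * y) : ℂ) else 0) =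
        ZMod.stdAddChar (m1 * (u : ZMod p) + (m2 * b) * ((u⁻¹ : (ZMod p)ˣ) : ZMod p)) := by
      intro u
      rw [Finset.sum_eq_single (((u⁻¹ : (ZMod p)ˣ) : ZMod p) * b)]
      · rw [if_pos]
        · congr 1
          ring
        · rw [← mul_assoc, Units.mul_inv, one_mul]
      · intro y _ hy
        rw [if_neg]
        intro h
        apply hy
        rw [← h, ← mul_assoc, Units.inv_mul, one_mul]
      · intro h
        exact absurd (Finset.mem_univ _) h
    have hsum : Rs p b m1 m2 = ∑ u : (ZMod p)ˣ,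
        (ZMod.stdAddChar (m1 * (u : ZMod p) + (m2 * b) * ((u⁻¹ : (ZMod p)ˣ) : ZMod p)) : ℂ) := by
      unfold Rs
      rw [sum_units (fun x => ∑ y : ZMod p, if x * y = b then (ZMod.stdAddChar (m1 * x + m2 * y) : ℂ) else 0)]
      · exact Finset.sum_congr rfl fun u _ => hx u
      · apply Finset.sum_eq_zero
        intro y _
        rw [if_neg]
        intro h
        rw [zero_mul] at h
        exact hb h.symm
    rw [hsum]
    exact hK m1 (m2 * b) h1 (mul_ne_zero h2 hb)

/-! ### multiplicativity -/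

/-- the bound `K` modulo `h` -/
def PP (h : ℕ) [NeZero h] (K : ℝ) : Prop :=
  ∀ b m1 m2 : ZMod h, ‖Rs h b m1 m2‖ ≤ K * Real.sqrt (Nat.gcd m1.val h) * Real.sqrt (Nat.gcd m2.val h)

theorem gcd_unit_mul (h : ℕ) [NeZero h] (u m : ZMod h) (hu : IsUnit u) :
    Nat.gcd (u * m).val h = Nat.gcd m.val h := by
  obtain ⟨v, rfl⟩ := hu
  rw [ZMod.val_mul, ← Nat.gcd_rec, Nat.gcd_comm,
    Nat.Coprime.gcd_mul_left_cancel _ (ZMod.val_coe_unit_coprime v)]

theorem stdAddChar_crt (h1 h2 : ℕ) [NeZero h1] [NeZero h2] (α β : ℤ) (hαβ : α * h2 + β * h1 = 1)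
    (j : ℤ) : haveI : NeZero (h1 * h2) := ⟨mul_ne_zero (NeZero.ne h1) (NeZero.ne h2)⟩
    (ZMod.stdAddChar ((j : ℤ) : ZMod (h1 * h2)) : ℂ) =
      ZMod.stdAddChar ((α : ZMod h1) * (j : ZMod h1)) * ZMod.stdAddChar ((β : ZMod h2) * (j : ZMod h2)) := by
  have : NeZero (h1 * h2) := ⟨mul_ne_zero (NeZero.ne h1) (NeZero.ne h2)⟩
  have e1 : ((α : ZMod h1) * (j : ZMod h1)) = ((α * j : ℤ) : ZMod h1) := by push_cast; ring
  have e2 : ((β : ZMod h2) * (j : ZMod h2)) = ((β * j : ℤ) : ZMod h2) := by push_cast; ring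
  rw [e1, e2, ZMod.stdAddChar_coe, ZMod.stdAddChar_coe, ZMod.stdAddChar_coe, ← Complex.exp_add]
  congr 1
  have n1 : (h1 : ℂ) ≠ 0 := by exact_mod_cast NeZero.ne h1
  have n2 : (h2 : ℂ) ≠ 0 := by exact_mod_cast NeZero.ne h2
  have h3 : (α : ℂ) * h2 + β * h1 = 1 := by exact_mod_cast hαβ
  push_cast
  field_simp
  linear_combination (-(j : ℂ)) * h3

end Pool.Agent.H109R2.SMT7
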