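import Mathlib

set_option autoImplicit false

namespace Pool.Agent.H109R2.ThreeSq

/-- no integer solution of `m z² = a² + b² + c²` with `z ≠ 0` when `m ≡ 7 mod 8`. -/
theorem int_no_sol (m : ℤ) (hm : m % 8 = 7) : ∀ (n : ℕ) (z a b c : ℤ), z.natAbs = n → z ≠ 0 →
    m * z ^ 2 ≠ a ^ 2 + b ^ 2 + c ^ 2 := by
  intro n
  induction n using Nat.strong_induction_on with
  | _ n ih =>
    intro z a b c hzn hz h
    have sq8 : ∀ t : ℤ, t ^ 2 % 8 = 0 ∧ t % 4 = 0 ∨ t ^ 2 % 8 = 4 ∧ t % 4 = 2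
        ∨ t ^ 2 % 8 = 1 ∧ t % 2 = 1 := by
      intro t
      have h1 : t % 8 = 0 ∨ t % 8 = 1 ∨ t % 8 = 2 ∨ t % 8 = 3 ∨ t % 8 = 4 ∨ t % 8 = 5
        ∨ t % 8 = 6 ∨ t % 8 = 7 := by omega
      have h2 : t ^ 2 % 8 = ((t % 8) ^ 2) % 8 := by
        rw [pow_two, pow_two, Int.mul_emod]
      rcases h1 with h1 | h1 | h1 | h1 | h1 | h1 | h1 | h1 <;>
        · rw [h1] at h2
          norm_num at h2
          omega
    have hmz : (m * z ^ 2) % 8 = (7 * (z ^ 2 % 8)) % 8 := by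
      rw [Int.mul_emod, hm]
    have hz2 := sq8 z
    have ha2 := sq8 a
    have hb2 := sq8 b
    have hc2 := sq8 c
    rw [h] at hmz
    have hall : z % 2 = 0 ∧ a % 2 = 0 ∧ b % 2 = 0 ∧ c % 2 = 0 := by omega
    obtain ⟨hz', ha', hb', hc'⟩ := hall
    obtain ⟨z1, rfl⟩ : ∃ z1, z = 2 * z1 := ⟨z / 2, by omega⟩
    obtain ⟨a1, rfl⟩ : ∃ a1, a = 2 * a1 := ⟨a / 2, by omega⟩
    obtain ⟨b1, rfl⟩ : ∃ b1, b = 2 * b1 := ⟨b / 2, by omega⟩
    obtain ⟨c1, rfl⟩ : ∃ c1, c = 2 * c1 := ⟨c / 2, by omega⟩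
    have hz1 : z1 ≠ 0 := by rintro rfl; exact hz rfl
    refine ih z1.natAbs (by omega) z1 a1 b1 c1 rfl hz1 ?_
    nlinarith

/-- no rational solution. -/
theorem rat_no_sol (m : ℕ) (hm : m % 8 = 7) (a b c z : ℚ) (hz : z ≠ 0) :
    (m : ℚ) * z ^ 2 ≠ a ^ 2 + b ^ 2 + c ^ 2 := by
  intro h
  -- clear denominators
  let D : ℤ := a.den * b.den * c.den * z.den
  have hD : (D : ℚ) ≠ 0 := by
    simp only [D]
    push_cast
    have := a.den_ne_zero
    have := b.den_ne_zero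
    have := c.den_ne_zero
    have := z.den_ne_zero
    positivity
  have key : ∀ q : ℚ, ∀ k : ℤ, (q * (q.den * k) = q.num * k) := by
    intro q k
    rw [← mul_assoc, Rat.mul_den_eq_num]
  have ea : a * D = ((a.num * (b.den * c.den * z.den) : ℤ) : ℚ) := by
    simp only [D]; push_cast
    have := Rat.mul_den_eq_num a
    linear_combination (b.den * c.den * z.den : ℚ) * this
  have eb : b * D = ((b.num * (a.den * c.den * z.den) : ℤ) : ℚ) := by
    simp only [D]; push_cast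
    have := Rat.mul_den_eq_num b
    linear_combination (a.den * c.den * z.den : ℚ) * this
  have ec : c * D = ((c.num * (a.den * b.den * z.den) : ℤ) : ℚ) := by
    simp only [D]; push_cast
    have := Rat.mul_den_eq_num c
    linear_combination (a.den * b.den * z.den : ℚ) * this
  have ez : z * D = ((z.num * (a.den * b.den * c.den) : ℤ) : ℚ) := by
    simp only [D]; push_cast
    have := Rat.mul_den_eq_num z
    linear_combination (a.den * b.den * c.den : ℚ) * this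
  have h1 : (m : ℚ) * (z * D) ^ 2 = (a * D) ^ 2 + (b * D) ^ 2 + (c * D) ^ 2 := by
    linear_combination (D : ℚ) ^ 2 * h
  rw [ea, eb, ec, ez] at h1
  have h2 : (m : ℤ) * (z.num * (a.den * b.den * c.den)) ^ 2
      = (a.num * (b.den * c.den * z.den)) ^ 2 + (b.num * (a.den * c.den * z.den)) ^ 2
        + (c.num * (a.den * b.den * z.den)) ^ 2 := by
    exact_mod_cast h1
  refine int_no_sol m (by omega) _ _ _ _ _ rfl ?_ h2
  have h3 : z.num ≠ 0 := Rat.num_ne_zero.mpr hz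
  have := a.den_ne_zero
  have := b.den_ne_zero
  have := c.den_ne_zero
  positivity

end Pool.Agent.H109R2.ThreeSq
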